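import Pool.Agent.Lib.MP_a8252b_ag.Main

/-!
# The congruence generated by small loops
-/

namespace Pool.Agent.MPa8252b

open Matrix Filter Topology

variable {n : ℕ}

section algebra

variable {X : Type} [TopologicalSpace X] {x y z w : X}

theorem q_assoc (P : Path.Homotopic.Quotient x y) (Q : Path.Homotopic.Quotient y z)
    (S : Path.Homotopic.Quotient z w) : (P.trans Q).trans S = P.trans (Q.trans S) := by
  rcases P with ⟨f⟩
  rcases Q with ⟨g⟩
  rcases S with ⟨h⟩
  exact Quotient.sound ⟨Path.Homotopy.transAssoc f g h⟩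

theorem q_refl_trans (P : Path.Homotopic.Quotient x y) :
    (Path.Homotopic.Quotient.refl x).trans P = P := by
  rcases P with ⟨f⟩
  exact Quotient.sound ⟨Path.Homotopy.reflTrans f⟩

theorem q_trans_refl (P : Path.Homotopic.Quotient x y) :
    P.trans (Path.Homotopic.Quotient.refl y) = P := by
  rcases P with ⟨f⟩
  exact Quotient.sound ⟨Path.Homotopy.transRefl f⟩

theorem q_symm_trans (P : Path.Homotopic.Quotient x y) :
    P.symm.trans P = Path.Homotopic.Quotient.refl y := by
  rcases P with ⟨f⟩
  exact Quotient.sound ⟨(Path.Homotopy.reflSymmTrans f).symm⟩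

theorem q_trans_symm (P : Path.Homotopic.Quotient x y) :
    P.trans P.symm = Path.Homotopic.Quotient.refl x := by
  rcases P with ⟨f⟩
  exact Quotient.sound ⟨(Path.Homotopy.reflTransSymm f).symm⟩

theorem q_symm_symm (P : Path.Homotopic.Quotient x y) : P.symm.symm = P := by
  rcases P with ⟨f⟩
  exact congrArg Path.Homotopic.Quotient.mk (Path.symm_symm f)

theorem q_symm_rev (P : Path.Homotopic.Quotient x y) (Q : Path.Homotopic.Quotient y z) :
    (P.trans Q).symm = Q.symm.trans P.symm := by
  rcases P with ⟨f⟩
  rcases Q with ⟨g⟩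
  exact congrArg Path.Homotopic.Quotient.mk (Path.trans_symm f g)

theorem q_cancel (P : Path.Homotopic.Quotient x y) (Q : Path.Homotopic.Quotient y z) :
    P.symm.trans (P.trans Q) = Q := by
  rw [← q_assoc, q_symm_trans, q_refl_trans]

theorem q_cancel' (P : Path.Homotopic.Quotient x y) (Q : Path.Homotopic.Quotient x z) :
    P.trans (P.symm.trans Q) = Q := by
  rw [← q_assoc, q_trans_symm, q_refl_trans]

/-- Conjugation by a path. -/
noncomputable def conj (P : Path.Homotopic.Quotient x y) : FundamentalGroup X y →* FundamentalGroup X x where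
  toFun g := (P.trans (g : Path.Homotopic.Quotient y y)).trans P.symm
  map_one' := by
    rw [FundamentalGroup.one_def]
    change (P.trans (Path.Homotopic.Quotient.refl y)).trans P.symm = _
    rw [q_trans_refl, q_trans_symm]
    rfl
  map_mul' g h := by
    rw [FundamentalGroup.mul_def, FundamentalGroup.mul_def]
    change (P.trans (Path.Homotopic.Quotient.trans h g)).trans P.symm =
      Path.Homotopic.Quotient.trans ((P.trans h).trans P.symm) ((P.trans g).trans P.symm)
    simp only [q_assoc, q_cancel]

end algebra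

/-- The smallest congruence on the fundamental groupoid that kills the small loops. -/
inductive Rel (A : Matrix (Fin n) (Fin n) ℤ) (N' : AddSubgroup (Fin n → ℤ)) :
    ∀ {x y : Sp A ⊤}, Path.Homotopic.Quotient x y → Path.Homotopic.Quotient x y → Prop
  | refl {x y : Sp A ⊤} (P : Path.Homotopic.Quotient x y) : Rel A N' P P
  | symm {x y : Sp A ⊤} {P Q : Path.Homotopic.Quotient x y} : Rel A N' P Q → Rel A N' Q P
  | trans {x y : Sp A ⊤} {P Q S : Path.Homotopic.Quotient x y} :
      Rel A N' P Q → Rel A N' Q S → Rel A N' P S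
  | comp {x y z : Sp A ⊤} {P P' : Path.Homotopic.Quotient x y}
      {Q Q' : Path.Homotopic.Quotient y z} :
      Rel A N' P P' → Rel A N' Q Q' → Rel A N' (P.trans Q) (P'.trans Q')
  | small {z : Sp A ⊤} (l : Path z z) : SmallLoop A N' l →
      Rel A N' (Path.Homotopic.Quotient.mk l) (Path.Homotopic.Quotient.refl z)

variable {A : Matrix (Fin n) (Fin n) ℤ} {N' : AddSubgroup (Fin n → ℤ)}

theorem conj_closure {x y : Sp A ⊤} (P : Path.Homotopic.Quotient x y)
    {g : FundamentalGroup (Sp A ⊤) y} (hg : g ∈ Subgroup.closure (smallLoops A N' y)) :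
    conj P g ∈ Subgroup.closure (smallLoops A N' x) := by
  have h1 : Subgroup.closure (smallLoops A N' y) ≤
      (Subgroup.closure (smallLoops A N' x)).comap (conj P) := by
    rw [Subgroup.closure_le]
    rintro _ ⟨z, c, l, hl, rfl⟩
    refine Subgroup.subset_closure ?_
    rcases P with ⟨p⟩
    refine ⟨z, p.trans c, l, hl, ?_⟩
    change ((Path.Homotopic.Quotient.mk p).trans (Path.Homotopic.Quotient.mk
      ((c.trans l).trans c.symm))).trans (Path.Homotopic.Quotient.mk p).symm =
      Path.Homotopic.Quotient.mk (((p.trans c).trans l).trans (p.trans c).symm)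
    simp only [Path.Homotopic.Quotient.mk_trans, Path.Homotopic.Quotient.mk_symm, q_assoc,
      q_symm_rev]
  exact h1 hg

/-- The class of the loop is in the subgroup generated by the small loops. -/
def InK (A : Matrix (Fin n) (Fin n) ℤ) (N' : AddSubgroup (Fin n → ℤ)) {x : Sp A ⊤}
    (P : Path.Homotopic.Quotient x x) : Prop :=
  (FundamentalGroup.fromPath P : FundamentalGroup (Sp A ⊤) x) ∈
    Subgroup.closure (smallLoops A N' x)

theorem inK_refl (x : Sp A ⊤) : InK A N' (Path.Homotopic.Quotient.refl x) :=
  Subgroup.one_mem (Subgroup.closure (smallLoops A N' x))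

theorem inK_symm {x : Sp A ⊤} {P : Path.Homotopic.Quotient x x} (h : InK A N' P) :
    InK A N' P.symm :=
  Subgroup.inv_mem (Subgroup.closure (smallLoops A N' x)) h

theorem inK_trans {x : Sp A ⊤} {P Q : Path.Homotopic.Quotient x x} (h : InK A N' P)
    (h' : InK A N' Q) : InK A N' (P.trans Q) :=
  Subgroup.mul_mem (Subgroup.closure (smallLoops A N' x)) h' h

theorem inK_conj {x y : Sp A ⊤} (P : Path.Homotopic.Quotient x y)
    {Q : Path.Homotopic.Quotient y y} (h : InK A N' Q) :
    InK A N' ((P.trans Q).trans P.symm) :=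
  conj_closure P h

theorem inK_small {z : Sp A ⊤} (l : Path z z) (hl : SmallLoop A N' l) :
    InK A N' (Path.Homotopic.Quotient.mk l) := by
  refine Subgroup.subset_closure ⟨z, Path.refl z, l, hl, ?_⟩
  change Path.Homotopic.Quotient.mk l = Path.Homotopic.Quotient.mk (((Path.refl z).trans l).trans
    (Path.refl z).symm)
  rw [Path.refl_symm]
  simp only [Path.Homotopic.Quotient.mk_trans, Path.Homotopic.Quotient.mk_refl]
  rw [q_refl_trans, q_trans_refl]

theorem rel_closure {x y : Sp A ⊤} {P Q : Path.Homotopic.Quotient x y} (h : Rel A N' P Q) :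
    InK A N' (P.trans Q.symm) := by
  induction h with
  | refl P =>
    rw [q_trans_symm]
    exact inK_refl _
  | @symm x y P Q _ ih =>
    have h1 := inK_symm ih
    rw [q_symm_rev, q_symm_symm] at h1
    exact h1
  | @trans x y P Q S _ _ ih1 ih2 =>
    have h1 := inK_trans ih1 ih2
    rw [q_assoc, q_cancel] at h1
    exact h1
  | @comp x y z P P' Q Q' _ _ ih1 ih2 =>
    have h1 := inK_trans (inK_conj P ih2) ih1
    simp only [q_assoc, q_cancel] at h1
    rw [q_symm_rev]
    simp only [q_assoc]
    exact h1
  | @small z l hl =>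
    have h1 := inK_small l hl
    have h2 : (Path.Homotopic.Quotient.refl z).symm = Path.Homotopic.Quotient.refl z := by
      rw [← q_refl_trans (Path.Homotopic.Quotient.refl z).symm, q_trans_symm]
    rw [h2, q_trans_refl]
    exact h1

theorem rel_of_loop {x y z w : Sp A ⊤} {α : Path.Homotopic.Quotient x y}
    {β : Path.Homotopic.Quotient y z} {γ : Path.Homotopic.Quotient w z}
    {δ : Path.Homotopic.Quotient x w}
    (h : Rel A N' (((α.trans β).trans γ.symm).trans δ.symm) (Path.Homotopic.Quotient.refl x)) :
    Rel A N' (α.trans β) (δ.trans γ) := by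
  have h1 := Rel.comp h (Rel.refl (δ.trans γ))
  rw [q_refl_trans] at h1
  simp only [q_assoc, q_cancel] at h1
  rw [q_symm_trans, q_trans_refl] at h1
  exact h1

theorem rel_cast {x y x' y' : Sp A ⊤} (hx : x' = x) (hy : y' = y)
    {P Q : Path.Homotopic.Quotient x y} (h : Rel A N' (P.cast hx hy) (Q.cast hx hy)) :
    Rel A N' P Q := by
  subst hx hy
  simpa using h

end Pool.Agent.MPa8252b
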