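import Mathlib
import Pool.Agent.Lib.MP_a8252b_ag.Rel

/-!
# Quotients of the fundamental group of the base of a covering
-/

namespace Pool.Agent.MPa8252b

open Topology unitInterval

section cov

variable {X S G : Type} [TopologicalSpace X] [TopologicalSpace S] [Group G] [MulAction G S]
  {p : S → X}

/-- The elements of `G` which move some point of `S` along a lift of a loop in `M`. -/
def moved (G : Type) [Group G] [MulAction G S] (p : S → X) (M : ∀ z : X, Path z z → Prop) :
    Set G :=
  {g | ∃ (s : S) (m : Path s (g • s)) (l : Path (p s) (p s)), M (p s) l ∧ ∀ t, p (m t) = l t}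

/-- The classes of the loops which run along a path, around a loop in `M` and back. -/
def classes (M : ∀ z : X, Path z z → Prop) (x : X) : Set (FundamentalGroup X x) :=
  {g | ∃ (z : X) (c : Path x z) (l : Path z z), M z l ∧
    g = Path.Homotopic.Quotient.mk ((c.trans l).trans c.symm)}

/-- The deck transformation of a loop as an element of `G` (inverted). -/
noncomputable def deck (hp : IsQuotientCoveringMap p G) (s₀ : S) :
    FundamentalGroup X (p s₀) →* G :=
  ((MulEquiv.inv' G).symm.toMonoidHom).comp
    (hp.fundamentalGroupToMulOpposite (⟨s₀, rfl⟩ : p ⁻¹' {p s₀}))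

theorem deck_eq (hp : IsQuotientCoveringMap p G) {s₀ s : S} (c : Path s₀ s) {g : G}
    (m : Path s (g • s)) (l : Path (p s) (p s)) (hm : ∀ t, p (m t) = l t) :
    deck hp s₀ (FundamentalGroup.fromPath (Path.Homotopic.Quotient.mk
      ((((c.map hp.continuous).trans l).trans (c.map hp.continuous).symm)))) = g⁻¹ := by
  have hg : ∀ s : S, p (g • s) = p s := fun s => hp.map_smul g
  have hc : Continuous fun s : S => g • s := hp.toContinuousConstSMul.continuous_const_smul g
  have key : hp.fundamentalGroupToMulOpposite (⟨s₀, rfl⟩ : p ⁻¹' {p s₀})
      (FundamentalGroup.fromPath (Path.Homotopic.Quotient.mk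
      ((((c.map hp.continuous).trans l).trans (c.map hp.continuous).symm)))) =
      MulOpposite.op g := by
    rw [IsQuotientCoveringMap.fundamentalGroupToMulOpposite_apply_eq_Iff]
    have h1 := hp.isCoveringMap.monodromy_eq_of_map_eq
      (γ := Path.Homotopic.Quotient.mk
        ((((c.map hp.continuous).trans l).trans (c.map hp.continuous).symm)))
      (ex := (⟨s₀, rfl⟩ : p ⁻¹' {p s₀})) (ey := (⟨g • s₀, hg s₀⟩ : p ⁻¹' {p s₀}))
      (Path.Homotopic.Quotient.mk ((c.trans m).trans (c.symm.map hc))) (by
        rw [← Path.Homotopic.Quotient.mk_map]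
        refine congrArg Path.Homotopic.Quotient.mk ?_
        apply Path.ext
        funext t
        change p (((c.trans m).trans (c.symm.map hc)) t) =
          (((c.map hp.continuous).trans l).trans (c.map hp.continuous).symm) t
        rw [Path.trans_apply, Path.trans_apply]
        split_ifs with h
        · rw [Path.trans_apply, Path.trans_apply]
          split_ifs with h'
          · rfl
          · exact hm _
        · exact hg _)
    exact (congrArg Subtype.val h1).symm
  unfold deck
  rw [MonoidHom.comp_apply, key]
  rfl

end cov

end Pool.Agent.MPa8252b
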