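import Mathlib
import Pool.Agent.Lib.MP_a8252b_ag.Cov

/-!
# The group of a covering modulo the loops in the kernel of a map
-/

namespace Pool.Agent.MPa8252b

open Topology unitInterval

section cov

variable {X S G : Type} [TopologicalSpace X] [TopologicalSpace S] [Group G] [MulAction G S]
  {p : S → X}

/-- Every class of a loop along a path, around a loop in `M` and back acts as an element of
`moved`. -/
theorem deck_classes (hp : IsQuotientCoveringMap p G) (s₀ : S) {M : ∀ z : X, Path z z → Prop}
    {x : FundamentalGroup X (p s₀)} (hx : x ∈ classes M (p s₀)) :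
    ∃ g ∈ moved G p M, deck hp s₀ x = g⁻¹ := by
  obtain ⟨z, c, l, hl, rfl⟩ := hx
  obtain ⟨s, c', hc'⟩ : ∃ (s : S) (c' : Path s₀ s), ∀ t, p (c' t) = c t :=
    ⟨_, ⟨hp.isCoveringMap.liftPath (c : C(I, X)) s₀ c.source,
      hp.isCoveringMap.liftPath_zero _ _ _, rfl⟩,
      fun t => congrFun (hp.isCoveringMap.liftPath_lifts (c : C(I, X)) s₀ c.source) t⟩
  have hz : p s = z := by
    have := hc' 1
    rwa [c'.target, c.target] at this
  subst hz
  have hc : c = c'.map hp.continuous := Path.ext (funext fun t => (hc' t).symm)
  obtain ⟨s', l', hl'⟩ : ∃ (s' : S) (l' : Path s s'), ∀ t, p (l' t) = l t :=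
    ⟨_, ⟨hp.isCoveringMap.liftPath (l : C(I, X)) s l.source,
      hp.isCoveringMap.liftPath_zero _ _ _, rfl⟩,
      fun t => congrFun (hp.isCoveringMap.liftPath_lifts (l : C(I, X)) s l.source) t⟩
  have hs' : p s' = p s := by
    have := hl' 1
    rwa [l'.target, l.target] at this
  obtain ⟨g, rfl⟩ := hp.apply_eq_iff_mem_orbit.1 hs'
  refine ⟨g, ⟨s, l', l, hl, hl'⟩, ?_⟩
  rw [hc]
  exact deck_eq hp c' l' l hl'

/-- Every element of `moved` is the deck transformation of such a class. -/
theorem exists_class [PathConnectedSpace S] (hp : IsQuotientCoveringMap p G) (s₀ : S)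
    {M : ∀ z : X, Path z z → Prop} {g : G} (hg : g ∈ moved G p M) :
    ∃ x ∈ classes M (p s₀), deck hp s₀ x = g⁻¹ := by
  obtain ⟨s, m, l, hl, hm⟩ := hg
  have c : Path s₀ s := PathConnectedSpace.somePath s₀ s
  exact ⟨_, ⟨p s, c.map hp.continuous, l, hl, rfl⟩, deck_eq hp c m l hm⟩

theorem deck_surjective [PathConnectedSpace S] (hp : IsQuotientCoveringMap p G) (s₀ : S) :
    Function.Surjective (deck hp s₀) :=
  (MulEquiv.inv' G).symm.surjective.comp (hp.fundamentalGroupToMulOpposite_surjective _)

theorem deck_injective [SimplyConnectedSpace S] (hp : IsQuotientCoveringMap p G) (s₀ : S) :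
    Function.Injective (deck hp s₀) :=
  (MulEquiv.inv' G).symm.injective.comp (hp.fundamentalGroupToMulOpposite_injective _)

/-- If the kernel of a surjective homomorphism from the fundamental group of the base to `Q` is
generated by the classes of the loops around loops in `M`, then `Q` maps onto the group of a
path connected covering modulo the elements of `moved`, isomorphically if the covering is simply
connected. -/
theorem cover_abs [PathConnectedSpace S] (hp : IsQuotientCoveringMap p G) (s₀ : S)
    (M : ∀ z : X, Path z z → Prop) {Q : Type} [Group Q] (q : FundamentalGroup X (p s₀) →* Q)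
    (hq : Function.Surjective q) (hk : q.ker = Subgroup.closure (classes M (p s₀))) :
    ∃ ψ : Q →* G ⧸ Subgroup.normalClosure (moved G p M), Function.Surjective ψ ∧
      (∀ (g : G) (m : Path s₀ (g • s₀)) (l : Path (p s₀) (p s₀)), (∀ t, p (m t) = l t) →
        ψ (q (FundamentalGroup.fromPath (Path.Homotopic.Quotient.mk l))) =
          ((g : G) : G ⧸ Subgroup.normalClosure (moved G p M))⁻¹) ∧
      (SimplyConnectedSpace S → Function.Injective ψ) := by
  let θ : FundamentalGroup X (p s₀) →* G ⧸ Subgroup.normalClosure (moved G p M) :=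
    (QuotientGroup.mk' (Subgroup.normalClosure (moved G p M))).comp (deck hp s₀)
  have hθ : q.ker ≤ θ.ker := by
    rw [hk, Subgroup.closure_le]
    intro x hx
    obtain ⟨g, hg, h⟩ := deck_classes hp s₀ hx
    refine MonoidHom.mem_ker.2 ?_
    change QuotientGroup.mk' _ (deck hp s₀ x) = 1
    rw [h, ← MonoidHom.mem_ker, QuotientGroup.ker_mk']
    exact Subgroup.inv_mem _ (Subgroup.subset_normalClosure hg)
  let ψ : Q →* G ⧸ Subgroup.normalClosure (moved G p M) := q.liftOfSurjective hq ⟨θ, hθ⟩
  have hψ : ∀ x, ψ (q x) = θ x := fun x =>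
    MonoidHom.liftOfRightInverse_comp_apply q (Function.surjInv hq)
      (Function.rightInverse_surjInv hq) ⟨θ, hθ⟩ x
  have hθs : Function.Surjective θ :=
    (QuotientGroup.mk'_surjective _).comp (deck_surjective hp s₀)
  refine ⟨ψ, ?_, ?_, ?_⟩
  · intro y
    obtain ⟨x, rfl⟩ := hθs y
    exact ⟨q x, hψ x⟩
  · intro g m l hm
    rw [hψ]
    have h1 := deck_eq hp (Path.refl s₀) m l hm
    have h2 : Path.Homotopic.Quotient.mk ((((Path.refl s₀).map hp.continuous).trans l).trans
        ((Path.refl s₀).map hp.continuous).symm) = Path.Homotopic.Quotient.mk l := by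
      have h3 : (Path.refl s₀).map hp.continuous = Path.refl (p s₀) := Path.ext rfl
      rw [h3, Path.refl_symm]
      simp only [Path.Homotopic.Quotient.mk_trans, Path.Homotopic.Quotient.mk_refl]
      rw [q_refl_trans, q_trans_refl]
    rw [h2] at h1
    change QuotientGroup.mk' _ (deck hp s₀ (FundamentalGroup.fromPath
      (Path.Homotopic.Quotient.mk l))) = _
    rw [h1, map_inv]
    rfl
  · intro hsc
    rw [injective_iff_map_eq_one]
    intro y hy
    obtain ⟨x, rfl⟩ := hq y
    rw [hψ] at hy
    have h1 : deck hp s₀ x ∈ Subgroup.normalClosure (moved G p M) := by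
      have h2 : QuotientGroup.mk' (Subgroup.normalClosure (moved G p M)) (deck hp s₀ x) = 1 := hy
      rwa [← MonoidHom.mem_ker, QuotientGroup.ker_mk'] at h2
    have hn : (q.ker.map (deck hp s₀)).Normal :=
      Subgroup.Normal.map (MonoidHom.normal_ker q) _ (deck_surjective hp s₀)
    have h3 : Subgroup.normalClosure (moved G p M) ≤ q.ker.map (deck hp s₀) := by
      refine Subgroup.normalClosure_le_normal ?_
      intro g hg
      obtain ⟨x', hx', h⟩ := exists_class hp s₀ hg
      have h4 : g⁻¹ ∈ q.ker.map (deck hp s₀) := by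
        rw [← h]
        refine Subgroup.mem_map_of_mem _ ?_
        rw [hk]
        exact Subgroup.subset_closure hx'
      have h5 := Subgroup.inv_mem _ h4
      rwa [inv_inv] at h5
    obtain ⟨x', hx', h6⟩ := Subgroup.mem_map.1 (h3 h1)
    have h7 : x' = x := deck_injective hp s₀ h6
    rw [← h7]
    exact MonoidHom.mem_ker.1 hx'

end cov

section pc

variable {X : Type} [TopologicalSpace X] {e : X}

theorem mem_pc {Y : Type} [TopologicalSpace Y] [PathConnectedSpace Y] {F : Y → X}
    (hF : Continuous F) {y₀ : Y} (h : F y₀ ∈ pathComponent e) (y : Y) :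
    F y ∈ pathComponent e := by
  have h1 := (isPathConnected_range hF).subset_pathComponent (x := F y₀) ⟨y₀, rfl⟩
  have h2 := h1 ⟨y, rfl⟩
  rwa [pathComponent_congr h] at h2

instance : PathConnectedSpace I :=
  isPathConnected_iff_pathConnectedSpace.1
    ((convex_Icc (0 : ℝ) 1).isPathConnected ⟨0, le_refl _, zero_le_one⟩)

/-- The inclusion of a path component. -/
def inc (e : X) : C(pathComponent e, X) := ⟨Subtype.val, continuous_subtype_val⟩

theorem inc_injective (x : pathComponent e) :
    Function.Injective (FundamentalGroup.map (inc e) x) := by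
  rw [injective_iff_map_eq_one]
  intro g hg
  obtain ⟨γ, rfl⟩ := Path.Homotopic.Quotient.mk_surjective (X := pathComponent e) g
  have h1 : (γ.map (inc e).continuous).Homotopic (Path.refl (inc e x)) :=
    Path.Homotopic.Quotient.eq.1 hg
  obtain ⟨H⟩ := h1
  have hmem : ∀ z : I × I, H z ∈ pathComponent e :=
    mem_pc H.continuous (y₀ := ((0, 0) : I × I)) (by
      rw [H.apply_zero]
      exact (γ 0).2)
  have h2 : γ.Homotopic (Path.refl x) := by
    refine ⟨{ toFun := fun z => ⟨H z, hmem z⟩
              continuous_toFun := Continuous.subtype_mk H.continuous _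
              map_zero_left := ?_
              map_one_left := ?_
              prop' := ?_ }⟩
    · intro t
      apply Subtype.ext
      exact H.apply_zero t
    · intro t
      apply Subtype.ext
      exact H.apply_one t
    · intro s t ht
      apply Subtype.ext
      exact H.prop' s t ht
  exact Path.Homotopic.Quotient.eq.2 h2

/-- A path in `X` which starts in a path component is a path in this component. -/
def pcPath {x y : pathComponent e} (γ : Path x.1 y.1) : Path x y where
  toFun t := ⟨γ t, mem_pc γ.continuous (y₀ := (0 : I)) (by rw [γ.source]; exact x.2) t⟩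
  continuous_toFun := Continuous.subtype_mk γ.continuous _
  source' := Subtype.ext γ.source
  target' := Subtype.ext γ.target

theorem inc_surjective (x : pathComponent e) :
    Function.Surjective (FundamentalGroup.map (inc e) x) := by
  intro g
  obtain ⟨γ, hγ⟩ := Path.Homotopic.Quotient.mk_surjective (X := X) g
  refine ⟨Path.Homotopic.Quotient.mk (pcPath (x := x) (y := x) γ), ?_⟩
  rw [← hγ]
  rfl

/-- The classes in a path component. -/
theorem inc_classes (M : ∀ z : X, Path z z → Prop) (x : pathComponent e) :
    (FundamentalGroup.map (inc e) x) ''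
      (classes (fun _ l => M _ (l.map (inc e).continuous)) x) = classes M x.1 := by
  ext g
  constructor
  · rintro ⟨_, ⟨z, c, l, hl, rfl⟩, rfl⟩
    refine ⟨z.1, c.map (inc e).continuous, l.map (inc e).continuous, hl, ?_⟩
    change Path.Homotopic.Quotient.mk (((c.trans l).trans c.symm).map (inc e).continuous) = _
    rw [Path.map_trans, Path.map_trans, ← Path.map_symm]
    rfl
  · rintro ⟨z, c, l, hl, rfl⟩
    have hz : z ∈ pathComponent e := by
      have h := mem_pc c.continuous (y₀ := (0 : I)) (by rw [c.source]; exact x.2) 1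
      rwa [c.target] at h
    let z' : pathComponent e := ⟨z, hz⟩
    refine ⟨_, ⟨z', pcPath (x := x) (y := z') c, pcPath (x := z') (y := z') l, ?_, rfl⟩, ?_⟩
    · have h1 : (pcPath (x := z') (y := z') l).map (inc e).continuous = l := Path.ext rfl
      change M z ((pcPath (x := z') (y := z') l).map (inc e).continuous)
      rw [h1]
      exact hl
    · change Path.Homotopic.Quotient.mk ((((pcPath (x := x) (y := z') c).trans
        (pcPath (x := z') (y := z') l)).trans
        (pcPath (x := x) (y := z') c).symm).map (inc e).continuous) = _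
      rw [Path.map_trans, Path.map_trans, ← Path.map_symm]
      rfl

end pc

end Pool.Agent.MPa8252b
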