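import Pool.Agent.Lib.MP_a8252b_ag.Mer2
import Pool.Agent.Lib.MP_a8252b_ag.Cov2

/-!
# The group of a covering of a path component modulo meridians
-/

namespace Pool.Agent.MPa8252b

open Topology unitInterval

variable {n : ℕ}

/-- The elements of `G` which move some point of `S` along a lift of a meridian. -/
def merEl (A : Matrix (Fin n) (Fin n) ℤ) (N' : AddSubgroup (Fin n → ℤ)) {e : Sp A ⊤}
    {S : Type} [TopologicalSpace S] (G : Type) [Group G] [MulAction G S]
    (p : S → pathComponent e) : Set G :=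
  {g | ∃ (s : S) (m : Path s (g • s)) (δ : Fin n → ℤ) (q : Pr n) (c : ℂ),
    MDisc A N' δ q ‖c‖ ∧ c ≠ 0 ∧ ∀ t : I,
    (p (m t)).1.1 = disc q δ (c * Complex.exp (((2 * Real.pi * (t : ℝ) : ℝ) : ℂ) * Complex.I))}

variable {A : Matrix (Fin n) (Fin n) ℤ} {N' : AddSubgroup (Fin n → ℤ)}

/-- Meridians in a path component. -/
def MC (N' : AddSubgroup (Fin n → ℤ)) (e : Sp A ⊤) (z : pathComponent e) (l : Path z z) : Prop :=
  Meridian A N' (l.map (inc e).continuous)

theorem moved_eq {e : Sp A ⊤} {S G : Type} [TopologicalSpace S] [Group G] [MulAction G S]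
    {p : S → pathComponent e} (hp : IsQuotientCoveringMap p G) :
    moved G p (MC N' e) = merEl A N' G p := by
  ext g
  constructor
  · rintro ⟨s', m, l, ⟨δ, v, c, h1, h2, h3⟩, hm⟩
    refine ⟨s', m, δ, v, c, h1, h2, fun t => ?_⟩
    rw [← h3 t]
    change (p (m t)).1.1 = (l t).1.1
    rw [hm t]
  · rintro ⟨s', m, δ, v, c, h1, h2, h3⟩
    have hg : p (g • s') = p s' := hp.map_smul g
    exact ⟨s', m, (m.map hp.continuous).cast rfl hg.symm, ⟨δ, v, c, h1, h2, fun t => h3 t⟩,
      fun t => rfl⟩

variable (hA : A.IsSymm) (hs : Sig2 A) (hN : HasPos A N')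
  {π : (Fin n → ℝ) →ₗ[ℝ] (Fin n → ℝ)} (hπ : IsProj A N' π)

include hA hs hN hπ

theorem aut_core {e : Sp A ⊤} {S G : Type} [TopologicalSpace S] [PathConnectedSpace S] [Group G]
    [MulAction G S] {p : S → pathComponent e} (hp : IsQuotientCoveringMap p G) (s : S) :
    ∃ ψ : FundamentalGroup (Sp A N') (F hA hs hN hπ (p s).1) →*
      G ⧸ Subgroup.normalClosure (merEl A N' G p),
      Function.Surjective ψ ∧
      (∀ (g : G) (m : Path s (g • s)) (l : Path (F hA hs hN hπ (p s).1) (F hA hs hN hπ (p s).1)),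
        (∀ t, l t = F hA hs hN hπ (p (m t)).1) →
        ψ (FundamentalGroup.fromPath (Path.Homotopic.Quotient.mk l)) =
          ((g : G) : G ⧸ Subgroup.normalClosure (merEl A N' G p))⁻¹) ∧
      (SimplyConnectedSpace S → Function.Injective ψ) := by
  let q : FundamentalGroup (pathComponent e) (p s) →*
      FundamentalGroup (Sp A N') (F hA hs hN hπ (p s).1) :=
    (FundamentalGroup.map (F hA hs hN hπ) (p s).1).comp (FundamentalGroup.map (inc e) (p s))
  have hsurj : Function.Surjective (FundamentalGroup.map (F hA hs hN hπ) (p s).1) := by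
    intro x
    obtain ⟨γ, hγ⟩ := Path.Homotopic.Quotient.mk_surjective (X := Sp A N') x
    obtain ⟨γ', h⟩ := loop_surj hA hs hN hπ (p s).1 γ
    refine ⟨Path.Homotopic.Quotient.mk γ', ?_⟩
    rw [← hγ]
    exact Path.Homotopic.Quotient.eq.2 h
  have hq : Function.Surjective q := hsurj.comp (inc_surjective (p s))
  have hcl : classes (fun _ l => Meridian A N' l) (p s).1 = mers A N' (p s).1 := rfl
  have hk : q.ker = Subgroup.closure (classes (MC N' e) (p s)) := by
    ext g
    rw [MonoidHom.mem_ker]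
    change FundamentalGroup.map (F hA hs hN hπ) (p s).1
      (FundamentalGroup.map (inc e) (p s) g) = 1 ↔ _
    rw [← MonoidHom.mem_ker, ker_eq_mers hA hs hN hπ, ← hcl, ← inc_classes _ (p s)]
    have h1 : Subgroup.closure ((FundamentalGroup.map (inc e) (p s)) '' (classes (MC N' e) (p s))) =
        (Subgroup.closure (classes (MC N' e) (p s))).map (FundamentalGroup.map (inc e) (p s)) :=
      (MonoidHom.map_closure _ _).symm
    change FundamentalGroup.map (inc e) (p s) g ∈
      Subgroup.closure ((FundamentalGroup.map (inc e) (p s)) '' (classes (MC N' e) (p s))) ↔ _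
    rw [h1]
    exact Subgroup.mem_map_iff_mem (inc_injective (p s))
  have h := cover_abs hp s (MC N' e) q hq hk
  rw [moved_eq hp] at h
  obtain ⟨ψ, h1, h2, h3⟩ := h
  refine ⟨ψ, h1, ?_, h3⟩
  intro g m l hl
  have hg : p (g • s) = p s := hp.map_smul g
  have h4 := h2 g m ((m.map hp.continuous).cast rfl hg.symm) fun t => rfl
  have h5 : l = (((m.map hp.continuous).cast rfl hg.symm).map (inc e).continuous).map
      (F hA hs hN hπ).continuous := Path.ext (funext hl)
  rw [h5]
  exact h4

end Pool.Agent.MPa8252b
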