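import Mathlib

/-!
# Positive planes off the mirrors of a lattice: definitions
-/

namespace Pool.Agent.MPa8252b

open Matrix

variable {n : ℕ}

/-- The real bilinear form with the Gram matrix `A`. -/
noncomputable def bf (A : Matrix (Fin n) (Fin n) ℤ) :
    (Fin n → ℝ) →ₗ[ℝ] (Fin n → ℝ) →ₗ[ℝ] ℝ :=
  Matrix.toBilin' (A.map (Int.cast : ℤ → ℝ))

/-- An integral vector as a real vector. -/
def rl (δ : Fin n → ℤ) : Fin n → ℝ := fun i => (δ i : ℝ)

/-- The plane spanned by `x` and `y` is positive definite. -/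
def Pos (A : Matrix (Fin n) (Fin n) ℤ) (x y : Fin n → ℝ) : Prop :=
  ∀ a b : ℝ, a ≠ 0 ∨ b ≠ 0 → 0 < bf A (a • x + b • y) (a • x + b • y)

/-- The form has signature `(2, n - 2)`. -/
def Sig2 (A : Matrix (Fin n) (Fin n) ℤ) : Prop :=
  (∃ x y, Pos A x y) ∧
    ∃ H : Submodule ℝ (Fin n → ℝ), Module.finrank ℝ H + 2 = n ∧ ∀ v ∈ H, v ≠ 0 → bf A v v < 0

/-- `δ` has square `-2`. -/
def Root (A : Matrix (Fin n) (Fin n) ℤ) (δ : Fin n → ℤ) : Prop := bf A (rl δ) (rl δ) = -2

/-- The real span of a group of integral vectors. -/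
def rspan (N' : AddSubgroup (Fin n → ℤ)) : Submodule ℝ (Fin n → ℝ) :=
  Submodule.span ℝ (rl '' (N' : Set (Fin n → ℤ)))

/-- Pairs `(x, y)` of real vectors, which stand for `Ω = x + iy`. -/
abbrev Pr (n : ℕ) : Type := (Fin n → ℝ) × (Fin n → ℝ)

/-- `p` is orthogonal to `δ`. -/
def Mir (A : Matrix (Fin n) (Fin n) ℤ) (δ : Fin n → ℤ) (p : Pr n) : Prop :=
  bf A p.1 (rl δ) = 0 ∧ bf A p.2 (rl δ) = 0

/-- The pairs which span a positive plane and are orthogonal to no root of `N'`. -/
def Good (A : Matrix (Fin n) (Fin n) ℤ) (N' : AddSubgroup (Fin n → ℤ)) : Set (Pr n) :=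
  {p | Pos A p.1 p.2 ∧ ∀ δ ∈ N', Root A δ → ¬ Mir A δ p}

/-- The pairs in the real span of `N'` which span a positive plane and are orthogonal to no root
of `N'`. -/
def P0 (A : Matrix (Fin n) (Fin n) ℤ) (N' : AddSubgroup (Fin n → ℤ)) : Set (Pr n) :=
  {p | p.1 ∈ rspan N' ∧ p.2 ∈ rspan N' ∧ p ∈ Good A N'}

/-- `P0 A N'` as a topological space. -/
abbrev Sp (A : Matrix (Fin n) (Fin n) ℤ) (N' : AddSubgroup (Fin n → ℤ)) : Type := P0 A N'

/-- `N'` contains a positive plane. -/
def HasPos (A : Matrix (Fin n) (Fin n) ℤ) (N' : AddSubgroup (Fin n → ℤ)) : Prop :=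
  ∃ x ∈ rspan N', ∃ y ∈ rspan N', Pos A x y

/-- `f` is the orthogonal projection to the real span of `N'`. -/
def IsProjMap {A : Matrix (Fin n) (Fin n) ℤ} {N' : AddSubgroup (Fin n → ℤ)}
    (f : C(Sp A ⊤, Sp A N')) : Prop :=
  ∀ p, ∀ w ∈ rspan N', bf A (p.1.1 - (f p).1.1) w = 0 ∧ bf A (p.1.2 - (f p).1.2) w = 0

/-- The projection to the real span of `N'` of every root outside `N'` is nonzero and has
nonnegative square. -/
def FarRoots (A : Matrix (Fin n) (Fin n) ℤ) (N' : AddSubgroup (Fin n → ℤ)) : Prop :=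
  ∀ δ, Root A δ → δ ∉ N' → ∃ d ∈ rspan N', (∀ w ∈ rspan N', bf A (rl δ - d) w = 0) ∧ d ≠ 0 ∧
    0 ≤ bf A d d

/-- `U` consists of positive pairs, meets no mirror of `N'` and meets at most one mirror. -/
def Nice (A : Matrix (Fin n) (Fin n) ℤ) (N' : AddSubgroup (Fin n → ℤ)) (U : Set (Pr n)) : Prop :=
  U ⊆ Good A N' ∧ ∃ δ : Fin n → ℤ, ∀ δ', Root A δ' → δ' ≠ δ → δ' ≠ -δ → ∀ p ∈ U, ¬ Mir A δ' p

/-- The loop `l` lies in a ball of positive pairs that meets no mirror of `N'` and at most one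
mirror of the other roots. -/
def SmallLoop (A : Matrix (Fin n) (Fin n) ℤ) (N' : AddSubgroup (Fin n → ℤ)) {z : Sp A ⊤}
    (l : Path z z) : Prop :=
  ∃ (w : Pr n) (r : ℝ), Nice A N' (Metric.ball w r) ∧ ∀ t, (l t).1 ∈ Metric.ball w r

/-- The classes of the loops which run along a path, around a small loop and back. -/
def smallLoops (A : Matrix (Fin n) (Fin n) ℤ) (N' : AddSubgroup (Fin n → ℤ)) (e : Sp A ⊤) :
    Set (FundamentalGroup (Sp A ⊤) e) :=
  {g | ∃ (z : Sp A ⊤) (c : Path e z) (l : Path z z), SmallLoop A N' l ∧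
    g = Path.Homotopic.Quotient.mk ((c.trans l).trans c.symm)}

theorem P0_subset_Good (A : Matrix (Fin n) (Fin n) ℤ) (N' : AddSubgroup (Fin n → ℤ)) :
    P0 A N' ⊆ Good A N' := fun _ hp => hp.2.2

theorem bf_symm {A : Matrix (Fin n) (Fin n) ℤ} (hA : A.IsSymm) (x y : Fin n → ℝ) :
    bf A x y = bf A y x := by
  unfold bf
  rw [Matrix.toBilin'_apply', Matrix.toBilin'_apply', Matrix.dotProduct_mulVec,
    ← Matrix.mulVec_transpose, dotProduct_comm]
  congr 2
  ext i j
  rw [Matrix.transpose_apply, Matrix.map_apply, Matrix.map_apply]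
  have h := congrFun (congrFun hA i) j
  rw [Matrix.transpose_apply] at h
  rw [h]

theorem bf_comb (A : Matrix (Fin n) (Fin n) ℤ) (hA : A.IsSymm) (a b : ℝ) (x y : Fin n → ℝ) :
    bf A (a • x + b • y) (a • x + b • y) =
      a ^ 2 * bf A x x + 2 * (a * b) * bf A x y + b ^ 2 * bf A y y := by
  simp only [map_add, map_smul, LinearMap.add_apply, LinearMap.smul_apply, smul_eq_mul]
  rw [bf_symm hA y x]
  ring

theorem pos_iff {A : Matrix (Fin n) (Fin n) ℤ} (hA : A.IsSymm) (x y : Fin n → ℝ) :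
    Pos A x y ↔ 0 < bf A x x ∧ 0 < bf A x x * bf A y y - bf A x y ^ 2 := by
  constructor
  · intro h
    have h1 := h 1 0 (Or.inl one_ne_zero)
    rw [bf_comb A hA] at h1
    have h1' : 0 < bf A x x := by linarith
    refine ⟨h1', ?_⟩
    have h2 := h (-bf A x y) (bf A x x) (Or.inr h1'.ne')
    rw [bf_comb A hA] at h2
    have h3 : (-bf A x y) ^ 2 * bf A x x + 2 * (-bf A x y * bf A x x) * bf A x y
        + bf A x x ^ 2 * bf A y y = bf A x x * (bf A x x * bf A y y - bf A x y ^ 2) := by ring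
    rw [h3] at h2
    exact (mul_pos_iff_of_pos_left h1').1 h2
  · rintro ⟨h1, h2⟩ a b hab
    rw [bf_comb A hA]
    have h3 : bf A x x * (a ^ 2 * bf A x x + 2 * (a * b) * bf A x y + b ^ 2 * bf A y y) =
        (a * bf A x x + b * bf A x y) ^ 2 + b ^ 2 * (bf A x x * bf A y y - bf A x y ^ 2) := by
      ring
    have h4 : 0 < (a * bf A x x + b * bf A x y) ^ 2
        + b ^ 2 * (bf A x x * bf A y y - bf A x y ^ 2) := by
      by_cases hb : b = 0
      · subst hb
        have ha : a ≠ 0 := by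
          rcases hab with h | h
          · exact h
          · exact absurd rfl h
        have h7 : a * bf A x x ≠ 0 := mul_ne_zero ha h1.ne'
        have h8 : 0 < (a * bf A x x) ^ 2 := by positivity
        rw [zero_mul, add_zero]
        linarith
      · have : 0 < b ^ 2 := by positivity
        have h5 := mul_pos this h2
        have h6 := sq_nonneg (a * bf A x x + b * bf A x y)
        linarith
    rw [← h3] at h4
    exact (mul_pos_iff_of_pos_left h1).1 h4

/-- A nonzero vector orthogonal to a positive plane has negative square. -/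
theorem neg_of_orth {A : Matrix (Fin n) (Fin n) ℤ} (hA : A.IsSymm) (hs : Sig2 A)
    {x y v : Fin n → ℝ} (hxy : Pos A x y) (hx : bf A x v = 0) (hy : bf A y v = 0) (hv : v ≠ 0) :
    bf A v v < 0 := by
  obtain ⟨-, H, hH, hneg⟩ := hs
  by_contra hcon
  push Not at hcon
  -- the map `ℝ³ → V`
  let f : (Fin 3 → ℝ) →ₗ[ℝ] (Fin n → ℝ) :=
    Fintype.linearCombination ℝ ![x, y, v]
  have hf : ∀ c, f c = c 0 • x + c 1 • y + c 2 • v := by
    intro c
    simp [f, Fintype.linearCombination_apply, Fin.sum_univ_three]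
  have hval : ∀ c, bf A (f c) (f c) =
      bf A (c 0 • x + c 1 • y) (c 0 • x + c 1 • y) + c 2 ^ 2 * bf A v v := by
    intro c
    rw [hf]
    have h1 : bf A v x = 0 := by rw [bf_symm hA]; exact hx
    have h2 : bf A v y = 0 := by rw [bf_symm hA]; exact hy
    simp only [map_add, map_smul, LinearMap.add_apply, LinearMap.smul_apply, smul_eq_mul, h1, h2,
      hx, hy]
    ring
  have hinj : Function.Injective f := by
    rw [injective_iff_map_eq_zero]
    intro c hc
    have h1 := hval c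
    rw [hc, map_zero] at h1
    have h2 : c 0 = 0 ∧ c 1 = 0 := by
      by_contra hne
      have h3 : c 0 ≠ 0 ∨ c 1 ≠ 0 := by
        by_contra h4
        push Not at h4
        exact hne h4
      have h4 := hxy (c 0) (c 1) h3
      have h5 : 0 ≤ c 2 ^ 2 * bf A v v := by positivity
      linarith
    have h3 : c 2 = 0 := by
      rw [hf, h2.1, h2.2, zero_smul, zero_smul, zero_add, zero_add] at hc
      rcases smul_eq_zero.1 hc with h | h
      · exact h
      · exact absurd h hv
    ext i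
    fin_cases i
    · exact h2.1
    · exact h2.2
    · exact h3
  -- the range meets `H`
  have hr : Module.finrank ℝ (LinearMap.range f) = 3 := by
    rw [LinearMap.finrank_range_of_inj hinj]
    simp
  have hsum := Submodule.finrank_sup_add_finrank_inf_eq (LinearMap.range f) H
  have hle : Module.finrank ℝ ↥(LinearMap.range f ⊔ H) ≤ n := by
    have := Submodule.finrank_le (LinearMap.range f ⊔ H)
    simpa using this
  have hpos : 0 < Module.finrank ℝ ↥(LinearMap.range f ⊓ H) := by omega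
  have hne : LinearMap.range f ⊓ H ≠ ⊥ := by
    intro h
    rw [h] at hpos
    simp at hpos
  obtain ⟨w, hw, hw0⟩ := Submodule.exists_mem_ne_zero_of_ne_bot hne
  obtain ⟨⟨c, rfl⟩, hwH⟩ := hw
  have h1 := hneg _ hwH hw0
  rw [hval] at h1
  have h5 : 0 ≤ c 2 ^ 2 * bf A v v := by positivity
  have h6 : 0 ≤ bf A (c 0 • x + c 1 • y) (c 0 • x + c 1 • y) := by
    by_cases h7 : c 0 ≠ 0 ∨ c 1 ≠ 0
    · exact (hxy _ _ h7).le
    · push Not at h7
      rw [h7.1, h7.2, zero_smul, zero_smul, add_zero, map_zero]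
  linarith

end Pool.Agent.MPa8252b
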