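import Pool.Agent.Lib.MP_a8252b_ag.Per

/-!
# Discs orthogonal to a mirror, and meridians
-/

namespace Pool.Agent.MPa8252b

open Matrix Filter Topology unitInterval

variable {n : ℕ}

/-- The pair `p + c δ`. -/
def disc (p : Pr n) (δ : Fin n → ℤ) (c : ℂ) : Pr n := (p.1 + c.re • rl δ, p.2 + c.im • rl δ)

/-- The disc of the pairs `p + w δ`, `|w| ≤ r`, consists of positive pairs, has its centre on the
mirror of the root `δ ∉ N'`, and meets no mirror of another root. -/
def MDisc (A : Matrix (Fin n) (Fin n) ℤ) (N' : AddSubgroup (Fin n → ℤ)) (δ : Fin n → ℤ)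
    (p : Pr n) (r : ℝ) : Prop :=
  Root A δ ∧ δ ∉ N' ∧ Mir A δ p ∧ ∀ w : ℂ, ‖w‖ ≤ r →
    Pos A (disc p δ w).1 (disc p δ w).2 ∧
      ∀ δ', Root A δ' → δ' ≠ δ → δ' ≠ -δ → ¬ Mir A δ' (disc p δ w)

/-- `l` is a loop `p + c e^{2πit} δ` around the mirror of a root `δ ∉ N'`. -/
def Meridian (A : Matrix (Fin n) (Fin n) ℤ) (N' : AddSubgroup (Fin n → ℤ)) {z : Sp A ⊤}
    (l : Path z z) : Prop :=
  ∃ (δ : Fin n → ℤ) (p : Pr n) (c : ℂ), MDisc A N' δ p ‖c‖ ∧ c ≠ 0 ∧
    ∀ t : I, (l t).1 = disc p δ (c * Complex.exp (((2 * Real.pi * (t : ℝ) : ℝ) : ℂ) * Complex.I))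

/-- The classes of the loops which run along a path, around a meridian and back. -/
def mers (A : Matrix (Fin n) (Fin n) ℤ) (N' : AddSubgroup (Fin n → ℤ)) (e : Sp A ⊤) :
    Set (FundamentalGroup (Sp A ⊤) e) :=
  {g | ∃ (z : Sp A ⊤) (c : Path e z) (l : Path z z), Meridian A N' l ∧
    g = Path.Homotopic.Quotient.mk ((c.trans l).trans c.symm)}

variable {A : Matrix (Fin n) (Fin n) ℤ} {N' : AddSubgroup (Fin n → ℤ)}

theorem conj_mers {x y : Sp A ⊤} (P : Path.Homotopic.Quotient x y)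
    {g : FundamentalGroup (Sp A ⊤) y} (hg : g ∈ Subgroup.closure (mers A N' y)) :
    conj P g ∈ Subgroup.closure (mers A N' x) := by
  have h1 : Subgroup.closure (mers A N' y) ≤
      (Subgroup.closure (mers A N' x)).comap (conj P) := by
    rw [Subgroup.closure_le]
    rintro _ ⟨z, c, l, hl, rfl⟩
    refine Subgroup.subset_closure ?_
    rcases P with ⟨p⟩
    refine ⟨z, p.trans c, l, hl, ?_⟩
    change ((Path.Homotopic.Quotient.mk p).trans (Path.Homotopic.Quotient.mk
      ((c.trans l).trans c.symm))).trans (Path.Homotopic.Quotient.mk p).symm =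
      Path.Homotopic.Quotient.mk (((p.trans c).trans l).trans (p.trans c).symm)
    simp only [Path.Homotopic.Quotient.mk_trans, Path.Homotopic.Quotient.mk_symm, q_assoc,
      q_symm_rev]
  exact h1 hg

theorem mer_mem {z : Sp A ⊤} (l : Path z z) (hl : Meridian A N' l) :
    (FundamentalGroup.fromPath (Path.Homotopic.Quotient.mk l) : FundamentalGroup (Sp A ⊤) z) ∈
      Subgroup.closure (mers A N' z) := by
  refine Subgroup.subset_closure ⟨z, Path.refl z, l, hl, ?_⟩
  change Path.Homotopic.Quotient.mk l = Path.Homotopic.Quotient.mk (((Path.refl z).trans l).trans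
    (Path.refl z).symm)
  rw [Path.refl_symm]
  simp only [Path.Homotopic.Quotient.mk_trans, Path.Homotopic.Quotient.mk_refl]
  rw [q_refl_trans, q_trans_refl]

/-- The values of `p` on `δ`. -/
noncomputable def phi (A : Matrix (Fin n) (Fin n) ℤ) (δ : Fin n → ℤ) (p : Pr n) : ℂ :=
  ⟨bf A p.1 (rl δ), bf A p.2 (rl δ)⟩

theorem phi_eq_zero {δ : Fin n → ℤ} {p : Pr n} : phi A δ p = 0 ↔ Mir A δ p := by
  unfold phi Mir
  rw [Complex.ext_iff]
  rfl

theorem mir_neg {δ : Fin n → ℤ} {p : Pr n} : Mir A (-δ) p ↔ Mir A δ p := by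
  unfold Mir
  rw [rl_neg, map_neg, map_neg, neg_eq_zero, neg_eq_zero]

theorem root_neg {δ : Fin n → ℤ} : Root A (-δ) ↔ Root A δ := by
  unfold Root
  rw [rl_neg, map_neg, map_neg, LinearMap.neg_apply, neg_neg]

theorem phi_disc {δ : Fin n → ℤ} (hδ : Root A δ) (p : Pr n) (c : ℂ) :
    phi A δ (disc p δ c) = phi A δ p - 2 * c := by
  unfold Root at hδ
  refine Complex.ext ?_ ?_
  · change bf A (p.1 + c.re • rl δ) (rl δ) = (phi A δ p - 2 * c).re
    rw [map_add, map_smul, LinearMap.add_apply, LinearMap.smul_apply, hδ, smul_eq_mul,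
      Complex.sub_re, Complex.mul_re]
    change _ = bf A p.1 (rl δ) - ((2 : ℂ).re * c.re - (2 : ℂ).im * c.im)
    rw [Complex.re_ofNat, Complex.im_ofNat]
    ring
  · change bf A (p.2 + c.im • rl δ) (rl δ) = (phi A δ p - 2 * c).im
    rw [map_add, map_smul, LinearMap.add_apply, LinearMap.smul_apply, hδ, smul_eq_mul,
      Complex.sub_im, Complex.mul_im]
    change _ = bf A p.2 (rl δ) - ((2 : ℂ).re * c.im + (2 : ℂ).im * c.re)
    rw [Complex.re_ofNat, Complex.im_ofNat]
    ring

theorem phi_mix (δ : Fin n → ℤ) (p q : Pr n) (a b : ℝ) :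
    phi A δ (a • p + b • q) = a * phi A δ p + b * phi A δ q := by
  refine Complex.ext ?_ ?_
  · change bf A (a • p.1 + b • q.1) (rl δ) = (a * phi A δ p + b * phi A δ q).re
    rw [map_add, map_smul, map_smul, LinearMap.add_apply, LinearMap.smul_apply,
      LinearMap.smul_apply, smul_eq_mul, smul_eq_mul, Complex.add_re, Complex.re_ofReal_mul,
      Complex.re_ofReal_mul]
    rfl
  · change bf A (a • p.2 + b • q.2) (rl δ) = (a * phi A δ p + b * phi A δ q).im
    rw [map_add, map_smul, map_smul, LinearMap.add_apply, LinearMap.smul_apply,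
      LinearMap.smul_apply, smul_eq_mul, smul_eq_mul, Complex.add_im, Complex.im_ofReal_mul,
      Complex.im_ofReal_mul]
    rfl

theorem continuous_phi (δ : Fin n → ℤ) : Continuous (phi A δ) := by
  have h1 : Continuous fun p : Pr n => bf A p.1 (rl δ) :=
    ((bf A).flip (rl δ)).continuous_of_finiteDimensional.comp continuous_fst
  have h2 : Continuous fun p : Pr n => bf A p.2 (rl δ) :=
    ((bf A).flip (rl δ)).continuous_of_finiteDimensional.comp continuous_snd
  have h3 : phi A δ = fun p => ((bf A p.1 (rl δ) : ℝ) : ℂ) + ((bf A p.2 (rl δ) : ℝ) : ℂ) *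
      Complex.I := by
    funext p
    exact (Complex.re_add_im (phi A δ p)).symm
  rw [h3]
  exact (Complex.continuous_ofReal.comp h1).add
    ((Complex.continuous_ofReal.comp h2).mul continuous_const)

theorem continuous_disc (p : Pr n) (δ : Fin n → ℤ) : Continuous (disc p δ) := by
  unfold disc
  have h1 : Continuous fun c : ℂ => c.re := Complex.continuous_re
  have h2 : Continuous fun c : ℂ => c.im := Complex.continuous_im
  fun_prop

theorem disc_zero (p : Pr n) (δ : Fin n → ℤ) : disc p δ 0 = p := by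
  unfold disc
  rw [Complex.zero_re, Complex.zero_im, zero_smul, add_zero, add_zero]

theorem disc_mix (p : Pr n) (δ : Fin n → ℤ) (a b : ℝ) (hab : a + b = 1) (c d : ℂ) :
    a • disc p δ c + b • disc p δ d = disc p δ (a * c + b * d) := by
  unfold disc
  have e1 : p.1 = (a + b) • p.1 := by rw [hab, one_smul]
  have e2 : p.2 = (a + b) • p.2 := by rw [hab, one_smul]
  refine Prod.ext ?_ ?_
  · change a • (p.1 + c.re • rl δ) + b • (p.1 + d.re • rl δ) =
      p.1 + (a * c + b * d).re • rl δ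
    rw [Complex.add_re, Complex.re_ofReal_mul, Complex.re_ofReal_mul]
    nth_rewrite 3 [e1]
    module
  · change a • (p.2 + c.im • rl δ) + b • (p.2 + d.im • rl δ) =
      p.2 + (a * c + b * d).im • rl δ
    rw [Complex.add_im, Complex.im_ofReal_mul, Complex.im_ofReal_mul]
    nth_rewrite 3 [e2]
    module

/-- Points of a meridian disc other than the centre are in `P0 A ⊤`. -/
theorem disc_mem {δ : Fin n → ℤ} {p : Pr n} {r : ℝ} (h : MDisc A N' δ p r) {c : ℂ}
    (hc : ‖c‖ ≤ r) (h0 : c ≠ 0) : disc p δ c ∈ P0 A ⊤ := by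
  obtain ⟨hδ, -, hp, hall⟩ := h
  have hφ : ¬ Mir A δ (disc p δ c) := by
    rw [← phi_eq_zero, phi_disc hδ, phi_eq_zero.2 hp, zero_sub, neg_eq_zero]
    exact mul_ne_zero two_ne_zero h0
  refine ⟨?_, ?_, (hall c hc).1, ?_⟩
  · rw [rspan_top]
    trivial
  · rw [rspan_top]
    trivial
  · intro δ' _ hδ' hm
    by_cases h1 : δ' = δ
    · subst h1
      exact hφ hm
    by_cases h2 : δ' = -δ
    · subst h2
      exact hφ (mir_neg.1 hm)
    exact (hall c hc).2 δ' hδ' h1 h2 hm

/-- A meridian disc is in `Good A N'`. -/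
theorem disc_good {δ : Fin n → ℤ} {p : Pr n} {r : ℝ} (h : MDisc A N' δ p r) {c : ℂ}
    (hc : ‖c‖ ≤ r) : disc p δ c ∈ Good A N' := by
  obtain ⟨-, hN, -, hall⟩ := h
  refine ⟨(hall c hc).1, ?_⟩
  intro δ' hN' hδ' hm
  refine (hall c hc).2 δ' hδ' ?_ ?_ hm
  · rintro rfl
    exact hN hN'
  · rintro rfl
    exact hN (by
      have := N'.neg_mem hN'
      rwa [neg_neg] at this)

end Pool.Agent.MPa8252b
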