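import Pool.Agent.Lib.MP_a8252b_ag.Open

/-!
# Pushing a path off the mirrors
-/

namespace Pool.Agent.MPa8252b

open Matrix Filter Topology MeasureTheory

variable {n : ℕ}

/-- A vector orthogonal to no root. -/
theorem exists_generic (A : Matrix (Fin n) (Fin n) ℤ) :
    ∃ u : Fin n → ℝ, ∀ δ, Root A δ → bf A u (rl δ) ≠ 0 := by
  by_contra hcon
  push Not at hcon
  let K : {δ : Fin n → ℤ // Root A δ} → Submodule ℝ (Fin n → ℝ) := fun δ =>
    LinearMap.ker ((bf A).flip (rl δ.1))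
  have hnull : ∀ δ, (volume : Measure (Fin n → ℝ)) (K δ : Set (Fin n → ℝ)) = 0 := by
    intro δ
    refine Measure.addHaar_submodule _ _ ?_
    intro h
    have h1 : rl δ.1 ∈ K δ := by
      rw [h]
      trivial
    have h2 : bf A (rl δ.1) (rl δ.1) = 0 := h1
    have h3 := δ.2
    unfold Root at h3
    rw [h3] at h2
    norm_num at h2
  have hU : (volume : Measure (Fin n → ℝ)) (⋃ δ, (K δ : Set (Fin n → ℝ))) = 0 :=
    measure_iUnion_null hnull
  have huniv : (⋃ δ, (K δ : Set (Fin n → ℝ))) = Set.univ := by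
    rw [Set.eq_univ_iff_forall]
    intro u
    obtain ⟨δ, hδ, h⟩ := hcon u
    exact Set.mem_iUnion.2 ⟨⟨δ, hδ⟩, h⟩
  rw [huniv] at hU
  exact (isOpen_univ.measure_pos (volume : Measure (Fin n → ℝ)) Set.univ_nonempty).ne' hU

/-- A differentiable curve in the plane is a null set. -/
theorem curve_null (c : ℝ → ℝ × ℝ) (hc : DifferentiableOn ℝ c (Set.Ioo 0 1)) :
    (volume : Measure (ℝ × ℝ)) (c '' Set.Ioo 0 1) = 0 := by
  have h1 : c '' Set.Ioo 0 1 = (fun z : ℝ × ℝ => c z.1) '' (Set.Ioo 0 1 ×ˢ {0}) := by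
    ext z
    constructor
    · rintro ⟨t, ht, rfl⟩
      exact ⟨(t, 0), ⟨ht, rfl⟩, rfl⟩
    · rintro ⟨⟨t, s⟩, ⟨ht, -⟩, rfl⟩
      exact ⟨t, ht, rfl⟩
  rw [h1]
  refine addHaar_image_eq_zero_of_differentiableOn_of_addHaar_eq_zero volume ?_ ?_
  · exact hc.comp differentiableOn_fst fun z hz => hz.1
  · rw [Measure.volume_eq_prod, Measure.prod_prod, Real.volume_singleton, mul_zero]

/-- Approximation of a real function by a differentiable one with the same ends. -/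
theorem approx_real (f : ℝ → ℝ) (hf : ContinuousOn f (Set.Icc 0 1)) {ε : ℝ} (hε : 0 < ε) :
    ∃ g : ℝ → ℝ, Differentiable ℝ g ∧ g 0 = f 0 ∧ g 1 = f 1 ∧
      ∀ t ∈ Set.Icc (0 : ℝ) 1, |g t - f t| < ε := by
  obtain ⟨p, hp⟩ := exists_polynomial_near_of_continuousOn 0 1 f hf (ε / 2) (by positivity)
  refine ⟨fun t => p.eval t + ((1 - t) * (f 0 - p.eval 0) + t * (f 1 - p.eval 1)), ?_, ?_, ?_, ?_⟩
  · have h1 : Differentiable ℝ fun t => p.eval t := p.differentiable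
    fun_prop
  · ring
  · ring
  · intro t ht
    have h0 := hp 0 (by norm_num)
    have h1 := hp 1 (by norm_num)
    have h2 := hp t ht
    rw [abs_lt] at h0 h1 h2 ⊢
    obtain ⟨ht0, ht1⟩ := ht
    constructor
    · nlinarith
    · nlinarith

theorem approx_vec (f : ℝ → Fin n → ℝ) (hf : ContinuousOn f (Set.Icc 0 1)) {ε : ℝ} (hε : 0 < ε) :
    ∃ g : ℝ → Fin n → ℝ, Differentiable ℝ g ∧ g 0 = f 0 ∧ g 1 = f 1 ∧
      ∀ t ∈ Set.Icc (0 : ℝ) 1, ‖g t - f t‖ < ε := by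
  have h1 : ∀ i, ∃ g : ℝ → ℝ, Differentiable ℝ g ∧ g 0 = f 0 i ∧ g 1 = f 1 i ∧
      ∀ t ∈ Set.Icc (0 : ℝ) 1, |g t - f t i| < ε := fun i =>
    approx_real (fun t => f t i) (fun t ht => (continuous_apply i).continuousAt.comp_continuousWithinAt (hf t ht)) hε
  choose g hg h0 h1' h2 using h1
  refine ⟨fun t i => g i t, ?_, ?_, ?_, ?_⟩
  · exact differentiable_pi.2 fun i => hg i
  · funext i
    exact h0 i
  · funext i
    exact h1' i
  · intro t ht
    rw [pi_norm_lt_iff hε]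
    intro i
    exact h2 i t ht

/-- A path of positive planes can be pushed off the mirrors, with fixed ends. -/
theorem push {A : Matrix (Fin n) (Fin n) ℤ} (γ : ℝ → (Fin n → ℝ) × (Fin n → ℝ))
    (hγ : ContinuousOn γ (Set.Icc 0 1)) {ε : ℝ} (hε : 0 < ε)
    (h0 : ∀ δ, Root A δ → ¬ (bf A (γ 0).1 (rl δ) = 0 ∧ bf A (γ 0).2 (rl δ) = 0))
    (h1 : ∀ δ, Root A δ → ¬ (bf A (γ 1).1 (rl δ) = 0 ∧ bf A (γ 1).2 (rl δ) = 0)) :
    ∃ q : ℝ → (Fin n → ℝ) × (Fin n → ℝ), Continuous q ∧ q 0 = γ 0 ∧ q 1 = γ 1 ∧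
      (∀ t ∈ Set.Icc (0 : ℝ) 1, ‖q t - γ t‖ < ε) ∧
      ∀ t ∈ Set.Icc (0 : ℝ) 1, ∀ δ, Root A δ →
        ¬ (bf A (q t).1 (rl δ) = 0 ∧ bf A (q t).2 (rl δ) = 0) := by
  obtain ⟨u, hu⟩ := exists_generic A
  obtain ⟨g1, hg1, g10, g11, g1c⟩ := approx_vec (fun t => (γ t).1)
    (continuous_fst.comp_continuousOn hγ) (half_pos hε)
  obtain ⟨g2, hg2, g20, g21, g2c⟩ := approx_vec (fun t => (γ t).2)
    (continuous_snd.comp_continuousOn hγ) (half_pos hε)
  -- the bad parameters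
  let c : {δ : Fin n → ℤ // Root A δ} → ℝ → ℝ × ℝ := fun δ t =>
    (-(bf A (g1 t) (rl δ.1) / (t * (1 - t) * bf A u (rl δ.1))),
      -(bf A (g2 t) (rl δ.1) / (t * (1 - t) * bf A u (rl δ.1))))
  have hdiff : ∀ (δ : {δ : Fin n → ℤ // Root A δ}) (g : ℝ → Fin n → ℝ), Differentiable ℝ g →
      DifferentiableOn ℝ (fun t => -(bf A (g t) (rl δ.1) / (t * (1 - t) * bf A u (rl δ.1))))
        (Set.Ioo 0 1) := by
    intro δ g hg t ht
    have e1 : DifferentiableAt ℝ (fun t => bf A (g t) (rl δ.1)) t := by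
      have e2 : Differentiable ℝ fun x : Fin n → ℝ => bf A x (rl δ.1) :=
        (LinearMap.toContinuousLinearMap ((bf A).flip (rl δ.1))).differentiable
      exact (e2 (g t)).comp t (hg t)
    have e3 : DifferentiableAt ℝ (fun t : ℝ => t * (1 - t) * bf A u (rl δ.1)) t := by
      fun_prop
    have e4 : t * (1 - t) * bf A u (rl δ.1) ≠ 0 := by
      refine mul_ne_zero (mul_ne_zero ht.1.ne' ?_) (hu δ.1 δ.2)
      have := ht.2
      exact (sub_pos.2 this).ne'
    exact (e1.div e3 e4).neg.differentiableWithinAt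
  have hnull : (volume : Measure (ℝ × ℝ)) (⋃ δ, c δ '' Set.Ioo 0 1) = 0 :=
    measure_iUnion_null fun δ => curve_null _ ((hdiff δ g1 hg1).prodMk (hdiff δ g2 hg2))
  have hr : 0 < ε / (2 * (‖u‖ + 1)) := by positivity
  obtain ⟨⟨a, b⟩, hab, hbad⟩ : ∃ z ∈ Metric.ball (0 : ℝ × ℝ) (ε / (2 * (‖u‖ + 1))),
      z ∉ ⋃ δ, c δ '' Set.Ioo 0 1 := by
    by_contra hcon
    push Not at hcon
    have h2 := measure_mono_null hcon hnull
    exact (Metric.measure_ball_pos (volume : Measure (ℝ × ℝ)) 0 hr).ne' h2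
  rw [mem_ball_zero_iff, Prod.norm_def, max_lt_iff] at hab
  have hau : ∀ (x : ℝ), ‖x‖ < ε / (2 * (‖u‖ + 1)) → ∀ t ∈ Set.Icc (0 : ℝ) 1,
      ‖(t * (1 - t) * x) • u‖ < ε / 2 := by
    intro x hx t ht
    have e1 : ‖t * (1 - t) * x‖ ≤ ‖x‖ := by
      rw [norm_mul]
      have e2 : ‖t * (1 - t)‖ ≤ 1 := by
        rw [Real.norm_eq_abs, abs_le]
        constructor <;> nlinarith [ht.1, ht.2]
      have := mul_le_mul_of_nonneg_right e2 (norm_nonneg x)
      linarith
    have e3 : ‖x‖ * (‖u‖ + 1) < ε / 2 := by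
      rw [lt_div_iff₀ (by positivity)] at hx
      linarith
    rw [norm_smul]
    have e4 := mul_le_mul_of_nonneg_right e1 (norm_nonneg u)
    nlinarith [norm_nonneg x, norm_nonneg u]
  refine ⟨fun t => (g1 t + (t * (1 - t) * a) • u, g2 t + (t * (1 - t) * b) • u), ?_, ?_, ?_, ?_, ?_⟩
  · have e1 := hg1.continuous
    have e2 := hg2.continuous
    fun_prop
  · refine Prod.ext ?_ ?_
    · change g1 0 + ((0 : ℝ) * (1 - 0) * a) • u = _
      rw [g10]
      simp
    · change g2 0 + ((0 : ℝ) * (1 - 0) * b) • u = _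
      rw [g20]
      simp
  · refine Prod.ext ?_ ?_
    · change g1 1 + ((1 : ℝ) * (1 - 1) * a) • u = _
      rw [g11]
      simp
    · change g2 1 + ((1 : ℝ) * (1 - 1) * b) • u = _
      rw [g21]
      simp
  · intro t ht
    rw [Prod.norm_def, max_lt_iff]
    have e1 := g1c t ht
    have e2 := g2c t ht
    constructor
    · change ‖g1 t + (t * (1 - t) * a) • u - (γ t).1‖ < ε
      rw [add_sub_right_comm]
      have := norm_add_le (g1 t - (γ t).1) ((t * (1 - t) * a) • u)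
      have e3 := hau a hab.1 t ht
      linarith
    · change ‖g2 t + (t * (1 - t) * b) • u - (γ t).2‖ < ε
      rw [add_sub_right_comm]
      have := norm_add_le (g2 t - (γ t).2) ((t * (1 - t) * b) • u)
      have e3 := hau b hab.2 t ht
      linarith
  · intro t ht δ hδ hcon
    rcases eq_or_lt_of_le ht.1 with h | ht0
    · subst h
      apply h0 δ hδ
      have e1 := hcon.1
      have e2 := hcon.2
      simp only [zero_mul, zero_smul, add_zero, g10, g20] at e1 e2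
      exact ⟨e1, e2⟩
    rcases eq_or_lt_of_le ht.2 with h | ht1
    · subst h
      apply h1 δ hδ
      have e1 := hcon.1
      have e2 := hcon.2
      simp only [sub_self, mul_zero, zero_mul, zero_smul, add_zero, g11, g21] at e1 e2
      exact ⟨e1, e2⟩
    apply hbad
    refine Set.mem_iUnion.2 ⟨⟨δ, hδ⟩, t, ⟨ht0, ht1⟩, ?_⟩
    have hne : t * (1 - t) ≠ 0 := mul_ne_zero ht0.ne' (sub_pos.2 ht1).ne'
    have hune := hu δ hδ
    obtain ⟨e1, e2⟩ := hcon
    simp only [map_add, map_smul, LinearMap.add_apply, LinearMap.smul_apply, smul_eq_mul] at e1 e2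
    refine Prod.ext ?_ ?_
    · change -(bf A (g1 t) (rl δ) / (t * (1 - t) * bf A u (rl δ))) = a
      rw [neg_eq_iff_eq_neg, div_eq_iff (mul_ne_zero hne hune)]
      linarith
    · change -(bf A (g2 t) (rl δ) / (t * (1 - t) * bf A u (rl δ))) = b
      rw [neg_eq_iff_eq_neg, div_eq_iff (mul_ne_zero hne hune)]
      linarith

end Pool.Agent.MPa8252b
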