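import Pool.Agent.Lib.MP_a8252b_ag.Push2

/-!
# The kernel on fundamental groups
-/

namespace Pool.Agent.MPa8252b

open Matrix Filter Topology
open scoped unitInterval

variable {n : ℕ} {A : Matrix (Fin n) (Fin n) ℤ} {N' : AddSubgroup (Fin n → ℤ)}

/-- The inclusion into the positive planes off the mirrors of `N'`. -/
def incl (A : Matrix (Fin n) (Fin n) ℤ) (N' : AddSubgroup (Fin n → ℤ)) :
    C(Sp A ⊤, Good A N') where
  toFun p := ⟨p.1, P0_top_subset A N' p.2⟩
  continuous_toFun := Continuous.subtype_mk continuous_subtype_val _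

/-- A loop which is contractible off the mirrors of `N'` is in the subgroup of the small loops. -/
theorem inK_of_null (hA : A.IsSymm) (hs : Sig2 A) {e : Sp A ⊤} (γ : Path e e)
    (h : (γ.map (incl A N').continuous).Homotopic (Path.refl (incl A N' e))) :
    Rel A N' (Path.Homotopic.Quotient.mk γ) (Path.Homotopic.Quotient.refl e) := by
  obtain ⟨H⟩ := h
  let E₀ : I × I → Pr n := fun z => (H z).1
  have hE₀ : Continuous E₀ := continuous_subtype_val.comp H.continuous
  have a0 : ∀ t, E₀ (0, t) = (γ t).1 := by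
    intro t
    change (H (0, t)).1 = _
    rw [H.apply_zero]
    rfl
  have a1 : ∀ t, E₀ (1, t) = e.1 := by
    intro t
    change (H (1, t)).1 = _
    rw [H.apply_one]
    rfl
  have as : ∀ s, E₀ (s, 0) = e.1 := by
    intro s
    change (H (s, 0)).1 = _
    rw [Path.Homotopy.source]
    rfl
  have at' : ∀ s, E₀ (s, 1) = e.1 := by
    intro s
    change (H (s, 1)).1 = _
    rw [Path.Homotopy.target]
    rfl
  have hb : ∀ z : I × I, bdist z = 0 → z.1 = 0 ∨ z.1 = 1 ∨ z.2 = 0 ∨ z.2 = 1 := by
    intro z hz
    by_contra hcon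
    push Not at hcon
    obtain ⟨c1, c2, c3, c4⟩ := hcon
    have d1 : (0 : ℝ) < z.1 := lt_of_le_of_ne z.1.2.1 fun h => c1 (Subtype.ext h.symm)
    have d2 : (z.1 : ℝ) < 1 := lt_of_le_of_ne z.1.2.2 fun h => c2 (Subtype.ext h)
    have d3 : (0 : ℝ) < z.2 := lt_of_le_of_ne z.2.2.1 fun h => c3 (Subtype.ext h.symm)
    have d4 : (z.2 : ℝ) < 1 := lt_of_le_of_ne z.2.2.2 fun h => c4 (Subtype.ext h)
    have : 0 < bdist z := lt_min (lt_min d1 (by linarith)) (lt_min d3 (by linarith))
    linarith
  have hbX : ∀ z, bdist z = 0 → E₀ z ∈ Good A ⊤ := by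
    rintro ⟨s, t⟩ hz
    rcases hb _ hz with h | h | h | h
    · change s = 0 at h
      subst h
      rw [a0]
      exact (γ t).2.2.2
    · change s = 1 at h
      subst h
      rw [a1]
      exact e.2.2.2
    · change t = 0 at h
      subst h
      rw [as]
      exact e.2.2.2
    · change t = 1 at h
      subst h
      rw [at']
      exact e.2.2.2
  obtain ⟨E, hE, hEb, hEO, hE2⟩ := push2 hA hs E₀ hE₀ (fun z => (H z).2) hbX
  obtain ⟨ε, hε, hball⟩ := nice_room hA hs E hE hEO hE2
  obtain ⟨δ, hδ, hunif⟩ := Metric.uniformContinuous_iff.1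
    (CompactSpace.uniformContinuous_of_continuous hE) (ε / 8) (by positivity)
  have hb0 : ∀ t : I, bdist ((0 : I), t) = 0 := fun t =>
    le_antisymm ((min_le_left _ _).trans ((min_le_left _ _).trans le_rfl)) (bdist_nonneg _)
  have hb1 : ∀ t : I, bdist ((1 : I), t) = 0 := fun t =>
    le_antisymm ((min_le_left _ _).trans ((min_le_right _ _).trans (by
      change (1 : ℝ) - ((1 : I) : ℝ) ≤ 0
      rw [Set.Icc.coe_one, sub_self]))) (bdist_nonneg _)
  have hb2 : ∀ s : I, bdist (s, (0 : I)) = 0 := fun s =>
    le_antisymm ((min_le_right _ _).trans ((min_le_left _ _).trans le_rfl)) (bdist_nonneg _)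
  have hb3 : ∀ s : I, bdist (s, (1 : I)) = 0 := fun s =>
    le_antisymm ((min_le_right _ _).trans ((min_le_right _ _).trans (by
      change (1 : ℝ) - ((1 : I) : ℝ) ≤ 0
      rw [Set.Icc.coe_one, sub_self]))) (bdist_nonneg _)
  have hE0 : ∀ t, E (0, t) = (γ t).1 := fun t => (hEb _ (hb0 t)).trans (a0 t)
  have hE1 : ∀ t, E (1, t) = e.1 := fun t => (hEb _ (hb1 t)).trans (a1 t)
  have hEs : ∀ s, E (s, 0) = e.1 := fun s => (hEb _ (hb2 s)).trans (as s)
  have hEt : ∀ s, E (s, 1) = e.1 := fun s => (hEb _ (hb3 s)).trans (at' s)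
  have hEc : ∀ s : I, Continuous fun t : I => E (s, t) := fun s =>
    hE.comp (continuous_const.prodMk continuous_id)
  let T : Set I := {s | ∀ q : Path e e, (∀ t, ‖(q t).1 - E (s, t)‖ < ε / 8) →
    Rel A N' (Path.Homotopic.Quotient.mk γ) (Path.Homotopic.Quotient.mk q)}
  have hnext : ∀ s s' : I, s ∈ T → dist s' s < δ → s' ∈ T := by
    intro s s' hsT hss q hq
    obtain ⟨p, hp⟩ := push_path (N' := N') (fun t => E (s, t)) (hEc s) e e (hEs s) (hEt s)
      (ε := ε / 8) (by positivity) (fun t z hz => (hball (s, t)).1 (by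
        rw [mem_ball_iff_norm]
        linarith))
    refine (hsT p hp).trans ?_
    refine ladder (fun t => E (s, t)) (hEc s) hε (fun t => hball (s, t)) p q (fun t => ?_)
      (fun t => ?_)
    · have := hp t
      linarith
    · have h1 := hq t
      have h2 : ‖E (s', t) - E (s, t)‖ < ε / 8 := by
        rw [← dist_eq_norm]
        refine hunif ?_
        rw [Prod.dist_eq, dist_self, max_eq_left dist_nonneg]
        exact hss
      have h3 := norm_add_le ((q t).1 - E (s', t)) (E (s', t) - E (s, t))
      rw [sub_add_sub_cancel] at h3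
      linarith
  have h0T : (0 : I) ∈ T := by
    intro q hq
    refine ladder (fun t => E (0, t)) (hEc 0) hε (fun t => hball (0, t)) γ q (fun t => ?_)
      (fun t => ?_)
    · rw [hE0, sub_self, norm_zero]
      positivity
    · have := hq t
      linarith
  have hclopen : IsClopen T := by
    constructor
    · rw [← isOpen_compl_iff, Metric.isOpen_iff]
      intro u hu
      refine ⟨δ, hδ, fun v hv hvT => hu (hnext v u hvT ?_)⟩
      rw [dist_comm]
      exact hv
    · rw [Metric.isOpen_iff]
      intro u hu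
      exact ⟨δ, hδ, fun v hv => hnext u v hu hv⟩
  have h1T : (1 : I) ∈ T := by
    rw [hclopen.eq_univ ⟨0, h0T⟩]
    trivial
  refine h1T (Path.refl e) fun t => ?_
  rw [hE1]
  change ‖e.1 - e.1‖ < ε / 8
  rw [sub_self, norm_zero]
  positivity

section

variable (hA : A.IsSymm) (hs : Sig2 A) (hN : HasPos A N')
  {π : (Fin n → ℝ) →ₗ[ℝ] (Fin n → ℝ)} (hπ : IsProj A N' π)

include hA hs hN hπ

/-- If the projection of a loop is contractible, the loop is contractible off the mirrors of
`N'`. -/
theorem null_of_proj {e : Sp A ⊤} (γ : Path e e)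
    (h : (γ.map (F hA hs hN hπ).continuous).Homotopic (Path.refl (F hA hs hN hπ e))) :
    (γ.map (incl A N').continuous).Homotopic (Path.refl (incl A N' e)) := by
  have hπc : Continuous π := LinearMap.continuous_of_finiteDimensional π
  -- the retraction and the inclusion
  let R : C(Good A N', Sp A N') :=
    { toFun := fun p => ⟨(π p.1.1, π p.1.2), proj_mem hA hs hN hπ p.2⟩
      continuous_toFun := Continuous.subtype_mk
        ((hπc.comp (continuous_fst.comp continuous_subtype_val)).prodMk
          (hπc.comp (continuous_snd.comp continuous_subtype_val))) _ }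
  let J : C(Sp A N', Good A N') :=
    { toFun := fun p => ⟨p.1, P0_subset_Good A N' p.2⟩
      continuous_toFun := Continuous.subtype_mk continuous_subtype_val _ }
  let G : (ContinuousMap.id (Good A N')).Homotopy (J.comp R) :=
    { toFun := fun z => ⟨(π z.2.1.1 + (1 - (z.1 : ℝ)) • (z.2.1.1 - π z.2.1.1),
        π z.2.1.2 + (1 - (z.1 : ℝ)) • (z.2.1.2 - π z.2.1.2)),
        seg_good hA hs hN hπ z.2.2 (by linarith [z.1.2.2]) (by linarith [z.1.2.1])⟩
      continuous_toFun := by
        refine Continuous.subtype_mk ?_ _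
        have e1 : Continuous fun z : I × Good A N' => z.2.1.1 :=
          continuous_fst.comp (continuous_subtype_val.comp continuous_snd)
        have e2 : Continuous fun z : I × Good A N' => z.2.1.2 :=
          continuous_snd.comp (continuous_subtype_val.comp continuous_snd)
        have e3 : Continuous fun z : I × Good A N' => (1 - (z.1 : ℝ)) :=
          continuous_const.sub (continuous_subtype_val.comp continuous_fst)
        exact ((hπc.comp e1).add (e3.smul (e1.sub (hπc.comp e1)))).prodMk
          ((hπc.comp e2).add (e3.smul (e2.sub (hπc.comp e2))))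
      map_zero_left := by
        intro p
        apply Subtype.ext
        refine Prod.ext ?_ ?_
        · change π p.1.1 + (1 - ((0 : I) : ℝ)) • (p.1.1 - π p.1.1) = p.1.1
          rw [Set.Icc.coe_zero]
          module
        · change π p.1.2 + (1 - ((0 : I) : ℝ)) • (p.1.2 - π p.1.2) = p.1.2
          rw [Set.Icc.coe_zero]
          module
      map_one_left := by
        intro p
        apply Subtype.ext
        refine Prod.ext ?_ ?_
        · change π p.1.1 + (1 - ((1 : I) : ℝ)) • (p.1.1 - π p.1.1) = π p.1.1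
          rw [Set.Icc.coe_one]
          module
        · change π p.1.2 + (1 - ((1 : I) : ℝ)) • (p.1.2 - π p.1.2) = π p.1.2
          rw [Set.Icc.coe_one]
          module }
  have h1 := Path.Homotopic.map_trans_evalAt G (γ.map (incl A N').continuous)
  have h2 : (((γ.map (incl A N').continuous).map (map_continuous (J.comp R)))).Homotopic
      (Path.refl ((J.comp R) (incl A N' e))) := by
    have h3 := Path.Homotopic.map h J
    exact h3
  have h4 := Path.Homotopic.Quotient.eq.2 h1
  rw [Path.Homotopic.Quotient.mk_trans, Path.Homotopic.Quotient.mk_trans,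
    Path.Homotopic.Quotient.eq.2 h2, Path.Homotopic.Quotient.mk_refl, q_trans_refl] at h4
  have h5 := congrArg (fun Q => Path.Homotopic.Quotient.trans Q
    (Path.Homotopic.Quotient.mk (G.evalAt (incl A N' e))).symm) h4
  simp only [q_assoc] at h5
  rw [q_trans_symm, q_trans_refl] at h5
  exact Path.Homotopic.Quotient.eq.1 h5

/-- The projection of a loop is contractible if the segments to its base point are in
`Good A N'`. -/
theorem proj_mix {z : Sp A ⊤} (l : Path z z)
    (hmix : ∀ (s t : I), (1 - (s : ℝ)) • (l t).1 + (s : ℝ) • z.1 ∈ Good A N') :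
    (l.map (F hA hs hN hπ).continuous).Homotopic (Path.refl (F hA hs hN hπ z)) := by
  have hπc : Continuous π := LinearMap.continuous_of_finiteDimensional π
  let H : I × I → Sp A N' := fun u =>
    ⟨(π ((1 - (u.1 : ℝ)) • (l u.2).1 + (u.1 : ℝ) • z.1).1,
      π ((1 - (u.1 : ℝ)) • (l u.2).1 + (u.1 : ℝ) • z.1).2),
      proj_mem hA hs hN hπ (hmix u.1 u.2)⟩
  have hHc : Continuous H := by
    refine Continuous.subtype_mk ?_ _
    have e0 : Continuous fun u : I × I => (l u.2).1 :=
      continuous_subtype_val.comp (l.continuous.comp continuous_snd)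
    have e1 : Continuous fun u : I × I => (1 - (u.1 : ℝ)) • (l u.2).1 + (u.1 : ℝ) • z.1 := by
      fun_prop
    exact (hπc.comp (continuous_fst.comp e1)).prodMk (hπc.comp (continuous_snd.comp e1))
  have hend : ∀ s t : I, (l t).1 = z.1 → H (s, t) = F hA hs hN hπ z := by
    intro s t ht
    apply Subtype.ext
    change (π ((1 - (s : ℝ)) • (l t).1 + (s : ℝ) • z.1).1,
      π ((1 - (s : ℝ)) • (l t).1 + (s : ℝ) • z.1).2) = (π z.1.1, π z.1.2)
    have e1 : (1 - (s : ℝ)) • (l t).1 + (s : ℝ) • z.1 = z.1 := by
      rw [ht]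
      module
    rw [e1]
  refine ⟨{ toFun := H
            continuous_toFun := hHc
            map_zero_left := ?_
            map_one_left := ?_
            prop' := ?_ }⟩
  · intro t
    apply Subtype.ext
    change (π ((1 - (((0 : I) : ℝ))) • (l t).1 + ((0 : I) : ℝ) • z.1).1,
      π ((1 - (((0 : I) : ℝ))) • (l t).1 + ((0 : I) : ℝ) • z.1).2) = (π (l t).1.1, π (l t).1.2)
    have e1 : (1 - (((0 : I) : ℝ))) • (l t).1 + ((0 : I) : ℝ) • z.1 = (l t).1 := by
      rw [Set.Icc.coe_zero]
      module
    rw [e1]
  · intro t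
    apply Subtype.ext
    change (π ((1 - (((1 : I) : ℝ))) • (l t).1 + ((1 : I) : ℝ) • z.1).1,
      π ((1 - (((1 : I) : ℝ))) • (l t).1 + ((1 : I) : ℝ) • z.1).2) = (π z.1.1, π z.1.2)
    have e1 : (1 - (((1 : I) : ℝ))) • (l t).1 + ((1 : I) : ℝ) • z.1 = z.1 := by
      rw [Set.Icc.coe_one]
      module
    rw [e1]
  · intro s t ht
    rcases ht with rfl | ht
    · change H (s, 0) = F hA hs hN hπ (l 0)
      rw [l.source]
      exact hend s 0 (by rw [l.source])
    · rw [Set.mem_singleton_iff] at ht
      subst ht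
      change H (s, 1) = F hA hs hN hπ (l 1)
      rw [l.target]
      exact hend s 1 (by rw [l.target])

/-- The projection of a small loop is contractible. -/
theorem proj_small {z : Sp A ⊤} (l : Path z z) (hl : SmallLoop A N' l) :
    (l.map (F hA hs hN hπ).continuous).Homotopic (Path.refl (F hA hs hN hπ z)) := by
  obtain ⟨w, r, hB, hl⟩ := hl
  have hz : z.1 ∈ Metric.ball w r := by
    have := hl 0
    rwa [l.source] at this
  exact proj_mix hA hs hN hπ l fun s t =>
    hB.1 (convex_ball w r (hl t) hz (by linarith [s.2.2]) s.2.1 (by ring))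

/-- The kernel of the projection on fundamental groups. -/
theorem ker_eq (e : Sp A ⊤) :
    (FundamentalGroup.map (F hA hs hN hπ) e).ker = Subgroup.closure (smallLoops A N' e) := by
  refine le_antisymm ?_ ?_
  · intro g hg
    obtain ⟨γ, rfl⟩ := Path.Homotopic.Quotient.mk_surjective (X := Sp A ⊤) g
    have h1 : (γ.map (F hA hs hN hπ).continuous).Homotopic (Path.refl (F hA hs hN hπ e)) :=
      Path.Homotopic.Quotient.eq.1 (MonoidHom.mem_ker.1 hg)
    have h2 := rel_closure (inK_of_null hA hs γ (null_of_proj hA hs hN hπ γ h1))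
    have h3 : (Path.Homotopic.Quotient.refl e).symm = Path.Homotopic.Quotient.refl e := by
      rw [← q_refl_trans (Path.Homotopic.Quotient.refl e).symm, q_trans_symm]
    rw [h3, q_trans_refl] at h2
    exact h2
  · rw [Subgroup.closure_le]
    rintro _ ⟨z, c, l, hl, rfl⟩
    refine MonoidHom.mem_ker.2 ?_
    have h1 := Path.Homotopic.Quotient.eq.2 (proj_small hA hs hN hπ l hl)
    have h2 : ((Path.Homotopic.Quotient.mk ((c.trans l).trans c.symm)).map (F hA hs hN hπ) :
        Path.Homotopic.Quotient (F hA hs hN hπ e) (F hA hs hN hπ e)) =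
        Path.Homotopic.Quotient.refl (F hA hs hN hπ e) := by
      rw [← Path.Homotopic.Quotient.mk_map, Path.map_trans, Path.map_trans, ← Path.map_symm,
        Path.Homotopic.Quotient.mk_trans, Path.Homotopic.Quotient.mk_trans, h1,
        Path.Homotopic.Quotient.mk_refl, q_trans_refl, Path.Homotopic.Quotient.mk_symm,
        q_trans_symm]
    exact h2

end

end Pool.Agent.MPa8252b
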