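import Pool.Agent.Lib.MP_a8252b_ag.Rel

/-!
# Nearby paths are related
-/

namespace Pool.Agent.MPa8252b

open Matrix Filter Topology
open scoped unitInterval

variable {n : ℕ} {A : Matrix (Fin n) (Fin n) ℤ} {N' : AddSubgroup (Fin n → ℤ)}

theorem push_path (η : I → Pr n) (hη : Continuous η) (x y : Sp A ⊤) (h0 : η 0 = x.1)
    (h1 : η 1 = y.1) {ε : ℝ} (hε : 0 < ε) (hgood : ∀ t z, ‖z - η t‖ < ε → z ∈ Good A N') :
    ∃ p : Path x y, ∀ t, ‖(p t).1 - η t‖ < ε := by
  let γ : ℝ → Pr n := fun t => η (Set.projIcc 0 1 zero_le_one t)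
  have hγ : Continuous γ := hη.comp continuous_projIcc
  have e0 : γ 0 = x.1 := by
    change η (Set.projIcc 0 1 zero_le_one 0) = _
    rw [Set.projIcc_left]
    exact h0
  have e1 : γ 1 = y.1 := by
    change η (Set.projIcc 0 1 zero_le_one 1) = _
    rw [Set.projIcc_right]
    exact h1
  have eI : ∀ t : I, γ t = η t := by
    intro t
    change η (Set.projIcc 0 1 zero_le_one (t : ℝ)) = _
    rw [Set.projIcc_val]
  obtain ⟨q, hqc, hq0, hq1, hqh, hqr⟩ := push (A := A) γ hγ.continuousOn hε
    (by rw [e0]; exact fun δ hδ => x.2.2.2.2 δ (AddSubgroup.mem_top δ) hδ)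
    (by rw [e1]; exact fun δ hδ => y.2.2.2.2 δ (AddSubgroup.mem_top δ) hδ)
  have hqP : ∀ t : I, q t ∈ P0 A ⊤ := by
    intro t
    have h2 := hqh t t.2
    rw [eI] at h2
    refine ⟨?_, ?_, (hgood t _ h2).1, fun δ _ hδ => hqr t t.2 δ hδ⟩
    · rw [rspan_top]
      trivial
    · rw [rspan_top]
      trivial
  refine ⟨{ toFun := fun t => ⟨q t, hqP t⟩
            continuous_toFun := Continuous.subtype_mk (hqc.comp continuous_subtype_val) _
            source' := Subtype.ext (hq0.trans e0)
            target' := Subtype.ext (hq1.trans e1) }, ?_⟩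
  intro t
  have h2 := hqh t t.2
  rw [eI] at h2
  exact h2

/-- The path stays in the ball. -/
def InB {x y : Sp A ⊤} (p : Path x y) (w : Pr n) (r : ℝ) : Prop := ∀ t, (p t).1 ∈ Metric.ball w r

theorem InB.trans {x y z : Sp A ⊤} {p : Path x y} {q : Path y z} {w : Pr n} {r : ℝ}
    (hp : InB p w r) (hq : InB q w r) : InB (p.trans q) w r := by
  intro t
  have h1 : (p.trans q) t ∈ Set.range p ∪ Set.range q := by
    rw [← Path.trans_range]
    exact ⟨t, rfl⟩
  rcases h1 with ⟨s, hs⟩ | ⟨s, hs⟩
  · rw [← hs]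
    exact hp s
  · rw [← hs]
    exact hq s

theorem InB.symm {x y : Sp A ⊤} {p : Path x y} {w : Pr n} {r : ℝ} (hp : InB p w r) :
    InB p.symm w r := fun _ => hp _

theorem exists_small_path {z z' : Sp A ⊤} {w : Pr n} {r : ℝ} (hz : z.1 ∈ Metric.ball w r)
    (hz' : z'.1 ∈ Metric.ball w r) (hB : Metric.ball w r ⊆ Good A N') :
    ∃ d : Path z z', InB d w r := by
  let η : I → Pr n := fun t => (1 - (t : ℝ)) • z.1 + (t : ℝ) • z'.1
  have hη : Continuous η := by
    change Continuous fun t : I => (1 - (t : ℝ)) • z.1 + (t : ℝ) • z'.1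
    fun_prop
  have hmem : ∀ t, η t ∈ Metric.ball w r := fun t =>
    convex_ball w r hz hz' (by linarith [t.2.2]) t.2.1 (by ring)
  have hK : IsCompact (Set.range η) := isCompact_range hη
  obtain ⟨ε, hε, hthick⟩ := hK.exists_thickening_subset_open Metric.isOpen_ball
    (by rintro _ ⟨t, rfl⟩; exact hmem t)
  have hin : ∀ t u, ‖u - η t‖ < ε → u ∈ Metric.ball w r := by
    intro t u hu
    refine hthick ?_
    rw [Metric.mem_thickening_iff]
    exact ⟨η t, ⟨t, rfl⟩, by rw [dist_eq_norm]; exact hu⟩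
  obtain ⟨p, hp⟩ := push_path (N' := N') η hη z z'
    (by change (1 - ((0 : I) : ℝ)) • z.1 + ((0 : I) : ℝ) • z'.1 = z.1
        rw [Set.Icc.coe_zero]; module)
    (by change (1 - ((1 : I) : ℝ)) • z.1 + ((1 : I) : ℝ) • z'.1 = z'.1
        rw [Set.Icc.coe_one]; module) hε (fun t u hu => hB (hin t u hu))
  exact ⟨p, fun t => hin t _ (hp t)⟩

theorem Nice.mono {U U' : Set (Pr n)} (h : Nice A N' U) (hU : U' ⊆ U) : Nice A N' U' := by
  obtain ⟨h1, δ, h2⟩ := h
  exact ⟨hU.trans h1, δ, fun δ' a b c p hp => h2 δ' a b c p (hU hp)⟩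

/-- Two paths close to the same path are related. -/
theorem ladder (η : I → Pr n) (hη : Continuous η) {ε : ℝ}
    (hε : 0 < ε) (hgood : ∀ t, Nice A N' (Metric.ball (η t) ε)) {x y : Sp A ⊤} (q q' : Path x y)
    (hq : ∀ t, ‖(q t).1 - η t‖ < ε / 4) (hq' : ∀ t, ‖(q' t).1 - η t‖ < ε / 4) :
    Rel A N' (Path.Homotopic.Quotient.mk q) (Path.Homotopic.Quotient.mk q') := by
  have hsub : ∀ u, Nice A N' (Metric.ball (η u) (ε / 4)) := fun u =>
    (hgood u).mono (Metric.ball_subset_ball (by linarith))
  have hD : ∀ u : I, ∃ d : Path (q u) (q' u), InB d (η u) (ε / 4) := fun u =>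
    exists_small_path (mem_ball_iff_norm.2 (hq u)) (mem_ball_iff_norm.2 (hq' u)) (hsub u).1
  choose D hD using hD
  -- one step
  have step : ∀ u v : I, (∀ t ∈ Set.uIcc u v, ‖η t - η u‖ < ε / 4) →
      Rel A N' ((Path.Homotopic.Quotient.mk (q.subpath u v)).trans
        (Path.Homotopic.Quotient.mk (D v))) ((Path.Homotopic.Quotient.mk (D u)).trans
        (Path.Homotopic.Quotient.mk (q'.subpath u v))) := by
    intro u v huv
    have hsp : ∀ p : Path x y, (∀ t, ‖(p t).1 - η t‖ < ε / 4) → InB (p.subpath u v) (η u) ε := by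
      intro p hp t
      have h1 : (p.subpath u v) t ∈ p '' Set.uIcc u v := by
        rw [← Path.range_subpath]
        exact ⟨t, rfl⟩
      obtain ⟨s, hs, hst⟩ := h1
      rw [← hst, mem_ball_iff_norm]
      have h2 := norm_add_le ((p s).1 - η s) (η s - η u)
      rw [sub_add_sub_cancel] at h2
      have h3 := hp s
      have h4 := huv s hs
      linarith
    have hDu : InB (D u) (η u) ε := fun t => Metric.ball_subset_ball (by linarith) (hD u t)
    have hDv : InB (D v) (η u) ε := by
      intro t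
      have h1 := hD v t
      rw [mem_ball_iff_norm] at h1 ⊢
      have h2 := norm_add_le ((D v t).1 - η v) (η v - η u)
      rw [sub_add_sub_cancel] at h2
      have h4 := huv v Set.right_mem_uIcc
      linarith
    have hl : InB ((((q.subpath u v).trans (D v)).trans (q'.subpath u v).symm).trans (D u).symm)
        (η u) ε :=
      (((hsp q hq).trans hDv).trans (hsp q' hq').symm).trans hDu.symm
    have h5 := Rel.small (A := A) (N' := N') _ ⟨η u, ε, hgood u, hl⟩
    simp only [Path.Homotopic.Quotient.mk_trans, Path.Homotopic.Quotient.mk_symm] at h5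
    exact rel_of_loop h5
  -- the set of good parameters
  let S : Set I := {u | Rel A N' ((Path.Homotopic.Quotient.mk (q.subpath 0 u)).trans
        (Path.Homotopic.Quotient.mk (D u))) ((Path.Homotopic.Quotient.mk (D 0)).trans
        (Path.Homotopic.Quotient.mk (q'.subpath 0 u)))}
  obtain ⟨δ, hδ, hunif⟩ := Metric.uniformContinuous_iff.1
    (CompactSpace.uniformContinuous_of_continuous hη) (ε / 4) (by positivity)
  have hsplit : ∀ (p : Path x y) (u v : I), Path.Homotopic.Quotient.mk (p.subpath 0 v) =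
      (Path.Homotopic.Quotient.mk (p.subpath 0 u)).trans
        (Path.Homotopic.Quotient.mk (p.subpath u v)) := by
    intro p u v
    rw [← Path.Homotopic.Quotient.mk_trans]
    exact (Path.Homotopic.Quotient.eq.2 ⟨Path.Homotopy.subpathTransSubpath p 0 u v⟩).symm
  have hnext : ∀ u v : I, u ∈ S → dist v u < δ → v ∈ S := by
    intro u v hu huv
    have h1 := step u v (by
      intro t ht
      rw [← dist_eq_norm]
      refine hunif ?_
      refine lt_of_le_of_lt ?_ huv
      rw [Subtype.dist_eq, Subtype.dist_eq, Real.dist_eq, Real.dist_eq]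
      rw [Set.mem_uIcc] at ht
      have e1 : ∀ a b : I, a ≤ b → (a : ℝ) ≤ (b : ℝ) := fun a b h => h
      rcases ht with ⟨a1, a2⟩ | ⟨a1, a2⟩
      · have b1 := e1 _ _ a1
        have b2 := e1 _ _ a2
        rw [abs_of_nonneg (by linarith), abs_of_nonneg (by linarith)]
        linarith
      · have b1 := e1 _ _ a1
        have b2 := e1 _ _ a2
        rw [abs_of_nonpos (by linarith), abs_of_nonpos (by linarith)]
        linarith)
    change Rel A N' _ _
    rw [hsplit q u v, hsplit q' u v, q_assoc]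
    have h2 := Rel.comp (Rel.refl (A := A) (N' := N')
      (Path.Homotopic.Quotient.mk (q.subpath 0 u))) h1
    have h3 := Rel.comp hu (Rel.refl (A := A) (N' := N')
      (Path.Homotopic.Quotient.mk (q'.subpath u v)))
    simp only [q_assoc] at h2 h3
    exact h2.trans h3
  have h0S : (0 : I) ∈ S := by
    change Rel A N' _ _
    rw [Path.subpath_self, Path.subpath_self, Path.Homotopic.Quotient.mk_refl,
      Path.Homotopic.Quotient.mk_refl, q_refl_trans, q_trans_refl]
    exact Rel.refl _
  have hclopen : IsClopen S := by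
    constructor
    · rw [← isOpen_compl_iff, Metric.isOpen_iff]
      intro u hu
      refine ⟨δ, hδ, fun v hv hvS => hu (hnext v u hvS ?_)⟩
      rw [dist_comm]
      exact hv
    · rw [Metric.isOpen_iff]
      intro u hu
      exact ⟨δ, hδ, fun v hv => hnext u v hu hv⟩
  have h1S : (1 : I) ∈ S := by
    rw [hclopen.eq_univ ⟨0, h0S⟩]
    trivial
  have h1 : Rel A N' ((Path.Homotopic.Quotient.mk (q.subpath 0 1)).trans
        (Path.Homotopic.Quotient.mk (D 1))) ((Path.Homotopic.Quotient.mk (D 0)).trans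
        (Path.Homotopic.Quotient.mk (q'.subpath 0 1))) := h1S
  -- the ends
  let d0 : Path x x := (D 0).cast q.source.symm q'.source.symm
  let d1 : Path y y := (D 1).cast q.target.symm q'.target.symm
  have hd0 : Rel A N' (Path.Homotopic.Quotient.mk d0) (Path.Homotopic.Quotient.refl x) :=
    Rel.small d0 ⟨η 0, ε / 4, hsub 0, fun t => hD 0 t⟩
  have hd1 : Rel A N' (Path.Homotopic.Quotient.mk d1) (Path.Homotopic.Quotient.refl y) :=
    Rel.small d1 ⟨η 1, ε / 4, hsub 1, fun t => hD 1 t⟩
  have h2 : Rel A N' ((Path.Homotopic.Quotient.mk q).trans (Path.Homotopic.Quotient.mk d1))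
      ((Path.Homotopic.Quotient.mk d0).trans (Path.Homotopic.Quotient.mk q')) := by
    refine rel_cast q.source q'.target ?_
    have e1 : ((Path.Homotopic.Quotient.mk q).trans (Path.Homotopic.Quotient.mk d1)).cast
        q.source q'.target = (Path.Homotopic.Quotient.mk (q.subpath 0 1)).trans
        (Path.Homotopic.Quotient.mk (D 1)) := by
      rw [← Path.Homotopic.Quotient.mk_trans, ← Path.Homotopic.Quotient.mk_trans,
        ← Path.Homotopic.Quotient.mk_cast, Path.subpath_zero_one]
      rfl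
    have e2 : ((Path.Homotopic.Quotient.mk d0).trans (Path.Homotopic.Quotient.mk q')).cast
        q.source q'.target = (Path.Homotopic.Quotient.mk (D 0)).trans
        (Path.Homotopic.Quotient.mk (q'.subpath 0 1)) := by
      rw [← Path.Homotopic.Quotient.mk_trans, ← Path.Homotopic.Quotient.mk_trans,
        ← Path.Homotopic.Quotient.mk_cast, Path.subpath_zero_one]
      rfl
    rw [e1, e2]
    exact h1
  have h3 := Rel.comp (Rel.refl (A := A) (N' := N') (Path.Homotopic.Quotient.mk q)) hd1
  rw [q_trans_refl] at h3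
  have h4 := Rel.comp hd0 (Rel.refl (A := A) (N' := N') (Path.Homotopic.Quotient.mk q'))
  rw [q_refl_trans] at h4
  exact (h3.symm.trans h2).trans h4

end Pool.Agent.MPa8252b
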