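import Pool.Agent.Lib.MP_a8252b_ag.Mer2
import Pool.Agent.Lib.MP_a8252b_ag.Cov2

/-!
# The local fundamental group at a positive pair
-/

namespace Pool.Agent.MPa8252b

open Matrix Topology unitInterval

variable {n : ℕ}

/-- The integral vectors orthogonal to the pair `p₀`. -/
def orthLat (A : Matrix (Fin n) (Fin n) ℤ) (p₀ : Pr n) : AddSubgroup (Fin n → ℤ) where
  carrier := {δ | Mir A δ p₀}
  add_mem' := by
    rintro a b ⟨h1, h2⟩ ⟨h3, h4⟩
    have h : rl (a + b) = rl a + rl b := by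
      funext i
      simp [rl]
    constructor
    · rw [h, map_add, h1, h3, add_zero]
    · rw [h, map_add, h2, h4, add_zero]
  zero_mem' := by
    have h : rl (0 : Fin n → ℤ) = 0 := by
      funext i
      simp [rl]
    constructor <;> rw [h, map_zero]
  neg_mem' := by
    rintro a ⟨h1, h2⟩
    constructor
    · rw [rl_neg, map_neg, h1, neg_zero]
    · rw [rl_neg, map_neg, h2, neg_zero]

/-- The pairs on no mirror of a root orthogonal to `p₀`. -/
def Loc (A : Matrix (Fin n) (Fin n) ℤ) (p₀ : Pr n) : Set (Pr n) :=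
  {v | ∀ δ, Root A δ → Mir A δ p₀ → ¬ Mir A δ v}

/-- The points of `P0 A ⊤` in a ball around `p₀`. -/
def LB (A : Matrix (Fin n) (Fin n) ℤ) (p₀ : Pr n) (ε : ℝ) : Set (Pr n) :=
  {v | v ∈ Metric.ball p₀ ε ∧ v ∈ P0 A ⊤}

/-- The radius `r` is small for `p₀`. -/
def SmallR (A : Matrix (Fin n) (Fin n) ℤ) (p₀ : Pr n) (ε : ℝ) : Prop :=
  0 < ε ∧ ∀ v ∈ Metric.ball p₀ ε, Pos A v.1 v.2 ∧ ∀ δ, ¬ Mir A δ p₀ → Root A δ → ¬ Mir A δ v

variable {A : Matrix (Fin n) (Fin n) ℤ} {p₀ : Pr n} {ε : ℝ}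

theorem exists_small (hA : A.IsSymm) (hs : Sig2 A) (hp : Pos A p₀.1 p₀.2) :
    ∃ r, 0 < r ∧ ∀ ε, 0 < ε → ε ≤ r → SmallR A p₀ ε := by
  have h1 := isOpen_goodSet hA hs {δ | ¬ Mir A δ p₀}
  obtain ⟨r, hr, h2⟩ := Metric.isOpen_iff.1 h1 p₀ ⟨hp, fun δ hδ _ => hδ⟩
  exact ⟨r, hr, fun ε h0 hε => ⟨h0, fun v hv => h2 (Metric.ball_subset_ball hε hv)⟩⟩

theorem mem_P0 (hε : SmallR A p₀ ε) {v : Pr n} (hv : v ∈ Metric.ball p₀ ε) (h : v ∈ Loc A p₀) :
    v ∈ P0 A ⊤ := by
  refine ⟨by rw [rspan_top]; trivial, by rw [rspan_top]; trivial, (hε.2 v hv).1, ?_⟩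
  intro δ _ hδ
  by_cases h1 : Mir A δ p₀
  · exact h δ hδ h1
  · exact (hε.2 v hv).2 δ h1 hδ

theorem P0_sub_Loc {v : Pr n} (hv : v ∈ P0 A ⊤) : v ∈ Loc A p₀ :=
  fun δ hδ _ => hv.2.2.2 δ trivial hδ

/-- Scaling with centre `p₀`. -/
def shr (p₀ : Pr n) (c : ℝ) (v : Pr n) : Pr n := p₀ + c • (v - p₀)

theorem shr_one (v : Pr n) : shr p₀ 1 v = v := by
  unfold shr
  rw [one_smul, add_sub_cancel]

theorem mir_shr {δ : Fin n → ℤ} (h : Mir A δ p₀) {c : ℝ} (hc : c ≠ 0) {v : Pr n} :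
    Mir A δ (shr p₀ c v) ↔ Mir A δ v := by
  have h1 : bf A (shr p₀ c v).1 (rl δ) = c * bf A v.1 (rl δ) := by
    change bf A (p₀.1 + c • (v.1 - p₀.1)) (rl δ) = _
    rw [map_add, LinearMap.add_apply, map_smul, LinearMap.smul_apply, map_sub,
      LinearMap.sub_apply, h.1, sub_zero, zero_add, smul_eq_mul]
  have h2 : bf A (shr p₀ c v).2 (rl δ) = c * bf A v.2 (rl δ) := by
    change bf A (p₀.2 + c • (v.2 - p₀.2)) (rl δ) = _
    rw [map_add, LinearMap.add_apply, map_smul, LinearMap.smul_apply, map_sub,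
      LinearMap.sub_apply, h.2, sub_zero, zero_add, smul_eq_mul]
  unfold Mir
  rw [h1, h2, mul_eq_zero, mul_eq_zero, or_iff_right hc, or_iff_right hc]

theorem shr_Loc {c : ℝ} (hc : c ≠ 0) {v : Pr n} (hv : v ∈ Loc A p₀) : shr p₀ c v ∈ Loc A p₀ :=
  fun δ hδ h => fun h1 => hv δ hδ h ((mir_shr h hc).1 h1)

/-- The contraction factor. -/
noncomputable def fac (p₀ : Pr n) (ε : ℝ) (s : ℝ) (v : Pr n) : ℝ :=
  (1 - s) * (ε / (ε + ‖v - p₀‖)) + s

theorem fac_pos (h0 : 0 < ε) {s : ℝ} (hs0 : 0 ≤ s) (hs1 : s ≤ 1) (v : Pr n) :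
    0 < fac p₀ ε s v := by
  unfold fac
  have h1 : 0 < ε / (ε + ‖v - p₀‖) := by positivity
  rcases hs0.eq_or_lt with h | h
  · rw [← h]
    linarith
  · have : 0 ≤ (1 - s) * (ε / (ε + ‖v - p₀‖)) := mul_nonneg (by linarith) h1.le
    linarith

theorem fac_le (h0 : 0 < ε) {s : ℝ} (hs1 : s ≤ 1) (v : Pr n) : fac p₀ ε s v ≤ 1 := by
  unfold fac
  have h1 : ε / (ε + ‖v - p₀‖) ≤ 1 := by
    rw [div_le_one (by positivity)]
    linarith [norm_nonneg (v - p₀)]
  have := mul_le_mul_of_nonneg_left h1 (show 0 ≤ 1 - s by linarith)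
  linarith

theorem fac_cont (h0 : 0 < ε) : Continuous fun z : ℝ × Pr n => fac p₀ ε z.1 z.2 := by
  unfold fac
  have h1 : ∀ z : ℝ × Pr n, ε + ‖z.2 - p₀‖ ≠ 0 := fun z => by positivity
  exact ((continuous_const.sub continuous_fst).mul (continuous_const.div
    (continuous_const.add ((continuous_snd.sub continuous_const).norm)) h1)).add continuous_fst

theorem shr_ball (h0 : 0 < ε) (v : Pr n) : shr p₀ (fac p₀ ε 0 v) v ∈ Metric.ball p₀ ε := by
  rw [mem_ball_iff_norm]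
  unfold shr fac
  rw [add_sub_cancel_left, norm_smul, sub_zero, one_mul, add_zero, Real.norm_eq_abs,
    abs_of_pos (by positivity), div_mul_eq_mul_div, div_lt_iff₀ (by positivity)]
  nlinarith [norm_nonneg (v - p₀)]

theorem shr_ball' {c : ℝ} (hc : 0 < c) (hc1 : c ≤ 1) {v : Pr n} (hv : v ∈ Metric.ball p₀ ε) :
    shr p₀ c v ∈ Metric.ball p₀ ε := by
  rw [mem_ball_iff_norm] at hv ⊢
  unfold shr
  rw [add_sub_cancel_left, norm_smul, Real.norm_eq_abs, abs_of_pos hc]
  nlinarith [norm_nonneg (v - p₀)]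

theorem shr_cont (h0 : 0 < ε) : Continuous fun z : ℝ × Pr n => shr p₀ (fac p₀ ε z.1 z.2) z.2 := by
  unfold shr
  exact continuous_const.add ((fac_cont h0).smul (continuous_snd.sub continuous_const))

/-- The small ball off the mirrors is homotopy equivalent to the complement of the mirrors
through `p₀`. -/
noncomputable def hequiv (hε : SmallR A p₀ ε) :
    ContinuousMap.HomotopyEquiv (LB A p₀ ε) (Loc A p₀) where
  toFun := ⟨fun v => ⟨v.1, P0_sub_Loc v.2.2⟩, Continuous.subtype_mk continuous_subtype_val _⟩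
  invFun := ⟨fun v => ⟨shr p₀ (fac p₀ ε 0 v.1) v.1, shr_ball hε.1 v.1,
      mem_P0 hε (shr_ball hε.1 v.1) (shr_Loc (fac_pos hε.1 le_rfl zero_le_one _).ne' v.2)⟩,
    Continuous.subtype_mk ((shr_cont hε.1).comp
      (continuous_const.prodMk continuous_subtype_val)) _⟩
  left_inv := by
    refine ⟨{ toFun := fun z => ⟨shr p₀ (fac p₀ ε z.1 z.2.1) z.2.1, ?_, ?_⟩
              continuous_toFun := ?_
              map_zero_left := ?_
              map_one_left := ?_ }⟩
    · exact shr_ball' (fac_pos hε.1 z.1.2.1 z.1.2.2 _) (fac_le hε.1 z.1.2.2 _) z.2.2.1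
    · exact mem_P0 hε (shr_ball' (fac_pos hε.1 z.1.2.1 z.1.2.2 _) (fac_le hε.1 z.1.2.2 _) z.2.2.1)
        (shr_Loc (fac_pos hε.1 z.1.2.1 z.1.2.2 _).ne' (P0_sub_Loc z.2.2.2))
    · exact Continuous.subtype_mk ((shr_cont hε.1).comp
        ((continuous_subtype_val.comp continuous_fst).prodMk
          (continuous_subtype_val.comp continuous_snd))) _
    · intro v
      rfl
    · intro v
      apply Subtype.ext
      change shr p₀ (fac p₀ ε 1 v.1) v.1 = v.1
      have h : fac p₀ ε 1 v.1 = 1 := by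
        unfold fac
        ring
      rw [h, shr_one]
  right_inv := by
    refine ⟨{ toFun := fun z => ⟨shr p₀ (fac p₀ ε z.1 z.2.1) z.2.1,
                shr_Loc (fac_pos hε.1 z.1.2.1 z.1.2.2 _).ne' z.2.2⟩
              continuous_toFun := ?_
              map_zero_left := ?_
              map_one_left := ?_ }⟩
    · exact Continuous.subtype_mk ((shr_cont hε.1).comp
        ((continuous_subtype_val.comp continuous_fst).prodMk
          (continuous_subtype_val.comp continuous_snd))) _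
    · intro v
      rfl
    · intro v
      apply Subtype.ext
      change shr p₀ (fac p₀ ε 1 v.1) v.1 = v.1
      have h : fac p₀ ε 1 v.1 = 1 := by
        unfold fac
        ring
      rw [h, shr_one]

theorem bij_loc (hε : SmallR A p₀ ε) (z : LB A p₀ ε) :
    Function.Bijective (FundamentalGroup.map (hequiv hε).toFun z) := by
  have h1 : (FundamentalGroupoid.map (hequiv hε).toFun).IsEquivalence :=
    (FundamentalGroupoidFunctor.equivOfHomotopyEquiv (hequiv hε)).isEquivalence_functor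
  exact ⟨fun a b h => (FundamentalGroupoid.map (hequiv hε).toFun).map_injective h,
    fun b => (FundamentalGroupoid.map (hequiv hε).toFun).map_surjective b⟩

end Pool.Agent.MPa8252b
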