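import Pool.Agent.Lib.MP_a8252b_ag.Loc
import Pool.Agent.Lib.MP_a8252b_ag.Aut

/-!
# Local fundamental groups are retracts
-/

namespace Pool.Agent.MPa8252b

open Matrix Topology unitInterval

variable {n : ℕ} {A : Matrix (Fin n) (Fin n) ℤ} {p₀ : Pr n} {ε : ℝ}

/-- The inclusion of the small ball off the mirrors. -/
def iB (A : Matrix (Fin n) (Fin n) ℤ) (p₀ : Pr n) (ε : ℝ) : C(LB A p₀ ε, Sp A ⊤) :=
  ⟨fun v => ⟨v.1, v.2.2⟩, Continuous.subtype_mk continuous_subtype_val _⟩

/-- The inclusion in the complement of the mirrors through `p₀`. -/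
def iL (A : Matrix (Fin n) (Fin n) ℤ) (p₀ : Pr n) : C(Sp A ⊤, Loc A p₀) :=
  ⟨fun v => ⟨v.1, P0_sub_Loc v.2⟩, Continuous.subtype_mk continuous_subtype_val _⟩

theorem disc_Loc {δ : Fin n → ℤ} {q : Pr n} {r : ℝ} (h : MDisc A (orthLat A p₀) δ q r) {w : ℂ}
    (hw : ‖w‖ ≤ r) : disc q δ w ∈ Loc A p₀ := by
  intro δ' hδ' h0
  refine (h.2.2.2 w hw).2 δ' hδ' ?_ ?_
  · rintro rfl
    exact h.2.1 h0
  · rintro rfl
    exact h.2.1 (mir_neg.1 h0)

/-- Meridians off `p₀` are contractible in the complement of the mirrors through `p₀`. -/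
theorem loc_mer {z : Sp A ⊤} (l : Path z z) (hl : Meridian A (orthLat A p₀) l) :
    (l.map (iL A p₀).continuous).Homotopic (Path.refl (iL A p₀ z)) := by
  obtain ⟨δ, q, c, hD, hc, hl⟩ := hl
  have key : ∀ s t : I, ((1 - (s : ℝ)) • (l t).1 + (s : ℝ) • z.1 : Pr n) ∈ Loc A p₀ := by
    intro s t
    have hz : z.1 = disc q δ (c * Complex.exp (((2 * Real.pi * ((0 : I) : ℝ) : ℝ) : ℂ) *
        Complex.I)) := by
      rw [← hl 0, l.source]
    rw [hl t, hz, disc_mix q δ _ _ (by ring)]
    refine disc_Loc hD ?_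
    have hn : ∀ x : ℝ, ‖c * Complex.exp ((x : ℂ) * Complex.I)‖ = ‖c‖ := by
      intro x
      rw [norm_mul, Complex.norm_exp_ofReal_mul_I, mul_one]
    refine (norm_add_le _ _).trans ?_
    rw [norm_mul, norm_mul ((s : ℝ) : ℂ), hn, hn, Complex.norm_real, Complex.norm_real,
      Real.norm_eq_abs, Real.norm_eq_abs, abs_of_nonneg (by linarith [s.2.2]),
      abs_of_nonneg s.2.1]
    have : (1 - (s : ℝ)) * ‖c‖ + (s : ℝ) * ‖c‖ = ‖c‖ := by ring
    exact this.le
  refine ⟨{ toFun := fun z' => ⟨(1 - (z'.1 : ℝ)) • (l z'.2).1 + (z'.1 : ℝ) • z.1, key z'.1 z'.2⟩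
            continuous_toFun := ?_
            map_zero_left := ?_
            map_one_left := ?_
            prop' := ?_ }⟩
  · have h1 : Continuous fun z' : I × I => (z'.1 : ℝ) := continuous_subtype_val.comp continuous_fst
    have h2 : Continuous fun z' : I × I => (l z'.2).1 :=
      continuous_subtype_val.comp (l.continuous.comp continuous_snd)
    exact Continuous.subtype_mk (((continuous_const.sub h1).smul h2).add
      (h1.smul continuous_const)) _
  · intro t
    apply Subtype.ext
    change (1 - ((0 : I) : ℝ)) • (l t).1 + ((0 : I) : ℝ) • z.1 = (l t).1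
    simp
  · intro t
    apply Subtype.ext
    change (1 - ((1 : I) : ℝ)) • (l t).1 + ((1 : I) : ℝ) • z.1 = z.1
    simp
  · intro s t ht
    apply Subtype.ext
    have h3 : (l t).1 = z.1 := by
      rcases ht with h | h
      · rw [h, l.source]
      · rw [Set.mem_singleton_iff.1 h, l.target]
    change (1 - (s : ℝ)) • (l t).1 + (s : ℝ) • z.1 = (l t).1
    rw [h3, ← add_smul]
    simp

theorem iL_mer {e : Sp A ⊤} {x : FundamentalGroup (Sp A ⊤) e} (hx : x ∈ mers A (orthLat A p₀) e) :
    FundamentalGroup.map (iL A p₀) e x = 1 := by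
  obtain ⟨w, c, l, hl, rfl⟩ := hx
  have h1 := Path.Homotopic.Quotient.eq.2 (loc_mer l hl)
  have h2 : ((Path.Homotopic.Quotient.mk ((c.trans l).trans c.symm)).map (iL A p₀) :
      Path.Homotopic.Quotient (iL A p₀ e) (iL A p₀ e)) =
      Path.Homotopic.Quotient.refl (iL A p₀ e) := by
    rw [← Path.Homotopic.Quotient.mk_map, Path.map_trans, Path.map_trans, ← Path.map_symm,
      Path.Homotopic.Quotient.mk_trans, Path.Homotopic.Quotient.mk_trans, h1,
      Path.Homotopic.Quotient.mk_refl, q_trans_refl, Path.Homotopic.Quotient.mk_symm,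
      q_trans_symm]
  exact h2

/-- The group of a simply connected covering maps onto the fundamental group of the complement of
the mirrors through `p₀`; there is a local right inverse, and meridian elements off `p₀` are
mapped to `1`. -/
theorem loc_core (hε : SmallR A p₀ ε) {e : Sp A ⊤} {S G : Type} [TopologicalSpace S]
    [SimplyConnectedSpace S] [Group G] [MulAction G S] {p : S → pathComponent e}
    (hp : IsQuotientCoveringMap p G) (s : S) (hs : (p s).1.1 ∈ Metric.ball p₀ ε) :
    ∃ (ρ : G →* FundamentalGroup (Loc A p₀) ⟨(p s).1.1, P0_sub_Loc (p s).1.2⟩)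
      (θ : FundamentalGroup (Loc A p₀) ⟨(p s).1.1, P0_sub_Loc (p s).1.2⟩ →* G),
      (∀ (g : G) (m : Path s (g • s)) (l : Path (⟨(p s).1.1, P0_sub_Loc (p s).1.2⟩ : Loc A p₀)
          ⟨(p s).1.1, P0_sub_Loc (p s).1.2⟩), (∀ t, (l t).1 = (p (m t)).1.1) →
        ρ g⁻¹ = FundamentalGroup.fromPath (Path.Homotopic.Quotient.mk l)) ∧
      (∀ x, ρ (θ x) = x) ∧
      (∀ x, ∃ m : Path s ((θ x)⁻¹ • s), ∀ t, (p (m t)).1.1 ∈ Metric.ball p₀ ε) ∧
      ∀ g ∈ merEl A (orthLat A p₀) G p, ρ g = 1 := by
  let z : LB A p₀ ε := ⟨(p s).1.1, hs, (p s).1.2⟩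
  let D : FundamentalGroup (pathComponent e) (p s) ≃* G :=
    MulEquiv.ofBijective (deck hp s) ⟨deck_injective hp s, deck_surjective hp s⟩
  let J : FundamentalGroup (pathComponent e) (p s) ≃* FundamentalGroup (Sp A ⊤) (p s).1 :=
    MulEquiv.ofBijective (FundamentalGroup.map (inc e) (p s))
      ⟨inc_injective (p s), inc_surjective (p s)⟩
  let K : FundamentalGroup (LB A p₀ ε) z ≃*
      FundamentalGroup (Loc A p₀) ⟨(p s).1.1, P0_sub_Loc (p s).1.2⟩ :=
    MulEquiv.ofBijective (FundamentalGroup.map (hequiv hε).toFun z) (bij_loc hε z)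
  let B : FundamentalGroup (LB A p₀ ε) z →* FundamentalGroup (Sp A ⊤) (p s).1 :=
    FundamentalGroup.map (iB A p₀ ε) z
  let L : FundamentalGroup (Sp A ⊤) (p s).1 →*
      FundamentalGroup (Loc A p₀) ⟨(p s).1.1, P0_sub_Loc (p s).1.2⟩ :=
    FundamentalGroup.map (iL A p₀) (p s).1
  have hLB : ∀ y, L (B y) = K y := by
    intro y
    obtain ⟨γ, rfl⟩ := Path.Homotopic.Quotient.mk_surjective (X := LB A p₀ ε) y
    rfl
  have hdeck : ∀ (g : G) (m : Path s (g • s)) (hg : p s = p (g • s)),
      D (FundamentalGroup.fromPath (Path.Homotopic.Quotient.mk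
        ((m.map hp.continuous).cast rfl hg))) = g⁻¹ := by
    intro g m hg
    have h1 := deck_eq hp (Path.refl s) m ((m.map hp.continuous).cast rfl hg) fun t => rfl
    have h2 : Path.Homotopic.Quotient.mk ((((Path.refl s).map hp.continuous).trans
        ((m.map hp.continuous).cast rfl hg)).trans
        ((Path.refl s).map hp.continuous).symm) =
        Path.Homotopic.Quotient.mk ((m.map hp.continuous).cast rfl hg) := by
      have h3 : (Path.refl s).map hp.continuous = Path.refl (p s) := Path.ext rfl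
      rw [h3, Path.refl_symm]
      simp only [Path.Homotopic.Quotient.mk_trans, Path.Homotopic.Quotient.mk_refl]
      rw [q_refl_trans, q_trans_refl]
    rw [h2] at h1
    exact h1
  let ρ : G →* FundamentalGroup (Loc A p₀) ⟨(p s).1.1, P0_sub_Loc (p s).1.2⟩ :=
    L.comp (J.toMonoidHom.comp D.symm.toMonoidHom)
  let θ : FundamentalGroup (Loc A p₀) ⟨(p s).1.1, P0_sub_Loc (p s).1.2⟩ →* G :=
    (D.toMonoidHom.comp J.symm.toMonoidHom).comp (B.comp K.symm.toMonoidHom)
  refine ⟨ρ, θ, ?_, ?_, ?_, ?_⟩
  · intro g m l hl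
    have hg : p (g • s) = p s := hp.map_smul g
    have h1 := hdeck g m hg.symm
    have h2 : D.symm g⁻¹ = FundamentalGroup.fromPath (Path.Homotopic.Quotient.mk
        ((m.map hp.continuous).cast rfl hg.symm)) := by
      rw [MulEquiv.symm_apply_eq, h1]
    have h3 : L (J (FundamentalGroup.fromPath (Path.Homotopic.Quotient.mk
        ((m.map hp.continuous).cast rfl hg.symm)))) =
        FundamentalGroup.fromPath (Path.Homotopic.Quotient.mk l) := by
      have h5 : ((((m.map hp.continuous).cast rfl hg.symm).map (inc e).continuous).map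
          (iL A p₀).continuous : Path (⟨(p s).1.1, P0_sub_Loc (p s).1.2⟩ : Loc A p₀)
            ⟨(p s).1.1, P0_sub_Loc (p s).1.2⟩) = l := by
        apply Path.ext
        funext t
        apply Subtype.ext
        exact (hl t).symm
      change Path.Homotopic.Quotient.mk ((((m.map hp.continuous).cast rfl hg.symm).map
        (inc e).continuous).map (iL A p₀).continuous) = Path.Homotopic.Quotient.mk l
      exact congrArg Path.Homotopic.Quotient.mk h5
    change L (J (D.symm g⁻¹)) = _
    rw [h2]
    exact h3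
  · intro x
    change L (J (D.symm (D (J.symm (B (K.symm x)))))) = x
    rw [MulEquiv.symm_apply_apply, MulEquiv.apply_symm_apply, hLB, MulEquiv.apply_symm_apply]
  · intro x
    obtain ⟨γ, hγ⟩ := Path.Homotopic.Quotient.mk_surjective (X := LB A p₀ ε) (K.symm x)
    -- the loop in the path component
    have hmem : ∀ t, iB A p₀ ε (γ t) ∈ pathComponent e :=
      mem_pc ((iB A p₀ ε).continuous.comp γ.continuous) (y₀ := (0 : I)) (by
        rw [γ.source]
        exact (p s).2)
    let l : Path (p s) (p s) :=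
      { toFun := fun t => ⟨iB A p₀ ε (γ t), hmem t⟩
        continuous_toFun := Continuous.subtype_mk ((iB A p₀ ε).continuous.comp γ.continuous) _
        source' := by
          apply Subtype.ext
          change iB A p₀ ε (γ 0) = (p s).1
          rw [γ.source]
          rfl
        target' := by
          apply Subtype.ext
          change iB A p₀ ε (γ 1) = (p s).1
          rw [γ.target]
          rfl }
    obtain ⟨s', l', hl'⟩ : ∃ (s' : S) (l' : Path s s'), ∀ t, p (l' t) = l t :=
      ⟨_, ⟨hp.isCoveringMap.liftPath (l : C(I, pathComponent e)) s l.source,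
        hp.isCoveringMap.liftPath_zero _ _ _, rfl⟩,
        fun t => congrFun (hp.isCoveringMap.liftPath_lifts (l : C(I, pathComponent e)) s
          l.source) t⟩
    have hs' : p s' = p s := by
      have := hl' 1
      rwa [l'.target, l.target] at this
    obtain ⟨g, rfl⟩ := hp.apply_eq_iff_mem_orbit.1 hs'
    have h1 := hdeck g l' (hp.map_smul g).symm
    have h2 : (l'.map hp.continuous).cast rfl (hp.map_smul g).symm = l := by
      apply Path.ext
      funext t
      exact hl' t
    rw [h2] at h1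
    have h3 : θ x = g⁻¹ := by
      change D (J.symm (B (K.symm x))) = g⁻¹
      rw [← h1]
      refine congrArg D ?_
      rw [MulEquiv.symm_apply_eq]
      rw [← hγ]
      rfl
    rw [h3, inv_inv]
    refine ⟨l', fun t => ?_⟩
    rw [hl' t]
    exact (γ t).2.1
  · intro g hg
    rw [← moved_eq hp] at hg
    obtain ⟨x, hx, h⟩ := exists_class hp s hg
    have h1 : D.symm g = x⁻¹ := by
      rw [MulEquiv.symm_apply_eq, map_inv]
      change g = (deck hp s x)⁻¹
      rw [h, inv_inv]
    change L (J (D.symm g)) = 1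
    rw [h1, map_inv, map_inv]
    have h2 : J x ∈ mers A (orthLat A p₀) (p s).1 := by
      have h3 : FundamentalGroup.map (inc e) (p s) x ∈
          (FundamentalGroup.map (inc e) (p s)) '' (classes (MC (orthLat A p₀) e) (p s)) :=
        ⟨x, hx, rfl⟩
      have h4 := inc_classes (fun z l => Meridian A (orthLat A p₀) l) (p s)
      have h5 : FundamentalGroup.map (inc e) (p s) x ∈ mers A (orthLat A p₀) (p s).1 := by
        change _ = mers A (orthLat A p₀) (p s).1 at h4
        rw [← h4]
        exact h3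
      exact h5
    rw [show L (J x) = 1 from iL_mer h2, inv_one]

end Pool.Agent.MPa8252b
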