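import Pool.Agent.Lib.MP_a8252b_ag.Proj

/-!
# Surjectivity on fundamental groups
-/

namespace Pool.Agent.MPa8252b

open Matrix Filter Topology

variable {n : ℕ}

section

variable {A : Matrix (Fin n) (Fin n) ℤ} (hA : A.IsSymm) (hs : Sig2 A)
  {N' : AddSubgroup (Fin n → ℤ)} (hN : HasPos A N') {π : (Fin n → ℝ) →ₗ[ℝ] (Fin n → ℝ)}
  (hπ : IsProj A N' π)

/-- the bump function -/
noncomputable def bump (η t : ℝ) : ℝ := max 0 (max (1 - t / η) (1 - (1 - t) / η))

theorem bump_cont (η : ℝ) : Continuous (bump η) := by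
  unfold bump
  fun_prop

theorem bump_nonneg (η t : ℝ) : 0 ≤ bump η t := le_max_left _ _

theorem bump_le {η t : ℝ} (hη : 0 < η) (h0 : 0 ≤ t) (h1 : t ≤ 1) : bump η t ≤ 1 := by
  unfold bump
  refine max_le zero_le_one (max_le ?_ ?_)
  · have : 0 ≤ t / η := by positivity
    linarith
  · have : 0 ≤ (1 - t) / η := div_nonneg (by linarith) hη.le
    linarith

theorem bump_zero {η : ℝ} (hη : 0 < η) : bump η 0 = 1 := by
  refine le_antisymm (bump_le hη le_rfl zero_le_one) ?_
  unfold bump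
  refine le_trans ?_ (le_max_right _ _)
  refine le_trans ?_ (le_max_left _ _)
  simp

theorem bump_one {η : ℝ} (hη : 0 < η) : bump η 1 = 1 := by
  refine le_antisymm (bump_le hη zero_le_one le_rfl) ?_
  unfold bump
  refine le_trans ?_ (le_max_right _ _)
  refine le_trans ?_ (le_max_right _ _)
  simp

theorem bump_mid {η t : ℝ} (hη : 0 < η) (h0 : η ≤ t) (h1 : η ≤ 1 - t) : bump η t = 0 := by
  unfold bump
  refine max_eq_left (max_le ?_ ?_)
  · rw [sub_nonpos, le_div_iff₀ hη]
    linarith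
  · rw [sub_nonpos, le_div_iff₀ hη]
    linarith

include hA hs hN hπ

/-- A loop in the small space is the projection of a loop in the big space minus the mirrors of
`N'`. -/
theorem lift_loop {e : (Fin n → ℝ) × (Fin n → ℝ)} (he : e ∈ Good A N')
    (g : ℝ → (Fin n → ℝ) × (Fin n → ℝ)) (hg : Continuous g) (hgP : ∀ t, g t ∈ P0 A N')
    (hg0 : g 0 = (π e.1, π e.2)) (hg1 : g 1 = (π e.1, π e.2)) :
    ∃ h : ℝ → (Fin n → ℝ) × (Fin n → ℝ), Continuous h ∧ h 0 = e ∧ h 1 = e ∧
      (∀ t ∈ Set.Icc (0 : ℝ) 1, h t ∈ Good A N') ∧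
      ∀ t, (π (h t).1, π (h t).2) = g t := by
  set m : (Fin n → ℝ) × (Fin n → ℝ) := (e.1 - π e.1, e.2 - π e.2) with hm
  have hem : (π e.1, π e.2) + m = e := by
    rw [hm]
    refine Prod.ext ?_ ?_
    · change π e.1 + (e.1 - π e.1) = e.1
      abel
    · change π e.2 + (e.2 - π e.2) = e.2
      abel
  have hseg : ∀ l ∈ Set.Icc (0 : ℝ) 1, (π e.1, π e.2) + l • m ∈ Good A N' := fun l hl =>
    seg_good hA hs hN hπ he hl.1 hl.2
  have hopen := isOpen_good hA hs N'
  have htube : ∀ t₀ : ℝ, g t₀ = (π e.1, π e.2) →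
      ∀ᶠ t in 𝓝 t₀, ∀ l ∈ Set.Icc (0 : ℝ) 1, g t + l • m ∈ Good A N' := by
    intro t₀ ht₀
    refine isCompact_Icc.eventually_forall_of_forall_eventually fun l hl => ?_
    have hc : Continuous fun z : ℝ × ℝ => g z.1 + z.2 • m := by fun_prop
    refine hc.continuousAt.preimage_mem_nhds (hopen.mem_nhds ?_)
    change g t₀ + l • m ∈ Good A N'
    rw [ht₀]
    exact hseg l hl
  obtain ⟨η₀, hη₀, h0⟩ := Metric.eventually_nhds_iff.1 (htube 0 hg0)
  obtain ⟨η₁, hη₁, h1⟩ := Metric.eventually_nhds_iff.1 (htube 1 hg1)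
  set η := min η₀ η₁ with hη
  have hηpos : 0 < η := lt_min hη₀ hη₁
  refine ⟨fun t => g t + bump η t • m, ?_, ?_, ?_, ?_, ?_⟩
  · have := bump_cont η
    fun_prop
  · change g 0 + bump η 0 • m = e
    rw [bump_zero hηpos, one_smul, hg0, hem]
  · change g 1 + bump η 1 • m = e
    rw [bump_one hηpos, one_smul, hg1, hem]
  · intro t ht
    have hb : bump η t ∈ Set.Icc (0 : ℝ) 1 := ⟨bump_nonneg η t, bump_le hηpos ht.1 ht.2⟩
    by_cases c0 : t < η
    · refine h0 ?_ _ hb
      rw [Real.dist_eq, sub_zero, abs_of_nonneg ht.1]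
      exact c0.trans_le (min_le_left _ _)
    · by_cases c1 : 1 - t < η
      · refine h1 ?_ _ hb
        rw [dist_comm, Real.dist_eq, abs_of_nonneg (by linarith [ht.2])]
        exact c1.trans_le (min_le_right _ _)
      · change g t + bump η t • m ∈ Good A N'
        rw [bump_mid hηpos (not_lt.1 c0) (not_lt.1 c1), zero_smul, add_zero]
        exact P0_subset_Good A N' (hgP t)
  · intro t
    have k1 : ∀ x : Fin n → ℝ, π (x - π x) = 0 := by
      intro x
      rw [map_sub, proj_eq hA hs hN hπ (hπ.1 x), sub_self]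
    refine Prod.ext ?_ ?_
    · change π ((g t).1 + bump η t • (e.1 - π e.1)) = (g t).1
      rw [map_add, map_smul, k1, smul_zero, add_zero, proj_eq hA hs hN hπ (hgP t).1]
    · change π ((g t).2 + bump η t • (e.2 - π e.2)) = (g t).2
      rw [map_add, map_smul, k1, smul_zero, add_zero, proj_eq hA hs hN hπ (hgP t).2.1]

/-- Every loop at the projection of `e` is homotopic to the projection of a loop at `e`. -/
theorem loop_surj (e : P0 A ⊤) (γ : Path (F hA hs hN hπ e) (F hA hs hN hπ e)) :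
    ∃ γ' : Path e e, (γ'.map (F hA hs hN hπ).continuous).Homotopic γ := by
  set g : ℝ → (Fin n → ℝ) × (Fin n → ℝ) := fun t => (γ.extend t : (Fin n → ℝ) × (Fin n → ℝ))
    with hgdef
  have hgc : Continuous g := continuous_subtype_val.comp γ.continuous_extend
  have hg0 : g 0 = (π e.1.1, π e.1.2) := by
    change ((γ.extend 0 : P0 A N') : (Fin n → ℝ) × (Fin n → ℝ)) = _
    rw [γ.extend_zero]
    rfl
  have hg1 : g 1 = (π e.1.1, π e.1.2) := by
    change ((γ.extend 1 : P0 A N') : (Fin n → ℝ) × (Fin n → ℝ)) = _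
    rw [γ.extend_one]
    rfl
  obtain ⟨h, hc, h0, h1, hgood, hproj⟩ := lift_loop hA hs hN hπ (P0_top_subset A N' e.2) g hgc
    (fun t => (γ.extend t).2) hg0 hg1
  -- room around the loop
  have hK : IsCompact (h '' Set.Icc 0 1) := isCompact_Icc.image hc
  obtain ⟨ε, hε, hthick⟩ := hK.exists_thickening_subset_open (isOpen_good hA hs N')
    (by rintro _ ⟨t, ht, rfl⟩; exact hgood t ht)
  have hnear : ∀ t ∈ Set.Icc (0 : ℝ) 1, ∀ z, ‖z - h t‖ < ε → z ∈ Good A N' := by
    intro t ht z hz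
    refine hthick ?_
    rw [Metric.mem_thickening_iff]
    exact ⟨h t, ⟨t, ht, rfl⟩, by rw [dist_eq_norm]; exact hz⟩
  obtain ⟨q, hqc, hq0, hq1, hqh, hqr⟩ := push (A := A) h hc.continuousOn hε
    (by rw [h0]; exact fun δ hδ => e.2.2.2.2 δ (AddSubgroup.mem_top δ) hδ)
    (by rw [h1]; exact fun δ hδ => e.2.2.2.2 δ (AddSubgroup.mem_top δ) hδ)
  rw [h0] at hq0
  rw [h1] at hq1
  have hqP : ∀ t : unitInterval, q t ∈ P0 A ⊤ := by
    intro t
    refine ⟨?_, ?_, (hnear t t.2 _ (hqh t t.2)).1, fun δ _ hδ => hqr t t.2 δ hδ⟩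
    · rw [rspan_top]
      trivial
    · rw [rspan_top]
      trivial
  let γ' : Path e e :=
    { toFun := fun t => ⟨q t, hqP t⟩
      continuous_toFun := Continuous.subtype_mk (hqc.comp continuous_subtype_val) _
      source' := Subtype.ext hq0
      target' := Subtype.ext hq1 }
  refine ⟨γ', ?_⟩
  -- the homotopy
  have hmix : ∀ (s t : unitInterval), (1 - (s : ℝ)) • q t + (s : ℝ) • h t ∈ Good A N' := by
    intro s t
    refine hnear t t.2 _ ?_
    have e1 : (1 - (s : ℝ)) • q t + (s : ℝ) • h t - h t = (1 - (s : ℝ)) • (q t - h t) := by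
      module
    rw [e1, norm_smul, Real.norm_of_nonneg (by linarith [s.2.2])]
    have e2 := hqh t t.2
    have e3 := norm_nonneg (q t - h t)
    nlinarith [s.2.1, s.2.2]
  have hπc : Continuous π := LinearMap.continuous_of_finiteDimensional π
  let H : unitInterval × unitInterval → P0 A N' := fun z =>
    ⟨(π ((1 - (z.1 : ℝ)) • q z.2 + (z.1 : ℝ) • h z.2).1,
      π ((1 - (z.1 : ℝ)) • q z.2 + (z.1 : ℝ) • h z.2).2),
      proj_mem hA hs hN hπ (hmix z.1 z.2)⟩
  have hHc : Continuous H := by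
    refine Continuous.subtype_mk ?_ _
    have e1 : Continuous fun z : unitInterval × unitInterval =>
        (1 - (z.1 : ℝ)) • q z.2 + (z.1 : ℝ) • h z.2 := by fun_prop
    exact (hπc.comp (continuous_fst.comp e1)).prodMk (hπc.comp (continuous_snd.comp e1))
  have hend : ∀ (s : unitInterval) (t : unitInterval), q t = e.1 → h t = e.1 →
      H (s, t) = F hA hs hN hπ e := by
    intro s t hq' hh'
    apply Subtype.ext
    change (π ((1 - (s : ℝ)) • q t + (s : ℝ) • h t).1,
      π ((1 - (s : ℝ)) • q t + (s : ℝ) • h t).2) = (π e.1.1, π e.1.2)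
    have e1 : (1 - (s : ℝ)) • q t + (s : ℝ) • h t = e.1 := by
      rw [hq', hh']
      module
    rw [e1]
  refine ⟨{ toFun := H
            continuous_toFun := hHc
            map_zero_left := ?_
            map_one_left := ?_
            prop' := ?_ }⟩
  · intro t
    apply Subtype.ext
    change (π ((1 - (((0 : unitInterval) : ℝ))) • q t + ((0 : unitInterval) : ℝ) • h t).1,
      π ((1 - (((0 : unitInterval) : ℝ))) • q t + ((0 : unitInterval) : ℝ) • h t).2) =
      (π (q t).1, π (q t).2)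
    have e1 : (1 - (((0 : unitInterval) : ℝ))) • q t + ((0 : unitInterval) : ℝ) • h t = q t := by
      rw [Set.Icc.coe_zero]
      module
    rw [e1]
  · intro t
    apply Subtype.ext
    change (π ((1 - (((1 : unitInterval) : ℝ))) • q t + ((1 : unitInterval) : ℝ) • h t).1,
      π ((1 - (((1 : unitInterval) : ℝ))) • q t + ((1 : unitInterval) : ℝ) • h t).2) =
      ((γ t : P0 A N') : (Fin n → ℝ) × (Fin n → ℝ))
    have e1 : (1 - (((1 : unitInterval) : ℝ))) • q t + ((1 : unitInterval) : ℝ) • h t = h t := by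
      rw [Set.Icc.coe_one]
      module
    rw [e1, hproj t]
    change ((γ.extend (t : ℝ) : P0 A N') : (Fin n → ℝ) × (Fin n → ℝ)) = _
    rw [Path.extend_apply γ t.2]
  · intro s t ht
    rcases ht with rfl | ht
    · change H (s, 0) = F hA hs hN hπ (γ' 0)
      rw [γ'.source]
      exact hend s 0 hq0 h0
    · rw [Set.mem_singleton_iff] at ht
      subst ht
      change H (s, 1) = F hA hs hN hπ (γ' 1)
      rw [γ'.target]
      exact hend s 1 hq1 h1

end

end Pool.Agent.MPa8252b
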