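import Pool.Agent.Lib.MP_a8252b_ag.Disc

/-!
# Loops in a meridian disc are powers of a meridian
-/

namespace Pool.Agent.MPa8252b

open Matrix Filter Topology unitInterval

variable {n : ℕ} {A : Matrix (Fin n) (Fin n) ℤ} {N' : AddSubgroup (Fin n → ℤ)}

theorem norm_exp_mix {r : ℝ} {a b : ℂ} (ha : ‖Complex.exp a‖ ≤ r) (hb : ‖Complex.exp b‖ ≤ r)
    {s : ℝ} (h0 : 0 ≤ s) (h1 : s ≤ 1) : ‖Complex.exp (((1 - s : ℝ) : ℂ) * a + (s : ℂ) * b)‖ ≤ r := by
  rw [Complex.norm_exp] at ha hb ⊢
  have hr : 0 < r := lt_of_lt_of_le (Real.exp_pos _) ha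
  rw [← Real.le_log_iff_exp_le hr] at ha hb ⊢
  rw [Complex.add_re, Complex.re_ofReal_mul, Complex.re_ofReal_mul]
  nlinarith

theorem exp_turn (a : ℂ) (x : ℝ) : Complex.exp (a + (x : ℂ) * (2 * Real.pi * Complex.I)) =
    Complex.exp a * Complex.exp (((2 * Real.pi * x : ℝ) : ℂ) * Complex.I) := by
  rw [← Complex.exp_add]
  congr 1
  push_cast
  ring

theorem norm_exp_turn (a : ℂ) (x : ℝ) :
    ‖Complex.exp (a + (x : ℂ) * (2 * Real.pi * Complex.I))‖ = ‖Complex.exp a‖ := by
  rw [exp_turn, norm_mul, Complex.norm_exp_ofReal_mul_I, mul_one]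

/-- A loop in a meridian disc, off the centre, is a power of a meridian. -/
theorem mem_of_lift {z : Sp A ⊤} (l : Path z z) {δ : Fin n → ℤ} {p : Pr n} {r : ℝ}
    (h : MDisc A N' δ p r) (a : C(I, ℂ)) (ha : ∀ t, (l t).1 = disc p δ (Complex.exp (a t)))
    (hr : ∀ t, ‖Complex.exp (a t)‖ ≤ r) (k : ℤ)
    (hk : a 1 = a 0 + ((k : ℝ) : ℂ) * (2 * Real.pi * Complex.I)) :
    (FundamentalGroup.fromPath (Path.Homotopic.Quotient.mk l) : FundamentalGroup (Sp A ⊤) z) ∈
      Subgroup.closure (mers A N' z) := by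
  obtain ⟨γ, hγv⟩ : ∃ γ : ℝ → Sp A ⊤, ∀ x, (γ x).1 =
      disc p δ (Complex.exp (a 0 + (x : ℂ) * (2 * Real.pi * Complex.I))) :=
    ⟨fun x => ⟨disc p δ (Complex.exp (a 0 + (x : ℂ) * (2 * Real.pi * Complex.I))),
      disc_mem h (by rw [norm_exp_turn]; exact hr 0) (Complex.exp_ne_zero _)⟩, fun _ => rfl⟩
  have hγ : Continuous γ := by
    rw [continuous_induced_rng]
    have e : (Subtype.val ∘ γ) = fun x : ℝ =>
        disc p δ (Complex.exp (a 0 + (x : ℂ) * (2 * Real.pi * Complex.I))) := funext hγv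
    rw [e]
    refine (continuous_disc p δ).comp (Complex.continuous_exp.comp ?_)
    exact continuous_const.add (Complex.continuous_ofReal.mul continuous_const)
  have hp : ∀ x, γ (x + 1) = γ x := by
    intro x
    apply Subtype.ext
    rw [hγv, hγv]
    congr 1
    have e : a 0 + ((x + 1 : ℝ) : ℂ) * (2 * Real.pi * Complex.I) =
        (a 0 + (x : ℂ) * (2 * Real.pi * Complex.I)) + 2 * Real.pi * Complex.I := by
      push_cast
      ring
    rw [e, Complex.exp_add _ (2 * Real.pi * Complex.I), Complex.exp_two_pi_mul_I, mul_one]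
  have h0 : γ 0 = z := by
    apply Subtype.ext
    rw [hγv, Complex.ofReal_zero, zero_mul, add_zero, ← ha 0, l.source]
  subst h0
  -- the loop is homotopic to the `k`-th power
  have hom : l.Homotopic (per hγ hp k) := by
    have hn : ∀ s t : I, ‖Complex.exp (((1 - (s : ℝ) : ℝ) : ℂ) * a t +
        ((s : ℝ) : ℂ) * (a 0 + (((k : ℝ) * (t : ℝ) : ℝ) : ℂ) *
          (2 * Real.pi * Complex.I)))‖ ≤ r := by
      intro s t
      refine norm_exp_mix (hr t) ?_ s.2.1 s.2.2
      rw [norm_exp_turn]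
      exact hr 0
    let H : I × I → Sp A ⊤ := fun u => ⟨disc p δ (Complex.exp (((1 - (u.1 : ℝ) : ℝ) : ℂ) * a u.2 +
        ((u.1 : ℝ) : ℂ) * (a 0 + (((k : ℝ) * (u.2 : ℝ) : ℝ) : ℂ) *
          (2 * Real.pi * Complex.I)))), disc_mem h (hn u.1 u.2) (Complex.exp_ne_zero _)⟩
    have hHc : Continuous H := by
      refine Continuous.subtype_mk ?_ _
      refine (continuous_disc p δ).comp (Complex.continuous_exp.comp ?_)
      have e1 : Continuous fun u : I × I => a u.2 := a.continuous.comp continuous_snd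
      have e2 : Continuous fun u : I × I => ((1 - (u.1 : ℝ) : ℝ) : ℂ) :=
        Complex.continuous_ofReal.comp
          (continuous_const.sub (continuous_subtype_val.comp continuous_fst))
      have e3 : Continuous fun u : I × I => ((u.1 : ℝ) : ℂ) :=
        Complex.continuous_ofReal.comp (continuous_subtype_val.comp continuous_fst)
      have e4 : Continuous fun u : I × I => (((k : ℝ) * (u.2 : ℝ) : ℝ) : ℂ) :=
        Complex.continuous_ofReal.comp
          (continuous_const.mul (continuous_subtype_val.comp continuous_snd))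
      exact (e2.mul e1).add (e3.mul (continuous_const.add (e4.mul continuous_const)))
    refine ⟨{ toFun := H
              continuous_toFun := hHc
              map_zero_left := ?_
              map_one_left := ?_
              prop' := ?_ }⟩
    · intro t
      apply Subtype.ext
      change disc p δ (Complex.exp (((1 - ((0 : I) : ℝ) : ℝ) : ℂ) * a t +
        (((0 : I) : ℝ) : ℂ) * (a 0 + (((k : ℝ) * (t : ℝ) : ℝ) : ℂ) *
          (2 * Real.pi * Complex.I)))) = (l t).1
      rw [ha t, Set.Icc.coe_zero]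
      congr 2
      push_cast
      ring
    · intro t
      apply Subtype.ext
      change disc p δ (Complex.exp (((1 - ((1 : I) : ℝ) : ℝ) : ℂ) * a t +
        (((1 : I) : ℝ) : ℂ) * (a 0 + (((k : ℝ) * (t : ℝ) : ℝ) : ℂ) *
          (2 * Real.pi * Complex.I)))) = (γ (k * (t : ℝ))).1
      rw [hγv, Set.Icc.coe_one]
      congr 2
      push_cast
      ring
    · intro s t ht
      rcases ht with rfl | ht
      · apply Subtype.ext
        change disc p δ (Complex.exp (((1 - (s : ℝ) : ℝ) : ℂ) * a 0 +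
          ((s : ℝ) : ℂ) * (a 0 + (((k : ℝ) * ((0 : I) : ℝ) : ℝ) : ℂ) *
            (2 * Real.pi * Complex.I)))) = (l 0).1
        rw [ha 0, Set.Icc.coe_zero]
        congr 2
        push_cast
        ring
      · rw [Set.mem_singleton_iff] at ht
        subst ht
        apply Subtype.ext
        change disc p δ (Complex.exp (((1 - (s : ℝ) : ℝ) : ℂ) * a 1 +
          ((s : ℝ) : ℂ) * (a 0 + (((k : ℝ) * ((1 : I) : ℝ) : ℝ) : ℂ) *
            (2 * Real.pi * Complex.I)))) = (l 1).1
        rw [ha 1, Set.Icc.coe_one, mul_one, ← hk]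
        congr 2
        push_cast
        ring
  have hmer : Meridian A N' (per hγ hp 1) := by
    refine ⟨δ, p, Complex.exp (a 0), ?_, Complex.exp_ne_zero _, ?_⟩
    · obtain ⟨h1, h2, h3, h4⟩ := h
      exact ⟨h1, h2, h3, fun w hw => h4 w (hw.trans (hr 0))⟩
    · intro t
      change (γ (((1 : ℤ) : ℝ) * (t : ℝ))).1 = _
      rw [hγv, exp_turn, Int.cast_one, one_mul]
  have h5 := Path.Homotopic.Quotient.eq.2 hom
  rw [h5, per_zpow]
  exact Subgroup.zpow_mem _ (mer_mem _ hmer) k

end Pool.Agent.MPa8252b
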