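import Pool.Agent.Lib.MP_a8252b_ag.Mer1

/-!
# Small loops are products of meridians, up to conjugation by a path
-/

namespace Pool.Agent.MPa8252b

open Matrix Filter Topology unitInterval

variable {n : ℕ} {A : Matrix (Fin n) (Fin n) ℤ} {N' : AddSubgroup (Fin n → ℤ)}

/-- A loop in a ball which meets no mirror is contractible. -/
theorem small_null {z : Sp A ⊤} (l : Path z z) {w : Pr n} {r : ℝ}
    (hB : Metric.ball w r ⊆ P0 A ⊤) (hl : ∀ t, (l t).1 ∈ Metric.ball w r) :
    l.Homotopic (Path.refl z) := by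
  have hz : z.1 ∈ Metric.ball w r := by
    have := hl 0
    rwa [l.source] at this
  let H : I × I → Sp A ⊤ := fun u => ⟨(1 - (u.1 : ℝ)) • (l u.2).1 + (u.1 : ℝ) • z.1,
    hB (convex_ball w r (hl u.2) hz (by linarith [u.1.2.2]) u.1.2.1 (by ring))⟩
  have hHc : Continuous H := by
    refine Continuous.subtype_mk ?_ _
    have e0 : Continuous fun u : I × I => (l u.2).1 :=
      continuous_subtype_val.comp (l.continuous.comp continuous_snd)
    fun_prop
  have hend : ∀ s t : I, (l t).1 = z.1 → H (s, t) = z := by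
    intro s t ht
    apply Subtype.ext
    change (1 - (s : ℝ)) • (l t).1 + (s : ℝ) • z.1 = z.1
    rw [ht]
    module
  refine ⟨{ toFun := H
            continuous_toFun := hHc
            map_zero_left := ?_
            map_one_left := ?_
            prop' := ?_ }⟩
  · intro t
    apply Subtype.ext
    change (1 - (((0 : I) : ℝ))) • (l t).1 + ((0 : I) : ℝ) • z.1 = (l t).1
    rw [Set.Icc.coe_zero]
    module
  · intro t
    apply Subtype.ext
    change (1 - (((1 : I) : ℝ))) • (l t).1 + ((1 : I) : ℝ) • z.1 = z.1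
    rw [Set.Icc.coe_one]
    module
  · intro s t ht
    rcases ht with rfl | ht
    · change H (s, 0) = l 0
      rw [l.source]
      exact hend s 0 (by rw [l.source])
    · rw [Set.mem_singleton_iff] at ht
      subst ht
      change H (s, 1) = l 1
      rw [l.target]
      exact hend s 1 (by rw [l.target])

/-- A continuous nowhere vanishing loop in `ℂ` has a continuous logarithm. -/
theorem exists_log (c : C(I, ℂ)) (h0 : ∀ t, c t ≠ 0) (h1 : c 1 = c 0) :
    ∃ (a : C(I, ℂ)) (k : ℤ), (∀ t, Complex.exp (a t) = c t) ∧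
      a 1 = a 0 + ((k : ℝ) : ℂ) * (2 * Real.pi * Complex.I) := by
  let c' : C(I, {z : ℂ // z ≠ 0}) := ⟨fun t => ⟨c t, h0 t⟩, c.continuous.subtype_mk h0⟩
  have hc0 : c' 0 = (fun z : ℂ => (⟨_, z.exp_ne_zero⟩ : {z : ℂ // z ≠ 0})) (Complex.log (c 0)) := by
    apply Subtype.ext
    exact (Complex.exp_log (h0 0)).symm
  have hl := Complex.isCoveringMap_exp.liftPath_lifts c' (Complex.log (c 0)) hc0
  have hall : ∀ t, Complex.exp (Complex.isCoveringMap_exp.liftPath c' (Complex.log (c 0)) hc0 t) =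
      c t := by
    intro t
    exact congrArg Subtype.val (congrFun hl t)
  refine ⟨Complex.isCoveringMap_exp.liftPath c' (Complex.log (c 0)) hc0, ?_⟩
  have h2 : Complex.exp (Complex.isCoveringMap_exp.liftPath c' (Complex.log (c 0)) hc0 1) =
      Complex.exp (Complex.isCoveringMap_exp.liftPath c' (Complex.log (c 0)) hc0 0) := by
    rw [hall, hall, h1]
  obtain ⟨k, hk⟩ := Complex.exp_eq_exp_iff_exists_int.1 h2
  refine ⟨k, hall, ?_⟩
  rw [hk]
  push_cast
  ring

/-- The class of a small loop is a product of classes of meridians. -/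
theorem small_mem {z : Sp A ⊤} (l : Path z z) (hl : SmallLoop A N' l) :
    (FundamentalGroup.fromPath (Path.Homotopic.Quotient.mk l) : FundamentalGroup (Sp A ⊤) z) ∈
      Subgroup.closure (mers A N' z) := by
  obtain ⟨w, r, ⟨hB, δ, hδ⟩, hl⟩ := hl
  have hz : z.1 ∈ Metric.ball w r := by
    have := hl 0
    rwa [l.source] at this
  by_cases hcase : Root A δ ∧ ∃ b ∈ Metric.ball w r, Mir A δ b
  swap
  · -- no mirror
    have hball : Metric.ball w r ⊆ P0 A ⊤ := by
      intro q hq
      refine ⟨?_, ?_, (hB hq).1, ?_⟩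
      · rw [rspan_top]
        trivial
      · rw [rspan_top]
        trivial
      intro δ' _ hδ' hm
      by_cases h1 : δ' = δ
      · subst h1
        exact hcase ⟨hδ', q, hq, hm⟩
      by_cases h2 : δ' = -δ
      · subst h2
        exact hcase ⟨root_neg.1 hδ', q, hq, mir_neg.1 hm⟩
      exact hδ δ' hδ' h1 h2 q hq hm
    rw [Path.Homotopic.Quotient.eq.2 (small_null l hball hl)]
    exact Subgroup.one_mem _
  obtain ⟨hroot, b, hb, hm⟩ := hcase
  have hδN : δ ∉ N' := fun h => (hB hb).2 δ h hroot hm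
  -- the radius of a disc in the ball
  obtain ⟨ρ, hρ, hdisc⟩ : ∃ ρ > 0, ∀ c : ℂ, ‖c‖ ≤ ρ → disc b δ c ∈ Metric.ball w r := by
    have h1 : (disc b δ) ⁻¹' Metric.ball w r ∈ 𝓝 (0 : ℂ) := by
      refine (continuous_disc b δ).continuousAt.preimage_mem_nhds ?_
      rw [disc_zero]
      exact Metric.isOpen_ball.mem_nhds hb
    obtain ⟨ε, hε, h2⟩ := Metric.mem_nhds_iff.1 h1
    refine ⟨ε / 2, by positivity, fun c hc => h2 ?_⟩
    rw [Metric.mem_ball, dist_zero_right]
    linarith
  have hD : MDisc A N' δ b ρ := ⟨hroot, hδN, hm, fun c hc =>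
    ⟨(hB (hdisc c hc)).1, fun δ' h1 h2 h3 => hδ δ' h1 h2 h3 _ (hdisc c hc)⟩⟩
  -- a bound for `phi`
  obtain ⟨M, hM, hφM⟩ : ∃ M > 0, ∀ q ∈ Metric.ball w r, ‖phi A δ q‖ ≤ M := by
    obtain ⟨M, hM⟩ := (isCompact_closedBall w r).exists_bound_of_continuousOn
      (continuous_phi (A := A) δ).continuousOn
    refine ⟨|M| + 1, by positivity, fun q hq => ?_⟩
    have := hM q (Metric.ball_subset_closedBall hq)
    linarith [le_abs_self M]
  have hs' : 0 < ρ / M := by positivity
  -- the part of the ball off the mirror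
  let U : Type := {q : Pr n // q ∈ Metric.ball w r ∧ phi A δ q ≠ 0}
  have hoff : ∀ q : Pr n, q ∈ Metric.ball w r → phi A δ q ≠ 0 → q ∈ P0 A ⊤ := by
    intro q hq hφ
    refine ⟨?_, ?_, (hB hq).1, ?_⟩
    · rw [rspan_top]
      trivial
    · rw [rspan_top]
      trivial
    intro δ' _ hδ' hmm
    by_cases h1 : δ' = δ
    · subst h1
      exact hφ (phi_eq_zero.2 hmm)
    by_cases h2 : δ' = -δ
    · subst h2
      exact hφ (phi_eq_zero.2 (mir_neg.1 hmm))
    exact hδ δ' hδ' h1 h2 q hq hmm
  have hcn : ∀ q ∈ Metric.ball w r, ‖-(((ρ / M : ℝ) : ℂ) * phi A δ q)‖ ≤ ρ := by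
    intro q hq
    rw [norm_neg, norm_mul, Complex.norm_real, Real.norm_eq_abs, abs_of_pos hs']
    calc ρ / M * ‖phi A δ q‖ ≤ ρ / M * M := by
          exact mul_le_mul_of_nonneg_left (hφM q hq) hs'.le
      _ = ρ := by field_simp
  have hc0 : ∀ q, phi A δ q ≠ 0 → -(((ρ / M : ℝ) : ℂ) * phi A δ q) ≠ 0 := by
    intro q hq
    rw [neg_ne_zero]
    refine mul_ne_zero ?_ hq
    exact_mod_cast hs'.ne'
  have hmixφ : ∀ (s : ℝ) (q : Pr n), phi A δ ((1 - s) • q + s • disc b δ
      (-(((ρ / M : ℝ) : ℂ) * phi A δ q))) = (((1 - s) + s * (2 * (ρ / M)) : ℝ) : ℂ) * phi A δ q := by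
    intro s q
    rw [phi_mix, phi_disc hroot, phi_eq_zero.2 hm]
    push_cast
    ring
  have hmem : ∀ (s : I) (u : U), (1 - (s : ℝ)) • u.1 + (s : ℝ) • disc b δ
      (-(((ρ / M : ℝ) : ℂ) * phi A δ u.1)) ∈ P0 A ⊤ := by
    intro s u
    refine hoff _ (convex_ball w r u.2.1 (hdisc _ (hcn _ u.2.1)) (by linarith [s.2.2]) s.2.1
      (by ring)) ?_
    rw [hmixφ]
    refine mul_ne_zero ?_ u.2.2
    have h1 : 0 < (1 - (s : ℝ)) + s * (2 * (ρ / M)) := by
      have h2 := s.2.1
      have h3 := s.2.2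
      rcases eq_or_lt_of_le h2 with h4 | h4
      · rw [← h4]
        norm_num
      · have h5 : 0 < (s : ℝ) * (2 * (ρ / M)) := by positivity
        linarith
    exact_mod_cast h1.ne'
  let ι : C(U, Sp A ⊤) := ⟨fun u => ⟨u.1, hoff u.1 u.2.1 u.2.2⟩,
    Continuous.subtype_mk continuous_subtype_val _⟩
  have hφc : Continuous fun u : U => phi A δ u.1 :=
    (continuous_phi (A := A) δ).comp continuous_subtype_val
  let H1 : C(U, Sp A ⊤) := ⟨fun u => ⟨disc b δ (-(((ρ / M : ℝ) : ℂ) * phi A δ u.1)),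
    disc_mem hD (hcn _ u.2.1) (hc0 _ u.2.2)⟩,
    Continuous.subtype_mk ((continuous_disc b δ).comp (continuous_const.mul hφc).neg) _⟩
  let G : ι.Homotopy H1 :=
    { toFun := fun u => ⟨(1 - (u.1 : ℝ)) • u.2.1 + (u.1 : ℝ) • disc b δ
        (-(((ρ / M : ℝ) : ℂ) * phi A δ u.2.1)), hmem u.1 u.2⟩
      continuous_toFun := by
        refine Continuous.subtype_mk ?_ _
        have e1 : Continuous fun u : I × U => u.2.1 := continuous_subtype_val.comp continuous_snd
        have e2 : Continuous fun u : I × U => (u.1 : ℝ) :=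
          continuous_subtype_val.comp continuous_fst
        have e3 : Continuous fun u : I × U => disc b δ (-(((ρ / M : ℝ) : ℂ) * phi A δ u.2.1)) :=
          (continuous_disc b δ).comp (continuous_const.mul (hφc.comp continuous_snd)).neg
        exact ((continuous_const.sub e2).smul e1).add (e2.smul e3)
      map_zero_left := by
        intro u
        apply Subtype.ext
        change (1 - ((0 : I) : ℝ)) • u.1 + ((0 : I) : ℝ) • disc b δ
          (-(((ρ / M : ℝ) : ℂ) * phi A δ u.1)) = u.1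
        rw [Set.Icc.coe_zero]
        module
      map_one_left := by
        intro u
        apply Subtype.ext
        change (1 - ((1 : I) : ℝ)) • u.1 + ((1 : I) : ℝ) • disc b δ
          (-(((ρ / M : ℝ) : ℂ) * phi A δ u.1)) = disc b δ (-(((ρ / M : ℝ) : ℂ) * phi A δ u.1))
        rw [Set.Icc.coe_one]
        module }
  have hlφ : ∀ t, phi A δ (l t).1 ≠ 0 := by
    intro t h
    exact (l t).2.2.2.2 δ (AddSubgroup.mem_top _) hroot (phi_eq_zero.1 h)
  have hzφ : phi A δ z.1 ≠ 0 := by
    have := hlφ 0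
    rwa [l.source] at this
  let z' : U := ⟨z.1, hz, hzφ⟩
  let l' : Path z' z' :=
    { toFun := fun t => ⟨(l t).1, hl t, hlφ t⟩
      continuous_toFun := Continuous.subtype_mk (continuous_subtype_val.comp l.continuous) _
      source' := by
        apply Subtype.ext
        change (l 0).1 = z.1
        rw [l.source]
      target' := by
        apply Subtype.ext
        change (l 1).1 = z.1
        rw [l.target] }
  have h1 := Path.Homotopic.Quotient.eq.2 (Path.Homotopic.map_trans_evalAt G l')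
  have h2 : l'.map (map_continuous ι) = l := Path.ext (funext fun t => Subtype.ext rfl)
  -- the logarithm
  let c : C(I, ℂ) := ⟨fun t => -(((ρ / M : ℝ) : ℂ) * phi A δ (l t).1),
    (continuous_const.mul ((continuous_phi (A := A) δ).comp
      (continuous_subtype_val.comp l.continuous))).neg⟩
  obtain ⟨a, k, ha, hk⟩ := exists_log c (fun t => hc0 _ (hlφ t)) (by
    change -(((ρ / M : ℝ) : ℂ) * phi A δ (l 1).1) = -(((ρ / M : ℝ) : ℂ) * phi A δ (l 0).1)
    rw [l.source, l.target])
  have h3 := mem_of_lift (l'.map (map_continuous H1)) hD a (fun t => by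
    rw [ha]
    rfl) (fun t => by
    rw [ha]
    exact hcn _ (hl t)) k hk
  have h4 := conj_mers (Path.Homotopic.Quotient.mk (G.evalAt z')) h3
  have h5 : Path.Homotopic.Quotient.mk l = ((Path.Homotopic.Quotient.mk (G.evalAt z')).trans
      (Path.Homotopic.Quotient.mk (l'.map (map_continuous H1)))).trans
      (Path.Homotopic.Quotient.mk (G.evalAt z')).symm := by
    rw [Path.Homotopic.Quotient.mk_trans, Path.Homotopic.Quotient.mk_trans, h2] at h1
    rw [← h1, q_assoc, q_trans_symm, q_trans_refl]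
  rw [h5]
  exact h4

section

variable (hA : A.IsSymm) (hs : Sig2 A) (hN : HasPos A N')
  {π : (Fin n → ℝ) →ₗ[ℝ] (Fin n → ℝ)} (hπ : IsProj A N' π)

include hA hs hN hπ

/-- The projection of a meridian is contractible. -/
theorem proj_mer {z : Sp A ⊤} (l : Path z z) (hl : Meridian A N' l) :
    (l.map (F hA hs hN hπ).continuous).Homotopic (Path.refl (F hA hs hN hπ z)) := by
  obtain ⟨δ, p, c, hD, hc, hl⟩ := hl
  refine proj_mix hA hs hN hπ l fun s t => ?_
  have hz : z.1 = disc p δ (c * Complex.exp (((2 * Real.pi * ((0 : I) : ℝ) : ℝ) : ℂ) *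
      Complex.I)) := by
    rw [← hl 0, l.source]
  rw [hl t, hz, disc_mix p δ _ _ (by ring)]
  refine disc_good hD ?_
  have hn : ∀ x : ℝ, ‖c * Complex.exp ((x : ℂ) * Complex.I)‖ = ‖c‖ := by
    intro x
    rw [norm_mul, Complex.norm_exp_ofReal_mul_I, mul_one]
  refine (norm_add_le _ _).trans ?_
  rw [norm_mul, norm_mul ((s : ℝ) : ℂ), hn, hn, Complex.norm_real, Complex.norm_real,
    Real.norm_eq_abs, Real.norm_eq_abs, abs_of_nonneg (by linarith [s.2.2]),
    abs_of_nonneg s.2.1]
  have : (1 - (s : ℝ)) * ‖c‖ + (s : ℝ) * ‖c‖ = ‖c‖ := by ring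
  exact this.le

/-- The kernel of the projection on fundamental groups. -/
theorem ker_eq_mers (e : Sp A ⊤) :
    (FundamentalGroup.map (F hA hs hN hπ) e).ker = Subgroup.closure (mers A N' e) := by
  refine le_antisymm ?_ ?_
  · rw [ker_eq hA hs hN hπ e, Subgroup.closure_le]
    rintro _ ⟨z, c, l, hl, rfl⟩
    exact conj_mers (Path.Homotopic.Quotient.mk c) (small_mem l hl)
  · rw [Subgroup.closure_le]
    rintro _ ⟨z, c, l, hl, rfl⟩
    refine MonoidHom.mem_ker.2 ?_
    have h1 := Path.Homotopic.Quotient.eq.2 (proj_mer hA hs hN hπ l hl)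
    have h2 : ((Path.Homotopic.Quotient.mk ((c.trans l).trans c.symm)).map (F hA hs hN hπ) :
        Path.Homotopic.Quotient (F hA hs hN hπ e) (F hA hs hN hπ e)) =
        Path.Homotopic.Quotient.refl (F hA hs hN hπ e) := by
      rw [← Path.Homotopic.Quotient.mk_map, Path.map_trans, Path.map_trans, ← Path.map_symm,
        Path.Homotopic.Quotient.mk_trans, Path.Homotopic.Quotient.mk_trans, h1,
        Path.Homotopic.Quotient.mk_refl, q_trans_refl, Path.Homotopic.Quotient.mk_symm,
        q_trans_symm]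
    exact h2

end

end Pool.Agent.MPa8252b
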