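import Pool.Agent.Lib.MP_a8252b_ag.Mer2
import Pool.Agent.Lib.MP_a8252b_ag.Loc

/-!
# Positive planes off the mirrors of a negative definite subgroup
-/

namespace Pool.Agent.MPa8252b

open Matrix Topology unitInterval

variable {n : ℕ}

/-- The real span of `N'` is negative definite. -/
def NegDef (A : Matrix (Fin n) (Fin n) ℤ) (N' : AddSubgroup (Fin n → ℤ)) : Prop :=
  ∀ v ∈ rspan N', v ≠ 0 → bf A v v < 0

/-- The pairs on no mirror of a root of `N'`. -/
def LocN (A : Matrix (Fin n) (Fin n) ℤ) (N' : AddSubgroup (Fin n → ℤ)) : Set (Pr n) :=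
  {v | ∀ δ ∈ N', Root A δ → ¬ Mir A δ v}

/-- The positive pairs. -/
def PosS (A : Matrix (Fin n) (Fin n) ℤ) : Set (Pr n) := {v | Pos A v.1 v.2}

theorem exists_proj_neg {A : Matrix (Fin n) (Fin n) ℤ} (hA : A.IsSymm)
    {N' : AddSubgroup (Fin n → ℤ)} (hN : NegDef A N') : ∃ π, IsProj A N' π := by
  let B : LinearMap.BilinForm ℝ (Fin n → ℝ) := bf A
  have hrefl : B.IsRefl := fun x y h => by
    rw [← h]
    exact bf_symm hA y x
  have hdisj : Disjoint (rspan N') (B.orthogonal (rspan N')) := by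
    rw [Submodule.disjoint_def]
    intro v hv hv'
    by_contra hne
    have h1 := hN v hv hne
    have h2 : bf A v v = 0 := hv' v hv
    rw [h2] at h1
    exact lt_irrefl 0 h1
  have hc : IsCompl (rspan N') (B.orthogonal (rspan N')) :=
    (LinearMap.BilinForm.isCompl_orthogonal_iff_disjoint hrefl).2 hdisj
  refine ⟨(rspan N').subtype ∘ₗ (rspan N').projectionOnto _ hc, fun x => ?_, fun x w hw => ?_⟩
  · exact Subtype.property _
  · have h1 : x - (rspan N').subtype ((rspan N').projectionOnto _ hc x) ∈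
        B.orthogonal (rspan N') := by
      have h2 : (rspan N').projectionOnto _ hc
          (x - (rspan N').subtype ((rspan N').projectionOnto _ hc x)) = 0 := by
        rw [map_sub]
        have h3 : (rspan N').projectionOnto _ hc
            ((rspan N').subtype ((rspan N').projectionOnto _ hc x)) =
            (rspan N').projectionOnto _ hc x :=
          Submodule.projectionOnto_apply_left hc _
        rw [h3, sub_self]
      exact (Submodule.projectionOnto_apply_eq_zero_iff hc).1 h2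
    change bf A (x - (rspan N').subtype ((rspan N').projectionOnto _ hc x)) w = 0
    rw [bf_symm hA]
    exact h1 w hw

section

variable {A : Matrix (Fin n) (Fin n) ℤ} (hA : A.IsSymm)
  {N' : AddSubgroup (Fin n → ℤ)} (hN : NegDef A N') {π : (Fin n → ℝ) →ₗ[ℝ] (Fin n → ℝ)}
  (hπ : IsProj A N' π)

theorem neg_le (hN : NegDef A N') {v : Fin n → ℝ} (hv : v ∈ rspan N') : bf A v v ≤ 0 := by
  by_cases h : v = 0
  · rw [h, map_zero]
  · exact (hN v hv h).le

include hA in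
/-- The square of `u + w`, `u` orthogonal to the span, `w` in the span. -/
theorem sq_add {u w : Fin n → ℝ} (hu : bf A u w = 0) :
    bf A (u + w) (u + w) = bf A u u + bf A w w := by
  have h : bf A w u = 0 := by rw [bf_symm hA]; exact hu
  simp only [map_add, LinearMap.add_apply, hu, h]
  ring

theorem orth_comb {u : Pr n} (hu1 : ∀ w ∈ rspan N', bf A u.1 w = 0)
    (hu2 : ∀ w ∈ rspan N', bf A u.2 w = 0) (a b : ℝ) {x : Fin n → ℝ} (hx : x ∈ rspan N') :
    bf A (a • u.1 + b • u.2) x = 0 := by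
  simp only [map_add, map_smul, LinearMap.add_apply, LinearMap.smul_apply, hu1 x hx, hu2 x hx,
    smul_zero, add_zero]

include hA hN in
/-- Concavity: positivity of `u + w` for `w` in a convex set. -/
theorem pos_mix {u w₀ w₁ : Pr n} (hu1 : ∀ w ∈ rspan N', bf A u.1 w = 0)
    (hu2 : ∀ w ∈ rspan N', bf A u.2 w = 0) (h01 : w₀.1 ∈ rspan N') (h02 : w₀.2 ∈ rspan N')
    (h11 : w₁.1 ∈ rspan N') (h12 : w₁.2 ∈ rspan N') (hp0 : Pos A (u.1 + w₀.1) (u.2 + w₀.2))
    (hp1 : Pos A (u.1 + w₁.1) (u.2 + w₁.2)) {s : ℝ} (hs0 : 0 ≤ s) (hs1 : s ≤ 1) :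
    Pos A (u.1 + ((1 - s) • w₀.1 + s • w₁.1)) (u.2 + ((1 - s) • w₀.2 + s • w₁.2)) := by
  intro a b hab
  have key : ∀ w : Pr n, w.1 ∈ rspan N' → w.2 ∈ rspan N' →
      bf A (a • (u.1 + w.1) + b • (u.2 + w.2)) (a • (u.1 + w.1) + b • (u.2 + w.2)) =
      bf A (a • u.1 + b • u.2) (a • u.1 + b • u.2) +
        bf A (a • w.1 + b • w.2) (a • w.1 + b • w.2) := by
    intro w h1 h2
    have e : a • (u.1 + w.1) + b • (u.2 + w.2) = (a • u.1 + b • u.2) + (a • w.1 + b • w.2) := by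
      module
    have h3 : a • w.1 + b • w.2 ∈ rspan N' :=
      Submodule.add_mem _ (Submodule.smul_mem _ _ h1) (Submodule.smul_mem _ _ h2)
    rw [e, sq_add hA (orth_comb hu1 hu2 a b h3)]
  have k0 := hp0 a b hab
  have k1 := hp1 a b hab
  rw [key w₀ h01 h02] at k0
  rw [key w₁ h11 h12] at k1
  have ks := key ((1 - s) • w₀.1 + s • w₁.1, (1 - s) • w₀.2 + s • w₁.2)
    (Submodule.add_mem _ (Submodule.smul_mem _ _ h01) (Submodule.smul_mem _ _ h11))
    (Submodule.add_mem _ (Submodule.smul_mem _ _ h02) (Submodule.smul_mem _ _ h12))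
  change bf A (a • (u.1 + ((1 - s) • w₀.1 + s • w₁.1)) + b • (u.2 + ((1 - s) • w₀.2 + s • w₁.2)))
    (a • (u.1 + ((1 - s) • w₀.1 + s • w₁.1)) + b • (u.2 + ((1 - s) • w₀.2 + s • w₁.2))) = _ at ks
  rw [ks]
  change 0 < bf A (a • u.1 + b • u.2) (a • u.1 + b • u.2) +
    bf A (a • ((1 - s) • w₀.1 + s • w₁.1) + b • ((1 - s) • w₀.2 + s • w₁.2))
      (a • ((1 - s) • w₀.1 + s • w₁.1) + b • ((1 - s) • w₀.2 + s • w₁.2))
  have e2 : a • ((1 - s) • w₀.1 + s • w₁.1) + b • ((1 - s) • w₀.2 + s • w₁.2) =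
      (1 - s) • (a • w₀.1 + b • w₀.2) + s • (a • w₁.1 + b • w₁.2) := by
    module
  rw [e2]
  have hx : a • w₀.1 + b • w₀.2 ∈ rspan N' :=
    Submodule.add_mem _ (Submodule.smul_mem _ _ h01) (Submodule.smul_mem _ _ h02)
  have hy : a • w₁.1 + b • w₁.2 ∈ rspan N' :=
    Submodule.add_mem _ (Submodule.smul_mem _ _ h11) (Submodule.smul_mem _ _ h12)
  generalize a • w₀.1 + b • w₀.2 = x at *
  generalize a • w₁.1 + b • w₁.2 = y at *
  generalize bf A (a • u.1 + b • u.2) (a • u.1 + b • u.2) = q at *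
  have h5 := neg_le hN (Submodule.sub_mem _ hx hy)
  have h6 : bf A (x - y) (x - y) = bf A x x - 2 * bf A x y + bf A y y := by
    simp only [map_sub, LinearMap.sub_apply]
    rw [bf_symm hA y x]
    ring
  have h7 : bf A ((1 - s) • x + s • y) ((1 - s) • x + s • y) =
      (1 - s) * bf A x x + s * bf A y y - s * (1 - s) * bf A (x - y) (x - y) := by
    rw [h6]
    rw [bf_comb A hA]
    ring
  rw [h7]
  have h8 : 0 ≤ s * (1 - s) := mul_nonneg hs0 (by linarith)
  have h9 : s * (1 - s) * bf A (x - y) (x - y) ≤ 0 := mul_nonpos_of_nonneg_of_nonpos h8 h5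
  rcases hs0.eq_or_lt with h | h
  · subst h
    linarith
  · nlinarith [mul_pos h k1, mul_nonneg (show 0 ≤ 1 - s by linarith) k0.le]

include hA hN in
/-- The part orthogonal to the span of a positive pair is positive. -/
theorem pos_comp {u w : Pr n} (hu1 : ∀ w ∈ rspan N', bf A u.1 w = 0)
    (hu2 : ∀ w ∈ rspan N', bf A u.2 w = 0) (h1 : w.1 ∈ rspan N') (h2 : w.2 ∈ rspan N')
    (hp : Pos A (u.1 + w.1) (u.2 + w.2)) : Pos A u.1 u.2 := by
  intro a b hab
  have k := hp a b hab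
  have e : a • (u.1 + w.1) + b • (u.2 + w.2) = (a • u.1 + b • u.2) + (a • w.1 + b • w.2) := by
    module
  have h3 : a • w.1 + b • w.2 ∈ rspan N' :=
    Submodule.add_mem _ (Submodule.smul_mem _ _ h1) (Submodule.smul_mem _ _ h2)
  rw [e, sq_add hA (orth_comb hu1 hu2 a b h3)] at k
  have := neg_le hN h3
  linarith

/-- The determinant of the Gram matrix. -/
noncomputable def gd (A : Matrix (Fin n) (Fin n) ℤ) (u : Pr n) : ℝ :=
  bf A u.1 u.1 * bf A u.2 u.2 - bf A u.1 u.2 ^ 2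

/-- The auxiliary sum. -/
noncomputable def gt (A : Matrix (Fin n) (Fin n) ℤ) (u w : Pr n) : ℝ :=
  -(bf A u.1 u.1 * bf A w.2 w.2 + bf A u.2 u.2 * bf A w.1 w.1)

/-- The scaling factor. -/
noncomputable def sc (A : Matrix (Fin n) (Fin n) ℤ) (u w : Pr n) : ℝ :=
  gd A u / (gd A u + 4 * gt A u w)

include hA in
theorem pos_parts {u : Pr n} (hu : Pos A u.1 u.2) :
    0 < bf A u.1 u.1 ∧ 0 < bf A u.2 u.2 ∧ 0 < gd A u := by
  have h := (pos_iff hA u.1 u.2).1 hu
  have h2 := hu 0 1 (Or.inr one_ne_zero)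
  rw [zero_smul, one_smul, zero_add] at h2
  exact ⟨h.1, h2, h.2⟩

include hA hN in
theorem gt_nonneg {u w : Pr n} (hu : Pos A u.1 u.2) (h1 : w.1 ∈ rspan N') (h2 : w.2 ∈ rspan N') :
    0 ≤ gt A u w := by
  obtain ⟨a1, a2, -⟩ := pos_parts hA hu
  have b1 := neg_le hN h1
  have b2 := neg_le hN h2
  unfold gt
  nlinarith [mul_nonpos_of_nonneg_of_nonpos a1.le b2, mul_nonpos_of_nonneg_of_nonpos a2.le b1]

include hA hN in
theorem sc_pos {u w : Pr n} (hu : Pos A u.1 u.2) (h1 : w.1 ∈ rspan N') (h2 : w.2 ∈ rspan N') :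
    0 < sc A u w := by
  have h := gt_nonneg hA hN hu h1 h2
  have h3 := (pos_parts hA hu).2.2
  unfold sc
  positivity

include hA hN in
theorem sc_le {u w : Pr n} (hu : Pos A u.1 u.2) (h1 : w.1 ∈ rspan N') (h2 : w.2 ∈ rspan N') :
    sc A u w ≤ 1 := by
  have h := gt_nonneg hA hN hu h1 h2
  have h3 := (pos_parts hA hu).2.2
  unfold sc
  rw [div_le_one (by linarith)]
  linarith

include hA hN in
/-- The scaled pair is positive. -/
theorem pos_sc {u w : Pr n} (hu1 : ∀ w ∈ rspan N', bf A u.1 w = 0)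
    (hu2 : ∀ w ∈ rspan N', bf A u.2 w = 0) (h1 : w.1 ∈ rspan N') (h2 : w.2 ∈ rspan N')
    (hu : Pos A u.1 u.2) : Pos A (u.1 + sc A u w • w.1) (u.2 + sc A u w • w.2) := by
  intro a b hab
  have c0 := sc_pos hA hN hu h1 h2
  have c1 := sc_le hA hN hu h1 h2
  have hE := gt_nonneg hA hN hu h1 h2
  obtain ⟨g1, g2, gD⟩ := pos_parts hA hu
  have hcE : sc A u w * (gd A u + 4 * gt A u w) = gd A u := by
    unfold sc
    rw [div_mul_cancel₀]
    have : 0 < gd A u + 4 * gt A u w := by linarith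
    exact this.ne'
  have hcE' : sc A u w * (4 * gt A u w) < gd A u := by nlinarith [mul_pos c0 gD]
  generalize sc A u w = c at *
  have e : a • (u.1 + c • w.1) + b • (u.2 + c • w.2) =
      (a • u.1 + b • u.2) + c • (a • w.1 + b • w.2) := by
    module
  have h3 : a • w.1 + b • w.2 ∈ rspan N' :=
    Submodule.add_mem _ (Submodule.smul_mem _ _ h1) (Submodule.smul_mem _ _ h2)
  have h3' : a • w.1 + (-b) • w.2 ∈ rspan N' :=
    Submodule.add_mem _ (Submodule.smul_mem _ _ h1) (Submodule.smul_mem _ _ h2)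
  rw [e, sq_add hA (orth_comb hu1 hu2 a b (Submodule.smul_mem _ c h3))]
  have t0 := neg_le hN h3
  have t0' := neg_le hN h3'
  rw [bf_comb A hA] at t0 t0'
  have e3 : bf A (c • (a • w.1 + b • w.2)) (c • (a • w.1 + b • w.2)) =
      c ^ 2 * (a ^ 2 * bf A w.1 w.1 + 2 * (a * b) * bf A w.1 w.2 + b ^ 2 * bf A w.2 w.2) := by
    rw [← bf_comb A hA]
    simp only [map_smul, LinearMap.smul_apply, smul_eq_mul]
    ring
  rw [e3, bf_comb A hA]
  unfold gd gt at *
  have m1 := neg_le hN h1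
  have m2 := neg_le hN h2
  generalize bf A u.1 u.1 = p at *
  generalize bf A u.2 u.2 = q at *
  generalize bf A u.1 u.2 = r at *
  generalize bf A w.1 w.1 = x at *
  generalize bf A w.2 w.2 = y at *
  generalize bf A w.1 w.2 = z at *
  -- T ≤ 2 (a² t₁ + b² t₂)
  have hT : 2 * (a ^ 2 * x + b ^ 2 * y) ≤ a ^ 2 * x + 2 * (a * b) * z + b ^ 2 * y := by
    nlinarith
  have hc2 : c ^ 2 ≤ c := by nlinarith
  have hT2 : 2 * c * (a ^ 2 * x + b ^ 2 * y) ≤
      c ^ 2 * (a ^ 2 * x + 2 * (a * b) * z + b ^ 2 * y) := by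
    have k1 : c * (2 * (a ^ 2 * x + b ^ 2 * y)) ≤
        c * (a ^ 2 * x + 2 * (a * b) * z + b ^ 2 * y) := mul_le_mul_of_nonneg_left hT c0.le
    have k2 : c * (a ^ 2 * x + 2 * (a * b) * z + b ^ 2 * y) ≤
        c ^ 2 * (a ^ 2 * x + 2 * (a * b) * z + b ^ 2 * y) := by nlinarith
    linarith
  -- the lower bound
  set Q := a ^ 2 * p + 2 * (a * b) * r + b ^ 2 * q with hQ
  have l1 : b ^ 2 * (p * q - r ^ 2) ≤ p * Q := by
    rw [hQ]
    nlinarith [sq_nonneg (a * p + b * r)]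
  have l2 : a ^ 2 * (p * q - r ^ 2) ≤ q * Q := by
    rw [hQ]
    nlinarith [sq_nonneg (b * q + a * r)]
  have n1 : c * (4 * (q * -x)) ≤ c * (4 * -(p * y + q * x)) := by
    refine mul_le_mul_of_nonneg_left ?_ c0.le
    nlinarith [mul_nonneg g1.le (neg_nonneg.2 m2)]
  have n2 : c * (4 * (p * -y)) ≤ c * (4 * -(p * y + q * x)) := by
    refine mul_le_mul_of_nonneg_left ?_ c0.le
    nlinarith [mul_nonneg g2.le (neg_nonneg.2 m1)]
  -- Q/2 + 2 c a² x ≥ 0 with strictness if a ≠ 0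
  have r1 : 0 ≤ q * (Q / 2 + 2 * c * (a ^ 2 * x)) := by
    nlinarith [mul_nonneg (sq_nonneg a) (show 0 ≤ (p * q - r ^ 2) - c * (4 * (q * -x)) by linarith)]
  have r2 : 0 ≤ p * (Q / 2 + 2 * c * (b ^ 2 * y)) := by
    nlinarith [mul_nonneg (sq_nonneg b) (show 0 ≤ (p * q - r ^ 2) - c * (4 * (p * -y)) by linarith)]
  have r1' : 0 ≤ Q / 2 + 2 * c * (a ^ 2 * x) := by
    by_contra hcon
    push Not at hcon
    nlinarith [mul_neg_of_pos_of_neg g2 hcon]
  have r2' : 0 ≤ Q / 2 + 2 * c * (b ^ 2 * y) := by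
    by_contra hcon
    push Not at hcon
    nlinarith [mul_neg_of_pos_of_neg g1 hcon]
  rcases hab with ha | hb
  · have ha2 : 0 < a ^ 2 := by positivity
    have r3 : 0 < q * (Q / 2 + 2 * c * (a ^ 2 * x)) := by
      nlinarith [mul_pos ha2 (show 0 < (p * q - r ^ 2) - c * (4 * (q * -x)) by linarith)]
    have r4 : 0 < Q / 2 + 2 * c * (a ^ 2 * x) := (mul_pos_iff_of_pos_left g2).1 r3
    nlinarith
  · have hb2 : 0 < b ^ 2 := by positivity
    have r3 : 0 < p * (Q / 2 + 2 * c * (b ^ 2 * y)) := by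
      nlinarith [mul_pos hb2 (show 0 < (p * q - r ^ 2) - c * (4 * (p * -y)) by linarith)]
    have r4 : 0 < Q / 2 + 2 * c * (b ^ 2 * y) := (mul_pos_iff_of_pos_left g1).1 r3
    nlinarith

end

end Pool.Agent.MPa8252b
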