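import Pool.Agent.Lib.MP_a8252b_ag.Neg
import Pool.Agent.Lib.MP_a8252b_ag.Aut

/-!
# The homotopy type of the positive planes off the mirrors of a negative definite subgroup
-/

namespace Pool.Agent.MPa8252b

open Matrix Topology unitInterval

variable {n : ℕ}

theorem continuous_sc (A : Matrix (Fin n) (Fin n) ℤ) {X : Type} [TopologicalSpace X]
    {U W : X → Pr n} (hU : Continuous U) (hW : Continuous W)
    (h : ∀ x, gd A (U x) + 4 * gt A (U x) (W x) ≠ 0) : Continuous fun x => sc A (U x) (W x) := by
  have u11 : Continuous fun x => bf A (U x).1 (U x).1 :=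
    (continuous_bf A).comp ((continuous_fst.comp hU).prodMk (continuous_fst.comp hU))
  have u22 : Continuous fun x => bf A (U x).2 (U x).2 :=
    (continuous_bf A).comp ((continuous_snd.comp hU).prodMk (continuous_snd.comp hU))
  have u12 : Continuous fun x => bf A (U x).1 (U x).2 :=
    (continuous_bf A).comp ((continuous_fst.comp hU).prodMk (continuous_snd.comp hU))
  have w11 : Continuous fun x => bf A (W x).1 (W x).1 :=
    (continuous_bf A).comp ((continuous_fst.comp hW).prodMk (continuous_fst.comp hW))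
  have w22 : Continuous fun x => bf A (W x).2 (W x).2 :=
    (continuous_bf A).comp ((continuous_snd.comp hW).prodMk (continuous_snd.comp hW))
  have hgd : Continuous fun x => gd A (U x) := (u11.mul u22).sub (u12.pow 2)
  have hgt : Continuous fun x => gt A (U x) (W x) := ((u11.mul w22).add (u22.mul w11)).neg
  exact hgd.div (hgd.add (continuous_const.mul hgt)) h

section

variable {A : Matrix (Fin n) (Fin n) ℤ} (hA : A.IsSymm)
  {N' : AddSubgroup (Fin n → ℤ)} (hN : NegDef A N') {π : (Fin n → ℝ) →ₗ[ℝ] (Fin n → ℝ)}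
  (hπ : IsProj A N' π)

/-- The part in the span. -/
def prj (π : (Fin n → ℝ) →ₗ[ℝ] (Fin n → ℝ)) (v : Pr n) : Pr n := (π v.1, π v.2)

/-- The part orthogonal to the span. -/
def cmp (π : (Fin n → ℝ) →ₗ[ℝ] (Fin n → ℝ)) (v : Pr n) : Pr n := (v.1 - π v.1, v.2 - π v.2)

/-- The orthogonal part of `u` plus `f` times the part of `v` in the span. -/
def mx (π : (Fin n → ℝ) →ₗ[ℝ] (Fin n → ℝ)) (f : ℝ) (u v : Pr n) : Pr n :=
  ((cmp π u).1 + f • (prj π v).1, (cmp π u).2 + f • (prj π v).2)

theorem continuous_prj : Continuous (prj π) := by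
  have h : Continuous π := LinearMap.continuous_of_finiteDimensional π
  exact (h.comp continuous_fst).prodMk (h.comp continuous_snd)

theorem continuous_cmp : Continuous (cmp π) := by
  have h : Continuous π := LinearMap.continuous_of_finiteDimensional π
  exact (continuous_fst.sub (h.comp continuous_fst)).prodMk
    (continuous_snd.sub (h.comp continuous_snd))

theorem continuous_mx {X : Type} [TopologicalSpace X] {f : X → ℝ} {U V : X → Pr n}
    (hf : Continuous f) (hU : Continuous U) (hV : Continuous V) :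
    Continuous fun x => mx π (f x) (U x) (V x) := by
  have h1 := (continuous_cmp (π := π)).comp hU
  have h2 := (continuous_prj (π := π)).comp hV
  exact ((continuous_fst.comp h1).add (hf.smul (continuous_fst.comp h2))).prodMk
    ((continuous_snd.comp h1).add (hf.smul (continuous_snd.comp h2)))

theorem mx_one (v : Pr n) : mx π 1 v v = v := by
  unfold mx cmp prj
  rw [one_smul, one_smul, sub_add_cancel, sub_add_cancel]

include hA hN hπ

theorem cmp_pos {u : Pr n} (hu : Pos A u.1 u.2) : Pos A (cmp π u).1 (cmp π u).2 := by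
  refine pos_comp hA hN (w := prj π u) (hπ.2 _) (hπ.2 _) (hπ.1 _) (hπ.1 _) ?_
  have h := mx_one (π := π) u
  unfold mx at h
  rw [one_smul, one_smul] at h
  rw [← h] at hu
  exact hu

/-- The scaling factor of a pair of pairs. -/
theorem cf_pos {u : Pr n} (hu : Pos A u.1 u.2) (v : Pr n) : 0 < sc A (cmp π u) (prj π v) :=
  sc_pos hA hN (cmp_pos hA hN hπ hu) (hπ.1 _) (hπ.1 _)

theorem cf_ne {u : Pr n} (hu : Pos A u.1 u.2) (v : Pr n) :
    gd A (cmp π u) + 4 * gt A (cmp π u) (prj π v) ≠ 0 := by
  have h1 := (pos_parts hA (cmp_pos hA hN hπ hu)).2.2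
  have h2 := gt_nonneg hA hN (cmp_pos hA hN hπ hu) (w := prj π v) (hπ.1 _) (hπ.1 _)
  have : 0 < gd A (cmp π u) + 4 * gt A (cmp π u) (prj π v) := by linarith
  exact this.ne'

theorem mx_sc_pos {u : Pr n} (hu : Pos A u.1 u.2) (v : Pr n) :
    Pos A (mx π (sc A (cmp π u) (prj π v)) u v).1 (mx π (sc A (cmp π u) (prj π v)) u v).2 :=
  pos_sc hA hN (hπ.2 _) (hπ.2 _) (hπ.1 _) (hπ.1 _) (cmp_pos hA hN hπ hu)

omit hA hN in
theorem mx_root (f : ℝ) (u v : Pr n) {δ : Fin n → ℤ} (hδ : δ ∈ N') :
    bf A (mx π f u v).1 (rl δ) = f * bf A v.1 (rl δ) ∧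
      bf A (mx π f u v).2 (rl δ) = f * bf A v.2 (rl δ) := by
  have hw : rl δ ∈ rspan N' := Submodule.subset_span ⟨δ, hδ, rfl⟩
  constructor
  · change bf A (u.1 - π u.1 + f • π v.1) (rl δ) = _
    rw [map_add, LinearMap.add_apply, hπ.2 _ _ hw, map_smul, LinearMap.smul_apply,
      proj_root hπ v.1 hδ, zero_add, smul_eq_mul]
  · change bf A (u.2 - π u.2 + f • π v.2) (rl δ) = _
    rw [map_add, LinearMap.add_apply, hπ.2 _ _ hw, map_smul, LinearMap.smul_apply,
      proj_root hπ v.2 hδ, zero_add, smul_eq_mul]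

omit hA hN in
theorem mx_Loc {f : ℝ} (hf : f ≠ 0) (u : Pr n) {v : Pr n} (hv : v ∈ LocN A N') :
    mx π f u v ∈ LocN A N' := by
  intro δ hδ hr hm
  refine hv δ hδ hr ?_
  have h := mx_root hπ f u v hδ
  unfold Mir at hm
  rw [h.1, h.2, mul_eq_zero, mul_eq_zero, or_iff_right hf, or_iff_right hf] at hm
  exact hm

/-- The homotopy in the first factor. -/
theorem mixL {u v : Pr n} (hu : Pos A u.1 u.2) (hv : v ∈ LocN A N') {s : ℝ} (h0 : 0 ≤ s)
    (h1 : s ≤ 1) :
    (1 - s) • mx π (sc A (cmp π u) (prj π v)) u v + s • v ∈ LocN A N' := by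
  intro δ hδ hr hm
  refine hv δ hδ hr ?_
  have h := mx_root hπ (sc A (cmp π u) (prj π v)) u v hδ
  have hc := cf_pos hA hN hπ hu v
  generalize sc A (cmp π u) (prj π v) = c at *
  have hf : (1 - s) * c + s ≠ 0 := by
    have : 0 < (1 - s) * c + s := by
      rcases h0.eq_or_lt with h2 | h2
      · rw [← h2]
        linarith
      · have := mul_nonneg (show 0 ≤ 1 - s by linarith) hc.le
        linarith
    exact this.ne'
  have e1 : bf A ((1 - s) • mx π c u v + s • v).1 (rl δ) = ((1 - s) * c + s) * bf A v.1 (rl δ) := by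
    change bf A ((1 - s) • (mx π c u v).1 + s • v.1) (rl δ) = _
    simp only [map_add, map_smul, LinearMap.add_apply, LinearMap.smul_apply, smul_eq_mul, h.1]
    ring
  have e2 : bf A ((1 - s) • mx π c u v + s • v).2 (rl δ) = ((1 - s) * c + s) * bf A v.2 (rl δ) := by
    change bf A ((1 - s) • (mx π c u v).2 + s • v.2) (rl δ) = _
    simp only [map_add, map_smul, LinearMap.add_apply, LinearMap.smul_apply, smul_eq_mul, h.2]
    ring
  unfold Mir at hm
  rw [e1, e2, mul_eq_zero, mul_eq_zero, or_iff_right hf, or_iff_right hf] at hm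
  exact hm

/-- The homotopy in the second factor. -/
theorem mixP {u : Pr n} (hu : Pos A u.1 u.2) (v : Pr n) {s : ℝ} (h0 : 0 ≤ s) (h1 : s ≤ 1) :
    (1 - s) • mx π (sc A (cmp π u) (prj π v)) u v + s • u ∈ PosS A := by
  have k1 : Pos A ((cmp π u).1 + (prj π u).1) ((cmp π u).2 + (prj π u).2) := by
    have h := mx_one (π := π) u
    unfold mx at h
    rw [one_smul, one_smul] at h
    rw [← h] at hu
    exact hu
  have k0 := mx_sc_pos hA hN hπ hu v
  have k := pos_mix hA hN (u := cmp π u)
    (w₀ := (sc A (cmp π u) (prj π v) • (prj π v).1, sc A (cmp π u) (prj π v) • (prj π v).2))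
    (w₁ := prj π u) (hπ.2 _) (hπ.2 _) (Submodule.smul_mem _ _ (hπ.1 _))
    (Submodule.smul_mem _ _ (hπ.1 _)) (hπ.1 _) (hπ.1 _) k0 k1 h0 h1
  change Pos A _ _
  generalize sc A (cmp π u) (prj π v) = c at *
  have e1 : ((1 - s) • mx π c u v + s • u).1 =
      (cmp π u).1 + ((1 - s) • (c • (prj π v).1) + s • (prj π u).1) := by
    change (1 - s) • (u.1 - π u.1 + c • π v.1) + s • u.1 =
      (u.1 - π u.1) + ((1 - s) • (c • π v.1) + s • π u.1)
    module
  have e2 : ((1 - s) • mx π c u v + s • u).2 =
      (cmp π u).2 + ((1 - s) • (c • (prj π v).2) + s • (prj π u).2) := by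
    change (1 - s) • (u.2 - π u.2 + c • π v.2) + s • u.2 =
      (u.2 - π u.2) + ((1 - s) • (c • π v.2) + s • π u.2)
    module
  rw [e1, e2]
  exact k

/-- The positive pairs off the mirrors of `N'` are homotopy equivalent to the product of the
complement of these mirrors and the space of positive pairs. -/
noncomputable def negequiv :
    ContinuousMap.HomotopyEquiv (Good A N') (LocN A N' × PosS A) where
  toFun := ⟨fun v => (⟨v.1, v.2.2⟩, ⟨v.1, v.2.1⟩),
    (Continuous.subtype_mk continuous_subtype_val _).prodMk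
      (Continuous.subtype_mk continuous_subtype_val _)⟩
  invFun := ⟨fun x => ⟨mx π (sc A (cmp π x.2.1) (prj π x.1.1)) x.2.1 x.1.1,
      mx_sc_pos hA hN hπ x.2.2 x.1.1, mx_Loc hπ (cf_pos hA hN hπ x.2.2 x.1.1).ne' _ x.1.2⟩,
    Continuous.subtype_mk (continuous_mx
      (continuous_sc A ((continuous_cmp (π := π)).comp (continuous_subtype_val.comp continuous_snd))
        ((continuous_prj (π := π)).comp (continuous_subtype_val.comp continuous_fst))
        fun x => cf_ne hA hN hπ x.2.2 x.1.1)
      (continuous_subtype_val.comp continuous_snd)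
      (continuous_subtype_val.comp continuous_fst)) _⟩
  left_inv := by
    have hc : Continuous fun z : I × Good A N' => sc A (cmp π z.2.1) (prj π z.2.1) :=
      continuous_sc A ((continuous_cmp (π := π)).comp (continuous_subtype_val.comp continuous_snd))
        ((continuous_prj (π := π)).comp (continuous_subtype_val.comp continuous_snd))
        fun z => cf_ne hA hN hπ z.2.2.1 z.2.1
    have hv : Continuous fun z : I × Good A N' => z.2.1 := continuous_subtype_val.comp continuous_snd
    have hs : Continuous fun z : I × Good A N' => (z.1 : ℝ) :=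
      continuous_subtype_val.comp continuous_fst
    refine ⟨{ toFun := fun z => ⟨(1 - (z.1 : ℝ)) • mx π (sc A (cmp π z.2.1) (prj π z.2.1)) z.2.1
                z.2.1 + (z.1 : ℝ) • z.2.1,
                mixP hA hN hπ z.2.2.1 z.2.1 z.1.2.1 z.1.2.2,
                mixL hA hN hπ z.2.2.1 z.2.2.2 z.1.2.1 z.1.2.2⟩
              continuous_toFun := Continuous.subtype_mk
                (((continuous_const.sub hs).smul (continuous_mx hc hv hv)).add (hs.smul hv)) _
              map_zero_left := ?_
              map_one_left := ?_ }⟩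
    · intro v
      apply Subtype.ext
      change (1 - ((0 : I) : ℝ)) • mx π (sc A (cmp π v.1) (prj π v.1)) v.1 v.1 +
        ((0 : I) : ℝ) • v.1 = mx π (sc A (cmp π v.1) (prj π v.1)) v.1 v.1
      rw [Set.Icc.coe_zero, sub_zero, one_smul, zero_smul, add_zero]
    · intro v
      apply Subtype.ext
      change (1 - ((1 : I) : ℝ)) • mx π (sc A (cmp π v.1) (prj π v.1)) v.1 v.1 +
        ((1 : I) : ℝ) • v.1 = v.1
      rw [Set.Icc.coe_one, sub_self, one_smul, zero_smul, zero_add]
  right_inv := by
    have hv : Continuous fun z : I × (LocN A N' × PosS A) => z.2.1.1 :=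
      continuous_subtype_val.comp (continuous_fst.comp continuous_snd)
    have hu : Continuous fun z : I × (LocN A N' × PosS A) => z.2.2.1 :=
      continuous_subtype_val.comp (continuous_snd.comp continuous_snd)
    have hc : Continuous fun z : I × (LocN A N' × PosS A) =>
        sc A (cmp π z.2.2.1) (prj π z.2.1.1) :=
      continuous_sc A ((continuous_cmp (π := π)).comp hu) ((continuous_prj (π := π)).comp hv)
        fun z => cf_ne hA hN hπ z.2.2.2 z.2.1.1
    have hs : Continuous fun z : I × (LocN A N' × PosS A) => (z.1 : ℝ) :=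
      continuous_subtype_val.comp continuous_fst
    refine ⟨{ toFun := fun z =>
                (⟨(1 - (z.1 : ℝ)) • mx π (sc A (cmp π z.2.2.1) (prj π z.2.1.1)) z.2.2.1
                  z.2.1.1 + (z.1 : ℝ) • z.2.1.1,
                  mixL hA hN hπ z.2.2.2 z.2.1.2 z.1.2.1 z.1.2.2⟩,
                ⟨(1 - (z.1 : ℝ)) • mx π (sc A (cmp π z.2.2.1) (prj π z.2.1.1)) z.2.2.1
                  z.2.1.1 + (z.1 : ℝ) • z.2.2.1,
                  mixP hA hN hπ z.2.2.2 z.2.1.1 z.1.2.1 z.1.2.2⟩)
              continuous_toFun := (Continuous.subtype_mk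
                (((continuous_const.sub hs).smul (continuous_mx hc hu hv)).add (hs.smul hv))
                _).prodMk (Continuous.subtype_mk
                (((continuous_const.sub hs).smul (continuous_mx hc hu hv)).add (hs.smul hu)) _)
              map_zero_left := ?_
              map_one_left := ?_ }⟩
    · intro x
      refine Prod.ext (Subtype.ext ?_) (Subtype.ext ?_)
      · change (1 - ((0 : I) : ℝ)) • mx π (sc A (cmp π x.2.1) (prj π x.1.1)) x.2.1 x.1.1 +
          ((0 : I) : ℝ) • x.1.1 = mx π (sc A (cmp π x.2.1) (prj π x.1.1)) x.2.1 x.1.1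
        rw [Set.Icc.coe_zero, sub_zero, one_smul, zero_smul, add_zero]
      · change (1 - ((0 : I) : ℝ)) • mx π (sc A (cmp π x.2.1) (prj π x.1.1)) x.2.1 x.1.1 +
          ((0 : I) : ℝ) • x.2.1 = mx π (sc A (cmp π x.2.1) (prj π x.1.1)) x.2.1 x.1.1
        rw [Set.Icc.coe_zero, sub_zero, one_smul, zero_smul, add_zero]
    · intro x
      refine Prod.ext (Subtype.ext ?_) (Subtype.ext ?_)
      · change (1 - ((1 : I) : ℝ)) • mx π (sc A (cmp π x.2.1) (prj π x.1.1)) x.2.1 x.1.1 +
          ((1 : I) : ℝ) • x.1.1 = x.1.1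
        rw [Set.Icc.coe_one, sub_self, one_smul, zero_smul, zero_add]
      · change (1 - ((1 : I) : ℝ)) • mx π (sc A (cmp π x.2.1) (prj π x.1.1)) x.2.1 x.1.1 +
          ((1 : I) : ℝ) • x.2.1 = x.2.1
        rw [Set.Icc.coe_one, sub_self, one_smul, zero_smul, zero_add]

theorem bij_neg (z : Good A N') :
    Function.Bijective (FundamentalGroup.map (negequiv hA hN hπ).toFun z) := by
  have h1 : (FundamentalGroupoid.map (negequiv hA hN hπ).toFun).IsEquivalence :=
    (FundamentalGroupoidFunctor.equivOfHomotopyEquiv (negequiv hA hN hπ)).isEquivalence_functor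
  exact ⟨fun a b h => (FundamentalGroupoid.map (negequiv hA hN hπ).toFun).map_injective h,
    fun b => (FundamentalGroupoid.map (negequiv hA hN hπ).toFun).map_surjective b⟩

end

end Pool.Agent.MPa8252b
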