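import Pool.Agent.Lib.MP_a8252b_ag.Neg2

/-!
# Coverings and the mirrors of a negative definite subgroup
-/

namespace Pool.Agent.MPa8252b

open Matrix Topology unitInterval

variable {n : ℕ}

section incl

variable {A : Matrix (Fin n) (Fin n) ℤ} (hA : A.IsSymm) (hs : Sig2 A)
  {N' : AddSubgroup (Fin n → ℤ)}

/-- A homotopy to a nearby loop. -/
theorem incl_mix' {z : Sp A ⊤} (l : Path z z) (γ : Path (incl A N' z) (incl A N' z))
    (hmix : ∀ (s t : I), (1 - (s : ℝ)) • (l t).1 + (s : ℝ) • (γ t).1 ∈ Good A N') :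
    (l.map (incl A N').continuous).Homotopic γ := by
  refine ⟨{ toFun := fun u => ⟨(1 - (u.1 : ℝ)) • (l u.2).1 + (u.1 : ℝ) • (γ u.2).1,
              hmix u.1 u.2⟩
            continuous_toFun := ?_
            map_zero_left := ?_
            map_one_left := ?_
            prop' := ?_ }⟩
  · have h1 : Continuous fun u : I × I => (u.1 : ℝ) := continuous_subtype_val.comp continuous_fst
    have h2 : Continuous fun u : I × I => (l u.2).1 :=
      continuous_subtype_val.comp (l.continuous.comp continuous_snd)
    have h3 : Continuous fun u : I × I => (γ u.2).1 :=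
      continuous_subtype_val.comp (γ.continuous.comp continuous_snd)
    exact Continuous.subtype_mk (((continuous_const.sub h1).smul h2).add (h1.smul h3)) _
  · intro t
    apply Subtype.ext
    change (1 - ((0 : I) : ℝ)) • (l t).1 + ((0 : I) : ℝ) • (γ t).1 = (l t).1
    rw [Set.Icc.coe_zero, sub_zero, one_smul, zero_smul, add_zero]
  · intro t
    apply Subtype.ext
    change (1 - ((1 : I) : ℝ)) • (l t).1 + ((1 : I) : ℝ) • (γ t).1 = (γ t).1
    rw [Set.Icc.coe_one, sub_self, one_smul, zero_smul, zero_add]
  · intro s t ht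
    apply Subtype.ext
    have h3 : (l t).1 = z.1 ∧ (γ t).1 = z.1 := by
      rcases ht with h | h
      · rw [h, l.source, γ.source]
        exact ⟨rfl, rfl⟩
      · rw [Set.mem_singleton_iff.1 h, l.target, γ.target]
        exact ⟨rfl, rfl⟩
    change (1 - (s : ℝ)) • (l t).1 + (s : ℝ) • (γ t).1 = (l t).1
    rw [h3.1, h3.2, ← add_smul, sub_add_cancel, one_smul]

include hA hs in
theorem incl_surj (e : Sp A ⊤) : Function.Surjective (FundamentalGroup.map (incl A N') e) := by
  intro x
  obtain ⟨γ, hγ⟩ := Path.Homotopic.Quotient.mk_surjective (X := Good A N') x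
  let η : I → Pr n := fun t => (γ t).1
  have hη : Continuous η := continuous_subtype_val.comp γ.continuous
  have hK : IsCompact (Set.range η) := isCompact_range hη
  obtain ⟨ε, hε, hthick⟩ := hK.exists_thickening_subset_open (isOpen_good hA hs N')
    (by rintro _ ⟨t, rfl⟩; exact (γ t).2)
  have hnear : ∀ t z, ‖z - η t‖ < ε → z ∈ Good A N' := by
    intro t z hz
    refine hthick ?_
    rw [Metric.mem_thickening_iff]
    exact ⟨η t, ⟨t, rfl⟩, by rw [dist_eq_norm]; exact hz⟩
  have h0 : η 0 = e.1 := by
    change (γ 0).1 = e.1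
    rw [γ.source]
    rfl
  have h1 : η 1 = e.1 := by
    change (γ 1).1 = e.1
    rw [γ.target]
    rfl
  obtain ⟨p, hp⟩ := push_path η hη e e h0 h1 hε hnear
  refine ⟨Path.Homotopic.Quotient.mk p, ?_⟩
  rw [← hγ]
  refine Path.Homotopic.Quotient.eq.2 (incl_mix' p γ fun s t => hnear t _ ?_)
  have e1 : (1 - (s : ℝ)) • (p t).1 + (s : ℝ) • (γ t).1 - η t =
      (1 - (s : ℝ)) • ((p t).1 - η t) := by
    change (1 - (s : ℝ)) • (p t).1 + (s : ℝ) • (γ t).1 - (γ t).1 =
      (1 - (s : ℝ)) • ((p t).1 - (γ t).1)
    module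
  rw [e1, norm_smul, Real.norm_of_nonneg (by linarith [s.2.2])]
  have e2 := hp t
  have e3 := norm_nonneg ((p t).1 - η t)
  nlinarith [s.2.1, s.2.2]

theorem incl_mer {z : Sp A ⊤} (l : Path z z) (hl : Meridian A N' l) :
    (l.map (incl A N').continuous).Homotopic (Path.refl (incl A N' z)) := by
  obtain ⟨δ, p, c, hD, hc, hl⟩ := hl
  refine incl_mix' l _ fun s t => ?_
  have hz : ((Path.refl (incl A N' z)) t).1 = disc p δ (c * Complex.exp
      (((2 * Real.pi * ((0 : I) : ℝ) : ℝ) : ℂ) * Complex.I)) := by
    rw [← hl 0, l.source]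
    rfl
  rw [hl t, hz, disc_mix p δ _ _ (by ring)]
  refine disc_good hD ?_
  have hn : ∀ x : ℝ, ‖c * Complex.exp ((x : ℂ) * Complex.I)‖ = ‖c‖ := by
    intro x
    rw [norm_mul, Complex.norm_exp_ofReal_mul_I, mul_one]
  refine (norm_add_le _ _).trans ?_
  rw [norm_mul, norm_mul ((s : ℝ) : ℂ), hn, hn, Complex.norm_real, Complex.norm_real,
    Real.norm_eq_abs, Real.norm_eq_abs, abs_of_nonneg (by linarith [s.2.2]),
    abs_of_nonneg s.2.1]
  have : (1 - (s : ℝ)) * ‖c‖ + (s : ℝ) * ‖c‖ = ‖c‖ := by ring
  exact this.le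

include hA hs in
/-- The kernel of the inclusion on fundamental groups. -/
theorem incl_ker (e : Sp A ⊤) :
    (FundamentalGroup.map (incl A N') e).ker = Subgroup.closure (mers A N' e) := by
  refine le_antisymm ?_ ?_
  · intro g hg
    obtain ⟨γ, rfl⟩ := Path.Homotopic.Quotient.mk_surjective (X := Sp A ⊤) g
    have h1 : (γ.map (incl A N').continuous).Homotopic (Path.refl (incl A N' e)) :=
      Path.Homotopic.Quotient.eq.1 (MonoidHom.mem_ker.1 hg)
    have h2 := rel_closure (inK_of_null hA hs γ h1)
    have h3 : (Path.Homotopic.Quotient.refl e).symm = Path.Homotopic.Quotient.refl e := by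
      rw [← q_refl_trans (Path.Homotopic.Quotient.refl e).symm, q_trans_symm]
    rw [h3, q_trans_refl] at h2
    have h4 : Subgroup.closure (smallLoops A N' e) ≤ Subgroup.closure (mers A N' e) := by
      rw [Subgroup.closure_le]
      rintro _ ⟨z, c, l, hl, rfl⟩
      exact conj_mers (Path.Homotopic.Quotient.mk c) (small_mem l hl)
    exact h4 h2
  · rw [Subgroup.closure_le]
    rintro _ ⟨z, c, l, hl, rfl⟩
    refine MonoidHom.mem_ker.2 ?_
    have h1 := Path.Homotopic.Quotient.eq.2 (incl_mer l hl)
    have h2 : ((Path.Homotopic.Quotient.mk ((c.trans l).trans c.symm)).map (incl A N') :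
        Path.Homotopic.Quotient (incl A N' e) (incl A N' e)) =
        Path.Homotopic.Quotient.refl (incl A N' e) := by
      rw [← Path.Homotopic.Quotient.mk_map, Path.map_trans, Path.map_trans, ← Path.map_symm,
        Path.Homotopic.Quotient.mk_trans, Path.Homotopic.Quotient.mk_trans, h1,
        Path.Homotopic.Quotient.mk_refl, q_trans_refl, Path.Homotopic.Quotient.mk_symm,
        q_trans_symm]
    exact h2

end incl

/-- A point as a pair of points. -/
def dbl (A : Matrix (Fin n) (Fin n) ℤ) (N' : AddSubgroup (Fin n → ℤ)) :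
    C(Sp A ⊤, LocN A N' × PosS A) :=
  ⟨fun v => (⟨v.1, (P0_top_subset A N' v.2).2⟩, ⟨v.1, v.2.2.2.1⟩),
    (Continuous.subtype_mk continuous_subtype_val _).prodMk
      (Continuous.subtype_mk continuous_subtype_val _)⟩

variable {A : Matrix (Fin n) (Fin n) ℤ} {N' : AddSubgroup (Fin n → ℤ)}

/-- The group of a path connected covering modulo the meridian elements off a negative definite
subgroup. -/
theorem neg_core (hA : A.IsSymm) (hs : Sig2 A) (hN : NegDef A N') {e : Sp A ⊤} {S G : Type}
    [TopologicalSpace S] [PathConnectedSpace S] [Group G] [MulAction G S]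
    {p : S → pathComponent e} (hp : IsQuotientCoveringMap p G) (s : S) :
    ∃ ψ : FundamentalGroup (LocN A N' × PosS A) (dbl A N' (p s).1) →*
      G ⧸ Subgroup.normalClosure (merEl A N' G p),
      Function.Surjective ψ ∧
      (∀ (g : G) (m : Path s (g • s)) (l : Path (dbl A N' (p s).1) (dbl A N' (p s).1)),
        (∀ t, l t = dbl A N' (p (m t)).1) →
        ψ (FundamentalGroup.fromPath (Path.Homotopic.Quotient.mk l)) =
          ((g : G) : G ⧸ Subgroup.normalClosure (merEl A N' G p))⁻¹) ∧
      (SimplyConnectedSpace S → Function.Injective ψ) := by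
  obtain ⟨π, hπ⟩ := exists_proj_neg hA hN
  let q : FundamentalGroup (pathComponent e) (p s) →*
      FundamentalGroup (LocN A N' × PosS A) (dbl A N' (p s).1) :=
    (FundamentalGroup.map (negequiv hA hN hπ).toFun (incl A N' (p s).1)).comp
      ((FundamentalGroup.map (incl A N') (p s).1).comp (FundamentalGroup.map (inc e) (p s)))
  have hb := bij_neg hA hN hπ (incl A N' (p s).1)
  have hq : Function.Surjective q :=
    hb.2.comp ((incl_surj hA hs (p s).1).comp (inc_surjective (p s)))
  have hcl : classes (fun _ l => Meridian A N' l) (p s).1 = mers A N' (p s).1 := rfl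
  have hk : q.ker = Subgroup.closure (classes (MC N' e) (p s)) := by
    ext g
    rw [MonoidHom.mem_ker]
    have h0 : q g = 1 ↔ FundamentalGroup.map (incl A N') (p s).1
        (FundamentalGroup.map (inc e) (p s) g) = 1 := by
      change FundamentalGroup.map (negequiv hA hN hπ).toFun (incl A N' (p s).1)
        (FundamentalGroup.map (incl A N') (p s).1 (FundamentalGroup.map (inc e) (p s) g)) = 1 ↔ _
      constructor
      · intro h
        exact hb.1 (h.trans (map_one _).symm)
      · intro h
        rw [h]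
        exact map_one _
    rw [h0, ← MonoidHom.mem_ker, incl_ker hA hs, ← hcl, ← inc_classes _ (p s)]
    have h1 : Subgroup.closure ((FundamentalGroup.map (inc e) (p s)) '' (classes (MC N' e) (p s))) =
        (Subgroup.closure (classes (MC N' e) (p s))).map (FundamentalGroup.map (inc e) (p s)) :=
      (MonoidHom.map_closure _ _).symm
    change FundamentalGroup.map (inc e) (p s) g ∈
      Subgroup.closure ((FundamentalGroup.map (inc e) (p s)) '' (classes (MC N' e) (p s))) ↔ _
    rw [h1]
    exact Subgroup.mem_map_iff_mem (inc_injective (p s))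
  have h := cover_abs hp s (MC N' e) q hq hk
  rw [moved_eq hp] at h
  obtain ⟨ψ, h1, h2, h3⟩ := h
  refine ⟨ψ, h1, ?_, h3⟩
  intro g m l hl
  have hg : p (g • s) = p s := hp.map_smul g
  have h4 := h2 g m ((m.map hp.continuous).cast rfl hg.symm) fun t => rfl
  have h5 : l = (((m.map hp.continuous).cast rfl hg.symm).map (inc e).continuous).map
      (dbl A N').continuous := Path.ext (funext hl)
  rw [h5]
  exact h4

end Pool.Agent.MPa8252b
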