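import Pool.Agent.Lib.MP_a8252b_ag.Defs

/-!
# The set of positive planes off the mirrors is open
-/

namespace Pool.Agent.MPa8252b

open Matrix Filter Topology

variable {n : ℕ}

theorem continuous_bf (A : Matrix (Fin n) (Fin n) ℤ) :
    Continuous fun p : (Fin n → ℝ) × (Fin n → ℝ) => bf A p.1 p.2 := by
  have h : (fun p : (Fin n → ℝ) × (Fin n → ℝ) => bf A p.1 p.2) =
      fun p => ∑ i, ∑ j, p.1 i * (A.map (Int.cast : ℤ → ℝ)) i j * p.2 j := by
    funext p
    unfold bf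
    rw [Matrix.toBilin'_apply]
  rw [h]
  fun_prop

theorem continuous_bf_left (A : Matrix (Fin n) (Fin n) ℤ) (v : Fin n → ℝ) :
    Continuous fun x : Fin n → ℝ => bf A x v :=
  (continuous_bf A).comp (continuous_id.prodMk continuous_const)

theorem isOpen_pos {A : Matrix (Fin n) (Fin n) ℤ} (hA : A.IsSymm) :
    IsOpen {p : (Fin n → ℝ) × (Fin n → ℝ) | Pos A p.1 p.2} := by
  have h : {p : (Fin n → ℝ) × (Fin n → ℝ) | Pos A p.1 p.2} =
      {p | 0 < bf A p.1 p.1} ∩ {p | 0 < bf A p.1 p.1 * bf A p.2 p.2 - bf A p.1 p.2 ^ 2} := by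
    ext p
    exact pos_iff hA p.1 p.2
  have h11 : Continuous fun p : (Fin n → ℝ) × (Fin n → ℝ) => bf A p.1 p.1 :=
    (continuous_bf A).comp (continuous_fst.prodMk continuous_fst)
  have h22 : Continuous fun p : (Fin n → ℝ) × (Fin n → ℝ) => bf A p.2 p.2 :=
    (continuous_bf A).comp (continuous_snd.prodMk continuous_snd)
  have h12 := continuous_bf A
  rw [h]
  exact (isOpen_lt continuous_const h11).inter
    (isOpen_lt continuous_const ((h11.mul h22).sub (h12.pow 2)))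

/-- Near a positive plane the orthogonal roots are bounded. -/
theorem root_bound {A : Matrix (Fin n) (Fin n) ℤ} (hA : A.IsSymm) (hs : Sig2 A)
    {p₀ : (Fin n → ℝ) × (Fin n → ℝ)} (hp : Pos A p₀.1 p₀.2) :
    ∃ c : ℝ, 0 < c ∧ ∀ᶠ p in 𝓝 p₀, ∀ δ : Fin n → ℤ, Root A δ → bf A p.1 (rl δ) = 0 →
      bf A p.2 (rl δ) = 0 → c * ‖rl δ‖ ^ 2 ≤ 2 := by
  obtain ⟨r, hr, hball⟩ := Metric.nhds_basis_closedBall.mem_iff.1 ((isOpen_pos hA).mem_nhds hp)
  have hK : IsCompact (Metric.closedBall p₀ r ×ˢ Metric.sphere (0 : Fin n → ℝ) 1) :=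
    (isCompact_closedBall p₀ r).prod (isCompact_sphere 0 1)
  have hf : Continuous fun z : ((Fin n → ℝ) × (Fin n → ℝ)) × (Fin n → ℝ) =>
      |bf A z.1.1 z.2| + |bf A z.1.2 z.2| + |bf A z.2 z.2| := by
    have h1 : Continuous fun z : ((Fin n → ℝ) × (Fin n → ℝ)) × (Fin n → ℝ) => bf A z.1.1 z.2 :=
      (continuous_bf A).comp ((continuous_fst.comp continuous_fst).prodMk continuous_snd)
    have h2 : Continuous fun z : ((Fin n → ℝ) × (Fin n → ℝ)) × (Fin n → ℝ) => bf A z.1.2 z.2 :=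
      (continuous_bf A).comp ((continuous_snd.comp continuous_fst).prodMk continuous_snd)
    have h3 : Continuous fun z : ((Fin n → ℝ) × (Fin n → ℝ)) × (Fin n → ℝ) => bf A z.2 z.2 :=
      (continuous_bf A).comp (continuous_snd.prodMk continuous_snd)
    exact (h1.abs.add h2.abs).add h3.abs
  obtain ⟨c, hc, hle⟩ := hK.exists_forall_le' (a := 0) hf.continuousOn (by
    rintro ⟨p, u⟩ ⟨hp1, hu⟩
    have hpos : Pos A p.1 p.2 := hball hp1
    have hu0 : u ≠ 0 := by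
      rintro rfl
      rw [mem_sphere_zero_iff_norm, norm_zero] at hu
      exact zero_ne_one hu
    by_contra hcon
    push Not at hcon
    have a1 := abs_nonneg (bf A p.1 u)
    have a2 := abs_nonneg (bf A p.2 u)
    have a3 := abs_nonneg (bf A u u)
    have hcon' : |bf A p.1 u| + |bf A p.2 u| + |bf A u u| ≤ 0 := hcon
    have b1 : bf A p.1 u = 0 := abs_eq_zero.1 (by linarith)
    have b2 : bf A p.2 u = 0 := abs_eq_zero.1 (by linarith)
    have b3 : bf A u u = 0 := abs_eq_zero.1 (by linarith)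
    have b4 := neg_of_orth hA hs hpos b1 b2 hu0
    linarith)
  refine ⟨c, hc, ?_⟩
  filter_upwards [Metric.closedBall_mem_nhds p₀ hr] with p hp1 δ hδ h1 h2
  have hδ0 : rl δ ≠ 0 := by
    intro h
    unfold Root at hδ
    rw [h, map_zero] at hδ
    norm_num at hδ
  have hn : 0 < ‖rl δ‖ := norm_pos_iff.2 hδ0
  have hu : ‖rl δ‖⁻¹ • rl δ ∈ Metric.sphere (0 : Fin n → ℝ) 1 := by
    rw [mem_sphere_zero_iff_norm, norm_smul, norm_inv, norm_norm, inv_mul_cancel₀ hn.ne']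
  have h3 := hle (p, ‖rl δ‖⁻¹ • rl δ) ⟨hp1, hu⟩
  unfold Root at hδ
  simp only [map_smul, LinearMap.smul_apply, smul_eq_mul, h1, h2, hδ, mul_zero, abs_zero,
    zero_add] at h3
  have h4 : |‖rl δ‖⁻¹ * (‖rl δ‖⁻¹ * -2)| = 2 / ‖rl δ‖ ^ 2 := by
    rw [show ‖rl δ‖⁻¹ * (‖rl δ‖⁻¹ * -2) = -(2 / ‖rl δ‖ ^ 2) by field_simp, abs_neg]
    exact abs_of_pos (by positivity)
  rw [h4, le_div_iff₀ (by positivity)] at h3
  exact h3

theorem isOpen_goodSet {A : Matrix (Fin n) (Fin n) ℤ} (hA : A.IsSymm) (hs : Sig2 A)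
    (D : Set (Fin n → ℤ)) :
    IsOpen {p : Pr n | Pos A p.1 p.2 ∧ ∀ δ ∈ D, Root A δ → ¬ Mir A δ p} := by
  rw [isOpen_iff_mem_nhds]
  rintro p₀ ⟨hp, hroot⟩
  obtain ⟨c, hc, hev⟩ := root_bound hA hs hp
  -- finitely many vectors
  have hfin : {δ : Fin n → ℤ | c * ‖rl δ‖ ^ 2 ≤ 2}.Finite := by
    obtain ⟨m, hm⟩ := exists_nat_gt (2 / c + 1)
    refine Set.Finite.subset (Set.finite_Icc (fun _ : Fin n => -(m : ℤ)) (fun _ => (m : ℤ))) ?_
    intro δ hδ
    have h1 : ‖rl δ‖ ^ 2 ≤ 2 / c := by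
      rw [le_div_iff₀ hc, mul_comm]
      exact hδ
    have h2 : ‖rl δ‖ ≤ m := by
      by_contra h3
      push Not at h3
      have h4 : 1 < ‖rl δ‖ := by
        have : 0 ≤ 2 / c := by positivity
        linarith
      nlinarith
    have h3 : ∀ i, |(δ i : ℝ)| ≤ m := fun i => (norm_le_pi_norm (rl δ) i).trans h2
    constructor
    · intro i
      have h4 := (abs_le.1 (h3 i)).1
      exact_mod_cast h4
    · intro i
      have h4 := (abs_le.1 (h3 i)).2
      exact_mod_cast h4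
  have hall : ∀ᶠ p in 𝓝 p₀, ∀ δ ∈ {δ : Fin n → ℤ | c * ‖rl δ‖ ^ 2 ≤ 2}, δ ∈ D → Root A δ →
      ¬ Mir A δ p := by
    refine (Filter.eventually_all_finite hfin).2 fun δ _ => ?_
    by_cases hδ : δ ∈ D ∧ Root A δ
    · have h1 := hroot δ hδ.1 hδ.2
      have hcl : IsClosed {p : (Fin n → ℝ) × (Fin n → ℝ) |
          bf A p.1 (rl δ) = 0 ∧ bf A p.2 (rl δ) = 0} :=
        (isClosed_eq ((continuous_bf_left A _).comp continuous_fst) continuous_const).inter
          (isClosed_eq ((continuous_bf_left A _).comp continuous_snd) continuous_const)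
      filter_upwards [hcl.isOpen_compl.mem_nhds h1] with p hp1 _ _
      exact hp1
    · exact Eventually.of_forall fun p h1 h2 => absurd ⟨h1, h2⟩ hδ
  filter_upwards [(isOpen_pos hA).mem_nhds hp, hev, hall] with p h1 h2 h3
  refine ⟨h1, fun δ hδ hr h4 => ?_⟩
  exact h3 δ (h2 δ hr h4.1 h4.2) hδ hr h4

theorem isOpen_good {A : Matrix (Fin n) (Fin n) ℤ} (hA : A.IsSymm) (hs : Sig2 A)
    (N' : AddSubgroup (Fin n → ℤ)) : IsOpen (Good A N') :=
  isOpen_goodSet hA hs N'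

end Pool.Agent.MPa8252b
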