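import Pool.Agent.Lib.MP_a8252b_ag.Kernel

/-!
# Powers of a loop given by a periodic map
-/

namespace Pool.Agent.MPa8252b

open Filter Topology unitInterval

section periodic

variable {X : Type} [TopologicalSpace X] {γ : ℝ → X}

omit [TopologicalSpace X] in
theorem per_int (hp : ∀ x, γ (x + 1) = γ x) (k : ℤ) : ∀ x, γ (x + k) = γ x := by
  intro x
  induction k using Int.induction_on with
  | zero => rw [Int.cast_zero, add_zero]
  | succ i ih => rw [Int.cast_add, Int.cast_one, ← add_assoc, hp, ih]
  | pred i ih =>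
    rw [← ih]
    have h := hp (x + ((-(i : ℤ) - 1 : ℤ) : ℝ))
    rw [← h]
    congr 1
    push_cast
    ring

/-- The loop `t ↦ γ (k t)` of a periodic map `γ`. -/
def per (hγ : Continuous γ) (hp : ∀ x, γ (x + 1) = γ x) (k : ℤ) : Path (γ 0) (γ 0) where
  toFun t := γ (k * (t : ℝ))
  continuous_toFun := hγ.comp (continuous_const.mul continuous_subtype_val)
  source' := by
    rw [Set.Icc.coe_zero, mul_zero]
  target' := by
    rw [Set.Icc.coe_one, mul_one]
    have h := per_int hp k 0
    rwa [zero_add] at h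

/-- The path `x + t (y - x)`. -/
def rpath (x y : ℝ) : Path x y where
  toFun t := x + (t : ℝ) * (y - x)
  continuous_toFun := by fun_prop
  source' := by
    rw [Set.Icc.coe_zero]
    ring
  target' := by
    rw [Set.Icc.coe_one]
    ring

theorem per_add (hγ : Continuous γ) (hp : ∀ x, γ (x + 1) = γ x) (j k : ℤ) :
    ((per hγ hp j).trans (per hγ hp k)).Homotopic (per hγ hp (j + k)) := by
  let u : Path (0 : ℝ) ((j : ℝ) + k) := (rpath 0 j).trans (rpath j (j + k))
  have hu : ∀ t : I, ((per hγ hp j).trans (per hγ hp k)) t = γ (u t) := by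
    intro t
    change _ = γ (((rpath 0 j).trans (rpath j (j + k))) t)
    rw [Path.trans_apply, Path.trans_apply]
    split_ifs with h
    · change γ (j * (2 * (t : ℝ))) = γ (0 + (2 * (t : ℝ)) * (j - 0))
      congr 1
      ring
    · change γ (k * (2 * (t : ℝ) - 1)) = γ (j + (2 * (t : ℝ) - 1) * (j + k - j))
      rw [← per_int hp j (k * (2 * (t : ℝ) - 1))]
      congr 1
      ring
  refine ⟨{ toFun := fun z => γ ((1 - (z.1 : ℝ)) * u z.2 + (z.1 : ℝ) * (((j : ℝ) + k) * (z.2 : ℝ)))
            continuous_toFun := ?_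
            map_zero_left := ?_
            map_one_left := ?_
            prop' := ?_ }⟩
  · refine hγ.comp ?_
    have h1 : Continuous fun z : I × I => u z.2 := u.continuous.comp continuous_snd
    fun_prop
  · intro t
    change γ ((1 - ((0 : I) : ℝ)) * u t + ((0 : I) : ℝ) * (((j : ℝ) + k) * (t : ℝ))) =
      ((per hγ hp j).trans (per hγ hp k)) t
    rw [hu, Set.Icc.coe_zero]
    congr 1
    ring
  · intro t
    change γ ((1 - ((1 : I) : ℝ)) * u t + ((1 : I) : ℝ) * (((j : ℝ) + k) * (t : ℝ))) =
      γ (((j + k : ℤ) : ℝ) * (t : ℝ))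
    rw [Set.Icc.coe_one]
    congr 1
    push_cast
    ring
  · intro s t ht
    rcases ht with rfl | ht
    · change γ ((1 - (s : ℝ)) * u 0 + (s : ℝ) * (((j : ℝ) + k) * ((0 : I) : ℝ))) =
        ((per hγ hp j).trans (per hγ hp k)) 0
      rw [Path.source, Path.source, Set.Icc.coe_zero]
      congr 1
      ring
    · rw [Set.mem_singleton_iff] at ht
      subst ht
      change γ ((1 - (s : ℝ)) * u 1 + (s : ℝ) * (((j : ℝ) + k) * ((1 : I) : ℝ))) =
        ((per hγ hp j).trans (per hγ hp k)) 1
      rw [Path.target, Path.target, Set.Icc.coe_one]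
      have h := per_int hp (j + k) 0
      rw [zero_add] at h
      rw [← h]
      congr 1
      push_cast
      ring

/-- The class of `t ↦ γ (k t)` is the `k`-th power of the class of `t ↦ γ t`. -/
theorem per_zpow (hγ : Continuous γ) (hp : ∀ x, γ (x + 1) = γ x) (k : ℤ) :
    (FundamentalGroup.fromPath (Path.Homotopic.Quotient.mk (per hγ hp k)) :
      FundamentalGroup X (γ 0)) =
      (FundamentalGroup.fromPath (Path.Homotopic.Quotient.mk (per hγ hp 1))) ^ k := by
  let f : Multiplicative ℤ →* FundamentalGroup X (γ 0) := MonoidHom.mk'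
    (fun k => FundamentalGroup.fromPath (Path.Homotopic.Quotient.mk (per hγ hp k.toAdd))) (by
      intro a b
      have h := Path.Homotopic.Quotient.eq.2 (per_add hγ hp b.toAdd a.toAdd)
      rw [Path.Homotopic.Quotient.mk_trans] at h
      rw [FundamentalGroup.mul_def]
      have e : (a * b).toAdd = b.toAdd + a.toAdd := by
        rw [toAdd_mul, add_comm]
      rw [e]
      exact h.symm)
  have h := map_zpow f (Multiplicative.ofAdd 1) k
  have e : (Multiplicative.ofAdd (1 : ℤ)) ^ k = Multiplicative.ofAdd k := by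
    rw [← ofAdd_zsmul, smul_eq_mul, mul_one]
  rw [e] at h
  exact h

end periodic

end Pool.Agent.MPa8252b
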