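import Pool.Agent.Lib.MP_a8252b_ag.Generic

/-!
# The orthogonal projection
-/

namespace Pool.Agent.MPa8252b

open Matrix Filter Topology

variable {n : ℕ}

/-- `π` is the orthogonal projection to the real span of `N'`. -/
def IsProj (A : Matrix (Fin n) (Fin n) ℤ) (N' : AddSubgroup (Fin n → ℤ))
    (π : (Fin n → ℝ) →ₗ[ℝ] (Fin n → ℝ)) : Prop :=
  (∀ x, π x ∈ rspan N') ∧ ∀ x, ∀ w ∈ rspan N', bf A (x - π x) w = 0

theorem zero_of_orth {A : Matrix (Fin n) (Fin n) ℤ} (hA : A.IsSymm) (hs : Sig2 A)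
    {N' : AddSubgroup (Fin n → ℤ)} (hN : HasPos A N') {v : Fin n → ℝ} (hv : v ∈ rspan N')
    (h : ∀ w ∈ rspan N', bf A v w = 0) : v = 0 := by
  obtain ⟨x, hx, y, hy, hxy⟩ := hN
  by_contra hne
  have h1 := neg_of_orth hA hs hxy (by rw [bf_symm hA]; exact h x hx)
    (by rw [bf_symm hA]; exact h y hy) hne
  rw [h v hv] at h1
  exact lt_irrefl 0 h1

theorem exists_proj {A : Matrix (Fin n) (Fin n) ℤ} (hA : A.IsSymm) (hs : Sig2 A)
    {N' : AddSubgroup (Fin n → ℤ)} (hN : HasPos A N') : ∃ π, IsProj A N' π := by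
  let B : LinearMap.BilinForm ℝ (Fin n → ℝ) := bf A
  have hrefl : B.IsRefl := fun x y h => by
    rw [← h]
    exact bf_symm hA y x
  have hdisj : Disjoint (rspan N') (B.orthogonal (rspan N')) := by
    rw [Submodule.disjoint_def]
    intro v hv hv'
    refine zero_of_orth hA hs hN hv fun w hw => ?_
    rw [bf_symm hA]
    exact hv' w hw
  have hc : IsCompl (rspan N') (B.orthogonal (rspan N')) :=
    (LinearMap.BilinForm.isCompl_orthogonal_iff_disjoint hrefl).2 hdisj
  refine ⟨(rspan N').subtype ∘ₗ (rspan N').projectionOnto _ hc, fun x => ?_, fun x w hw => ?_⟩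
  · exact Subtype.property _
  · have h1 : x - (rspan N').subtype ((rspan N').projectionOnto _ hc x) ∈
        B.orthogonal (rspan N') := by
      have h2 : (rspan N').projectionOnto _ hc
          (x - (rspan N').subtype ((rspan N').projectionOnto _ hc x)) = 0 := by
        rw [map_sub]
        have h3 : (rspan N').projectionOnto _ hc
            ((rspan N').subtype ((rspan N').projectionOnto _ hc x)) =
            (rspan N').projectionOnto _ hc x :=
          Submodule.projectionOnto_apply_left hc _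
        rw [h3, sub_self]
      exact (Submodule.projectionOnto_apply_eq_zero_iff hc).1 h2
    change bf A (x - (rspan N').subtype ((rspan N').projectionOnto _ hc x)) w = 0
    rw [bf_symm hA]
    exact h1 w hw

section

variable {A : Matrix (Fin n) (Fin n) ℤ} (hA : A.IsSymm) (hs : Sig2 A)
  {N' : AddSubgroup (Fin n → ℤ)} (hN : HasPos A N') {π : (Fin n → ℝ) →ₗ[ℝ] (Fin n → ℝ)}
  (hπ : IsProj A N' π)

include hA hs hN hπ

theorem proj_eq {w : Fin n → ℝ} (hw : w ∈ rspan N') : π w = w := by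
  have h1 : w - π w = 0 := zero_of_orth hA hs hN (Submodule.sub_mem _ hw (hπ.1 w)) (hπ.2 w)
  exact (sub_eq_zero.1 h1).symm

omit hA hs hN in
theorem proj_root (x : Fin n → ℝ) {δ : Fin n → ℤ} (hδ : δ ∈ N') :
    bf A (π x) (rl δ) = bf A x (rl δ) := by
  have h1 := hπ.2 x (rl δ) (Submodule.subset_span ⟨δ, hδ, rfl⟩)
  rw [map_sub, LinearMap.sub_apply, sub_eq_zero] at h1
  exact h1.symm

theorem comp_nonpos (v : Fin n → ℝ) : bf A (v - π v) (v - π v) ≤ 0 := by
  by_cases h0 : v - π v = 0
  · rw [h0, map_zero]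
  · obtain ⟨x, hx, y, hy, hxy⟩ := hN
    refine (neg_of_orth hA hs hxy ?_ ?_ h0).le
    · rw [bf_symm hA]
      exact hπ.2 v x hx
    · rw [bf_symm hA]
      exact hπ.2 v y hy

theorem seg_sq (v : Fin n → ℝ) {l : ℝ} (h0 : 0 ≤ l) (h1 : l ≤ 1) :
    bf A v v ≤ bf A (π v + l • (v - π v)) (π v + l • (v - π v)) := by
  have hneg := comp_nonpos hA hs hN hπ v
  have horth : bf A (v - π v) (π v) = 0 := hπ.2 v _ (hπ.1 v)
  have horth' : bf A (π v) (v - π v) = 0 := by rw [bf_symm hA]; exact horth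
  have e1 : bf A v v = bf A (π v) (π v) + bf A (v - π v) (v - π v) := by
    conv_lhs => rw [show v = π v + (v - π v) by abel]
    generalize v - π v = m at *
    simp only [map_add, LinearMap.add_apply, horth, horth']
    ring
  have e2 : bf A (π v + l • (v - π v)) (π v + l • (v - π v)) =
      bf A (π v) (π v) + l ^ 2 * bf A (v - π v) (v - π v) := by
    generalize v - π v = m at *
    simp only [map_add, map_smul, LinearMap.add_apply, LinearMap.smul_apply, smul_eq_mul, horth,
      horth']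
    ring
  rw [e1, e2]
  have h2 : l ^ 2 ≤ 1 := by nlinarith
  nlinarith

/-- The segment from a point to its projection stays off the mirrors of `N'`. -/
theorem seg_good {p : (Fin n → ℝ) × (Fin n → ℝ)} (hp : p ∈ Good A N') {l : ℝ} (h0 : 0 ≤ l)
    (h1 : l ≤ 1) :
    (π p.1 + l • (p.1 - π p.1), π p.2 + l • (p.2 - π p.2)) ∈ Good A N' := by
  obtain ⟨hpos, hroot⟩ := hp
  constructor
  · intro a b hab
    have h2 := hpos a b hab
    have h3 := seg_sq hA hs hN hπ (a • p.1 + b • p.2) h0 h1
    have h4 : π (a • p.1 + b • p.2) + l • (a • p.1 + b • p.2 - π (a • p.1 + b • p.2)) =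
        a • (π p.1 + l • (p.1 - π p.1)) + b • (π p.2 + l • (p.2 - π p.2)) := by
      rw [map_add, map_smul, map_smul]
      module
    rw [h4] at h3
    exact h2.trans_le h3
  · intro δ hδ hr hcon
    apply hroot δ hδ hr
    have h2 : ∀ x : Fin n → ℝ, bf A (π x + l • (x - π x)) (rl δ) = bf A x (rl δ) := by
      intro x
      have h3 := proj_root hπ x hδ
      simp only [map_add, map_smul, map_sub, LinearMap.add_apply, LinearMap.smul_apply,
        LinearMap.sub_apply, smul_eq_mul, h3]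
      ring
    exact ⟨(h2 p.1) ▸ hcon.1, (h2 p.2) ▸ hcon.2⟩

theorem proj_mem {p : (Fin n → ℝ) × (Fin n → ℝ)} (hp : p ∈ Good A N') :
    (π p.1, π p.2) ∈ P0 A N' := by
  have h1 := seg_good hA hs hN hπ hp le_rfl zero_le_one
  rw [zero_smul, zero_smul, add_zero, add_zero] at h1
  exact ⟨hπ.1 _, hπ.1 _, h1.1, h1.2⟩

end

theorem P0_top_subset (A : Matrix (Fin n) (Fin n) ℤ) (N' : AddSubgroup (Fin n → ℤ)) :
    P0 A ⊤ ⊆ Good A N' :=
  fun _ hp => ⟨hp.2.2.1, fun δ _ => hp.2.2.2 δ (AddSubgroup.mem_top δ)⟩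

theorem rspan_top : rspan (⊤ : AddSubgroup (Fin n → ℤ)) = ⊤ := by
  rw [eq_top_iff]
  intro x _
  have h1 : x = ∑ i, x i • (rl (Pi.single i 1) : Fin n → ℝ) := by
    funext j
    rw [Finset.sum_apply, Finset.sum_eq_single j]
    · simp [rl]
    · intro i _ hij
      simp [rl, hij.symm]
    · intro h
      exact absurd (Finset.mem_univ j) h
  rw [h1]
  exact Submodule.sum_mem _ fun i _ => Submodule.smul_mem _ _
    (Submodule.subset_span ⟨_, AddSubgroup.mem_top _, rfl⟩)

/-- The projection as a map of the spaces of positive planes off the mirrors. -/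
noncomputable def F {A : Matrix (Fin n) (Fin n) ℤ} (hA : A.IsSymm) (hs : Sig2 A)
    {N' : AddSubgroup (Fin n → ℤ)} (hN : HasPos A N') {π : (Fin n → ℝ) →ₗ[ℝ] (Fin n → ℝ)}
    (hπ : IsProj A N' π) : C(P0 A ⊤, P0 A N') where
  toFun p := ⟨(π p.1.1, π p.1.2), proj_mem hA hs hN hπ (P0_top_subset A N' p.2)⟩
  continuous_toFun := by
    have h : Continuous π := LinearMap.continuous_of_finiteDimensional π
    exact Continuous.subtype_mk ((h.comp (continuous_fst.comp continuous_subtype_val)).prodMk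
      (h.comp (continuous_snd.comp continuous_subtype_val))) _

end Pool.Agent.MPa8252b
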