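import Pool.Agent.Lib.MP_a8252b_ag.Ladder

/-!
# Pushing a square off the intersections of two mirrors
-/

namespace Pool.Agent.MPa8252b

open Matrix Filter Topology MeasureTheory
open scoped unitInterval

variable {n : ℕ} {A : Matrix (Fin n) (Fin n) ℤ} {N' : AddSubgroup (Fin n → ℤ)}

theorem nondeg (hA : A.IsSymm) (hs : Sig2 A) {v : Fin n → ℝ} (hv : v ≠ 0) :
    ∃ u, bf A u v ≠ 0 := by
  by_contra hcon
  push Not at hcon
  obtain ⟨x, y, hxy⟩ := hs.1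
  have h1 := neg_of_orth hA hs hxy (hcon x) (hcon y) hv
  rw [hcon v] at h1
  exact lt_irrefl 0 h1

theorem rl_inj {δ δ' : Fin n → ℤ} (h : rl δ = rl δ') : δ = δ' := by
  funext i
  have h1 := congrFun h i
  unfold rl at h1
  exact_mod_cast h1

theorem rl_neg (δ : Fin n → ℤ) : rl (-δ) = -rl δ := by
  funext i
  simp [rl]

theorem root_indep {δ δ' : Fin n → ℤ} (hδ : Root A δ) (hδ' : Root A δ') (h1 : δ' ≠ δ)
    (h2 : δ' ≠ -δ) {a b : ℝ} (ha : a ≠ 0) : a • rl δ' - b • rl δ ≠ 0 := by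
  intro h
  have h3 : a • rl δ' = b • rl δ := sub_eq_zero.1 h
  have h4 : bf A (a • rl δ') (a • rl δ') = bf A (b • rl δ) (b • rl δ) := by rw [h3]
  simp only [map_smul, LinearMap.smul_apply, smul_eq_mul] at h4
  unfold Root at hδ hδ'
  rw [hδ, hδ'] at h4
  have h5 : (a - b) * (a + b) = 0 := by nlinarith
  rcases mul_eq_zero.1 h5 with h6 | h6
  · have h7 : b = a := by linarith
    rw [h7] at h3
    exact h1 (rl_inj (smul_right_injective _ ha h3))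
  · have h7 : b = -a := by linarith
    rw [h7, neg_smul, ← smul_neg, ← rl_neg] at h3
    exact h2 (rl_inj (smul_right_injective _ ha h3))

theorem exists_generic2 (hA : A.IsSymm) (hs : Sig2 A) :
    ∃ u₁ u₂ : Fin n → ℝ, ∀ δ δ', Root A δ → Root A δ' → δ' ≠ δ → δ' ≠ -δ →
      bf A u₁ (rl δ) * bf A u₂ (rl δ') - bf A u₂ (rl δ) * bf A u₁ (rl δ') ≠ 0 := by
  obtain ⟨u₁, hu₁⟩ := exists_generic A
  refine ⟨u₁, ?_⟩
  by_contra hcon
  push Not at hcon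
  let ι := {d : (Fin n → ℤ) × (Fin n → ℤ) // Root A d.1 ∧ Root A d.2 ∧ d.2 ≠ d.1 ∧ d.2 ≠ -d.1}
  let v : ι → (Fin n → ℝ) := fun d =>
    (bf A u₁ (rl d.1.1)) • rl d.1.2 - (bf A u₁ (rl d.1.2)) • rl d.1.1
  let K : ι → Submodule ℝ (Fin n → ℝ) := fun d => LinearMap.ker ((bf A).flip (v d))
  have hnull : ∀ d, (volume : Measure (Fin n → ℝ)) (K d : Set (Fin n → ℝ)) = 0 := by
    intro d
    refine Measure.addHaar_submodule _ _ ?_
    intro h
    obtain ⟨u, hu⟩ := nondeg hA hs (root_indep (b := bf A u₁ (rl d.1.2)) d.2.1 d.2.2.1 d.2.2.2.1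
      d.2.2.2.2 (hu₁ d.1.1 d.2.1))
    have h1 : u ∈ K d := by
      rw [h]
      trivial
    exact hu h1
  have hU : (volume : Measure (Fin n → ℝ)) (⋃ d, (K d : Set (Fin n → ℝ))) = 0 :=
    measure_iUnion_null hnull
  have huniv : (⋃ d, (K d : Set (Fin n → ℝ))) = Set.univ := by
    rw [Set.eq_univ_iff_forall]
    intro u
    obtain ⟨δ, δ', h1, h2, h3, h4, h5⟩ := hcon u
    refine Set.mem_iUnion.2 ⟨⟨(δ, δ'), h1, h2, h3, h4⟩, ?_⟩
    change bf A u ((bf A u₁ (rl δ)) • rl δ' - (bf A u₁ (rl δ')) • rl δ) = 0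
    rw [map_sub, map_smul, map_smul, smul_eq_mul, smul_eq_mul, ← h5]
    ring
  rw [huniv] at hU
  exact (isOpen_univ.measure_pos (volume : Measure (Fin n → ℝ)) Set.univ_nonempty).ne' hU

instance haar4 : (volume : Measure ((ℝ × ℝ) × (ℝ × ℝ))).IsAddHaarMeasure :=
  Measure.prod.instIsAddHaarMeasure (volume : Measure (ℝ × ℝ)) (volume : Measure (ℝ × ℝ))

theorem surf_null (c : ℝ × ℝ → (ℝ × ℝ) × (ℝ × ℝ)) (hc : Differentiable ℝ c) :
    (volume : Measure ((ℝ × ℝ) × (ℝ × ℝ))) (Set.range c) = 0 := by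
  have h1 : Set.range c =
      (fun z : (ℝ × ℝ) × (ℝ × ℝ) => c z.1) '' (Set.univ ×ˢ {0}) := by
    ext z
    constructor
    · rintro ⟨t, rfl⟩
      exact ⟨(t, 0), ⟨trivial, rfl⟩, rfl⟩
    · rintro ⟨⟨t, s⟩, -, rfl⟩
      exact ⟨t, rfl⟩
  rw [h1]
  refine addHaar_image_eq_zero_of_differentiableOn_of_addHaar_eq_zero volume ?_ ?_
  · exact (hc.comp differentiable_fst).differentiableOn
  · rw [Measure.volume_eq_prod, Measure.prod_prod, measure_singleton, mul_zero]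

/-- the distance to the boundary of the square -/
noncomputable def bdist (z : I × I) : ℝ :=
  min (min (z.1 : ℝ) (1 - z.1)) (min (z.2 : ℝ) (1 - z.2))

theorem bdist_cont : Continuous bdist := by
  unfold bdist
  fun_prop

theorem bdist_nonneg (z : I × I) : 0 ≤ bdist z :=
  le_min (le_min z.1.2.1 (by linarith [z.1.2.2])) (le_min z.2.2.1 (by linarith [z.2.2.2]))

/-- A translate of a differentiable square avoids the intersections of two mirrors. -/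
theorem generic_translate (hA : A.IsSymm) (hs : Sig2 A) (P : ℝ × ℝ → Pr n)
    (hP : Differentiable ℝ P) {ε : ℝ} (hε : 0 < ε) :
    ∃ m : Pr n, ‖m‖ < ε ∧ ∀ z δ δ', Root A δ → Root A δ' → δ' ≠ δ → δ' ≠ -δ →
      ¬ (Mir A δ (P z + m) ∧ Mir A δ' (P z + m)) := by
  obtain ⟨u₁, u₂, hu⟩ := exists_generic2 hA hs
  let ι := {d : (Fin n → ℤ) × (Fin n → ℤ) // Root A d.1 ∧ Root A d.2 ∧ d.2 ≠ d.1 ∧ d.2 ≠ -d.1}
  let D : ι → ℝ := fun d =>
    bf A u₁ (rl d.1.1) * bf A u₂ (rl d.1.2) - bf A u₂ (rl d.1.1) * bf A u₁ (rl d.1.2)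
  let c1 : ι → (Fin n → ℝ) → ℝ := fun d x =>
    (bf A u₂ (rl d.1.1) * bf A x (rl d.1.2) - bf A u₂ (rl d.1.2) * bf A x (rl d.1.1)) * (D d)⁻¹
  let c2 : ι → (Fin n → ℝ) → ℝ := fun d x =>
    (bf A u₁ (rl d.1.2) * bf A x (rl d.1.1) - bf A u₁ (rl d.1.1) * bf A x (rl d.1.2)) * (D d)⁻¹
  let c : ι → ℝ × ℝ → (ℝ × ℝ) × (ℝ × ℝ) := fun d z =>
    ((c1 d (P z).1, c2 d (P z).1), (c1 d (P z).2, c2 d (P z).2))
  have hbd : ∀ δ : Fin n → ℤ, Differentiable ℝ fun x : Fin n → ℝ => bf A x (rl δ) := fun δ =>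
    (LinearMap.toContinuousLinearMap ((bf A).flip (rl δ))).differentiable
  have hc1 : ∀ d, Differentiable ℝ (c1 d) := fun d =>
    (((hbd d.1.2).const_mul (bf A u₂ (rl d.1.1))).sub
      ((hbd d.1.1).const_mul (bf A u₂ (rl d.1.2)))).mul_const (D d)⁻¹
  have hc2 : ∀ d, Differentiable ℝ (c2 d) := fun d =>
    (((hbd d.1.1).const_mul (bf A u₁ (rl d.1.2))).sub
      ((hbd d.1.2).const_mul (bf A u₁ (rl d.1.1)))).mul_const (D d)⁻¹
  have hP1 : Differentiable ℝ fun z => (P z).1 := differentiable_fst.comp hP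
  have hP2 : Differentiable ℝ fun z => (P z).2 := differentiable_snd.comp hP
  have hc : ∀ d, Differentiable ℝ (c d) := fun d =>
    (((hc1 d).comp hP1).prodMk ((hc2 d).comp hP1)).prodMk
      (((hc1 d).comp hP2).prodMk ((hc2 d).comp hP2))
  have hnull : (volume : Measure ((ℝ × ℝ) × (ℝ × ℝ))) (⋃ d, Set.range (c d)) = 0 :=
    measure_iUnion_null fun d => surf_null _ (hc d)
  have hr : 0 < ε / (‖u₁‖ + ‖u₂‖ + 1) := by positivity
  obtain ⟨⟨⟨a₁, a₂⟩, ⟨b₁, b₂⟩⟩, hab, hbad⟩ :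
      ∃ z ∈ Metric.ball (0 : (ℝ × ℝ) × (ℝ × ℝ)) (ε / (‖u₁‖ + ‖u₂‖ + 1)),
      z ∉ ⋃ d, Set.range (c d) := by
    by_contra hcon
    push Not at hcon
    have h2 := measure_mono_null hcon hnull
    exact (Metric.measure_ball_pos (volume : Measure ((ℝ × ℝ) × (ℝ × ℝ))) 0 hr).ne' h2
  rw [mem_ball_zero_iff, Prod.norm_def, Prod.norm_def, Prod.norm_def, max_lt_iff, max_lt_iff,
    max_lt_iff] at hab
  obtain ⟨⟨ha₁, ha₂⟩, ⟨hb₁, hb₂⟩⟩ := hab
  have hsmall : ∀ a b : ℝ, ‖a‖ < ε / (‖u₁‖ + ‖u₂‖ + 1) → ‖b‖ < ε / (‖u₁‖ + ‖u₂‖ + 1) →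
      ‖a • u₁ + b • u₂‖ < ε := by
    intro a b h1 h2
    have h3 := norm_add_le (a • u₁) (b • u₂)
    rw [norm_smul, norm_smul] at h3
    have h4 : ‖a‖ * ‖u₁‖ ≤ ε / (‖u₁‖ + ‖u₂‖ + 1) * ‖u₁‖ :=
      mul_le_mul_of_nonneg_right h1.le (norm_nonneg _)
    have h5 : ‖b‖ * ‖u₂‖ ≤ ε / (‖u₁‖ + ‖u₂‖ + 1) * ‖u₂‖ :=
      mul_le_mul_of_nonneg_right h2.le (norm_nonneg _)
    have h6 : ε / (‖u₁‖ + ‖u₂‖ + 1) * (‖u₁‖ + ‖u₂‖ + 1) = ε := by
      field_simp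
    nlinarith
  refine ⟨(a₁ • u₁ + a₂ • u₂, b₁ • u₁ + b₂ • u₂), ?_, ?_⟩
  · rw [Prod.norm_def, max_lt_iff]
    exact ⟨hsmall _ _ ha₁ ha₂, hsmall _ _ hb₁ hb₂⟩
  · intro z δ δ' hδ hδ' h1 h2 hcon
    apply hbad
    have hD := hu δ δ' hδ hδ' h1 h2
    obtain ⟨⟨e1, e2⟩, ⟨e3, e4⟩⟩ := hcon
    simp only [Prod.fst_add, Prod.snd_add, map_add, map_smul, LinearMap.add_apply,
      LinearMap.smul_apply, smul_eq_mul] at e1 e2 e3 e4
    refine Set.mem_iUnion.2 ⟨⟨(δ, δ'), hδ, hδ', h1, h2⟩, z, ?_⟩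
    refine Prod.ext (Prod.ext ?_ ?_) (Prod.ext ?_ ?_)
    · change (bf A u₂ (rl δ) * bf A (P z).1 (rl δ') - bf A u₂ (rl δ') * bf A (P z).1 (rl δ)) *
        (bf A u₁ (rl δ) * bf A u₂ (rl δ') - bf A u₂ (rl δ) * bf A u₁ (rl δ'))⁻¹ = a₁
      rw [mul_inv_eq_iff_eq_mul₀ hD]
      linear_combination (bf A u₂ (rl δ)) * e3 - (bf A u₂ (rl δ')) * e1
    · change (bf A u₁ (rl δ') * bf A (P z).1 (rl δ) - bf A u₁ (rl δ) * bf A (P z).1 (rl δ')) *
        (bf A u₁ (rl δ) * bf A u₂ (rl δ') - bf A u₂ (rl δ) * bf A u₁ (rl δ'))⁻¹ = a₂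
      rw [mul_inv_eq_iff_eq_mul₀ hD]
      linear_combination (bf A u₁ (rl δ')) * e1 - (bf A u₁ (rl δ)) * e3
    · change (bf A u₂ (rl δ) * bf A (P z).2 (rl δ') - bf A u₂ (rl δ') * bf A (P z).2 (rl δ)) *
        (bf A u₁ (rl δ) * bf A u₂ (rl δ') - bf A u₂ (rl δ) * bf A u₁ (rl δ'))⁻¹ = b₁
      rw [mul_inv_eq_iff_eq_mul₀ hD]
      linear_combination (bf A u₂ (rl δ)) * e4 - (bf A u₂ (rl δ')) * e2
    · change (bf A u₁ (rl δ') * bf A (P z).2 (rl δ) - bf A u₁ (rl δ) * bf A (P z).2 (rl δ')) *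
        (bf A u₁ (rl δ) * bf A u₂ (rl δ') - bf A u₂ (rl δ) * bf A u₁ (rl δ'))⁻¹ = b₂
      rw [mul_inv_eq_iff_eq_mul₀ hD]
      linear_combination (bf A u₁ (rl δ')) * e2 - (bf A u₁ (rl δ)) * e4

/-- A square in the positive planes off the mirrors of `N'` whose boundary is off all mirrors can
be pushed off the intersections of two mirrors. -/
theorem push2 (hA : A.IsSymm) (hs : Sig2 A) (E : I × I → Pr n) (hE : Continuous E)
    (hO : ∀ z, E z ∈ Good A N') (hX : ∀ z, bdist z = 0 → E z ∈ Good A ⊤) :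
    ∃ E' : I × I → Pr n, Continuous E' ∧ (∀ z, bdist z = 0 → E' z = E z) ∧
      (∀ z, E' z ∈ Good A N') ∧ ∀ z δ δ', Root A δ → Root A δ' → δ' ≠ δ → δ' ≠ -δ →
        ¬ (Mir A δ (E' z) ∧ Mir A δ' (E' z)) := by
  -- room
  obtain ⟨ε₀, hε₀, hthick⟩ := (isCompact_range hE).exists_thickening_subset_open
    (isOpen_good hA hs N') (by rintro _ ⟨z, rfl⟩; exact hO z)
  have hball : ∀ z p, ‖p - E z‖ < ε₀ → p ∈ Good A N' := by
    intro z p hp
    refine hthick ?_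
    rw [Metric.mem_thickening_iff]
    exact ⟨E z, ⟨z, rfl⟩, by rw [dist_eq_norm]; exact hp⟩
  let ρ : I × I → ℝ := fun z => Metric.infDist (E z) (Good A (⊤ : AddSubgroup (Fin n → ℤ)))ᶜ
  have hρ : Continuous ρ := (Metric.continuous_infDist_pt _).comp hE
  have hne : ((Good A (⊤ : AddSubgroup (Fin n → ℤ)))ᶜ).Nonempty := by
    refine ⟨(0, 0), fun h => ?_⟩
    have h1 := h.1 1 0 (Or.inl one_ne_zero)
    simp at h1
  have hρpos : ∀ z, bdist z = 0 → 0 < ρ z := by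
    intro z hz
    have hcl : IsClosed (Good A (⊤ : AddSubgroup (Fin n → ℤ)))ᶜ :=
      (isOpen_good hA hs ⊤).isClosed_compl
    exact (hcl.notMem_iff_infDist_pos hne).1 (fun h => h (hX z hz))
  have hK : IsCompact {z : I × I | bdist z = 0} :=
    (isClosed_eq bdist_cont continuous_const).isCompact
  obtain ⟨ρ₀, hρ₀, hρle⟩ := hK.exists_forall_le' (a := 0) hρ.continuousOn hρpos
  have hC : IsCompact {z : I × I | ρ z ≤ ρ₀ / 2} := (isClosed_le hρ continuous_const).isCompact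
  obtain ⟨d, hd, hdle⟩ := hC.exists_forall_le' (a := 0) bdist_cont.continuousOn (by
    intro z hz
    refine lt_of_le_of_ne (bdist_nonneg z) fun h => ?_
    have h1 := hρle z h.symm
    have h2 : ρ z ≤ ρ₀ / 2 := hz
    linarith)
  set ε := min ε₀ (ρ₀ / 2) with hε
  have hεpos : 0 < ε := lt_min hε₀ (by positivity)
  -- approximation
  let f : ℝ × ℝ → Pr n := fun z =>
    E (Set.projIcc 0 1 zero_le_one z.1, Set.projIcc 0 1 zero_le_one z.2)
  have hf : Continuous f := hE.comp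
    ((continuous_projIcc.comp continuous_fst).prodMk (continuous_projIcc.comp continuous_snd))
  obtain ⟨P, hP, hPf, -⟩ := hf.exists_contDiff_approx (ε := fun _ => ε / 2) 1 continuous_const
    (fun _ => by positivity)
  have hPE : ∀ z : I × I, ‖P ((z.1 : ℝ), (z.2 : ℝ)) - E z‖ < ε / 2 := by
    intro z
    have h1 := hPf ((z.1 : ℝ), (z.2 : ℝ))
    rw [dist_eq_norm] at h1
    have h2 : f ((z.1 : ℝ), (z.2 : ℝ)) = E z := by
      change E (Set.projIcc 0 1 zero_le_one (z.1 : ℝ), Set.projIcc 0 1 zero_le_one (z.2 : ℝ)) = _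
      rw [Set.projIcc_val, Set.projIcc_val]
    rwa [h2] at h1
  obtain ⟨m, hm, hgen⟩ := generic_translate hA hs P (hP.differentiable one_ne_zero)
    (half_pos hεpos)
  let χ : I × I → ℝ := fun z => min 1 (bdist z / d)
  have hχ0 : ∀ z, 0 ≤ χ z := fun z => le_min zero_le_one (div_nonneg (bdist_nonneg z) hd.le)
  have hχ1 : ∀ z, χ z ≤ 1 := fun z => min_le_left _ _
  have hχc : Continuous χ := continuous_const.min (bdist_cont.div_const d)
  let E' : I × I → Pr n := fun z => E z + χ z • (P ((z.1 : ℝ), (z.2 : ℝ)) - E z + m)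
  have hclose : ∀ z, ‖E' z - E z‖ < ε := by
    intro z
    change ‖E z + χ z • (P ((z.1 : ℝ), (z.2 : ℝ)) - E z + m) - E z‖ < ε
    rw [add_sub_cancel_left, norm_smul, Real.norm_of_nonneg (hχ0 z)]
    have h1 := norm_add_le (P ((z.1 : ℝ), (z.2 : ℝ)) - E z) m
    have h2 := hPE z
    have h3 := norm_nonneg (P ((z.1 : ℝ), (z.2 : ℝ)) - E z + m)
    have h4 := mul_le_mul_of_nonneg_right (hχ1 z) h3
    linarith
  refine ⟨E', ?_, ?_, ?_, ?_⟩
  · have h1 : Continuous fun z : I × I => P ((z.1 : ℝ), (z.2 : ℝ)) :=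
      hP.continuous.comp ((continuous_subtype_val.comp continuous_fst).prodMk
        (continuous_subtype_val.comp continuous_snd))
    exact hE.add (hχc.smul ((h1.sub hE).add continuous_const))
  · intro z hz
    change E z + min 1 (bdist z / d) • (P ((z.1 : ℝ), (z.2 : ℝ)) - E z + m) = E z
    rw [hz, zero_div, min_eq_right zero_le_one, zero_smul, add_zero]
  · intro z
    exact hball z _ ((hclose z).trans_le (min_le_left _ _))
  · intro z δ δ' hδ hδ' h1 h2 hcon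
    by_cases hz : z ∈ {z : I × I | ρ z ≤ ρ₀ / 2}
    · have h3 := hdle z hz
      have h4 : χ z = 1 := min_eq_left (by rw [le_div_iff₀ hd]; linarith)
      have h5 : E' z = P ((z.1 : ℝ), (z.2 : ℝ)) + m := by
        change E z + χ z • (P ((z.1 : ℝ), (z.2 : ℝ)) - E z + m) = _
        rw [h4, one_smul]
        abel
      rw [h5] at hcon
      exact hgen _ δ δ' hδ hδ' h1 h2 hcon
    · have h3 : ρ₀ / 2 < ρ z := not_le.1 hz
      have h4 : E' z ∈ Metric.ball (E z) (ρ z) := by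
        rw [mem_ball_iff_norm]
        exact ((hclose z).trans_le (min_le_right _ _)).trans h3
      have h5 : E' z ∈ Good A (⊤ : AddSubgroup (Fin n → ℤ)) :=
        Metric.ball_infDist_compl_subset h4
      exact h5.2 δ (AddSubgroup.mem_top δ) hδ hcon.1

/-- A square off the intersections of two mirrors has a uniform room. -/
theorem nice_room (hA : A.IsSymm) (hs : Sig2 A) (E : I × I → Pr n) (hE : Continuous E)
    (hO : ∀ z, E z ∈ Good A N')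
    (h2 : ∀ z δ δ', Root A δ → Root A δ' → δ' ≠ δ → δ' ≠ -δ → ¬ (Mir A δ (E z) ∧ Mir A δ' (E z))) :
    ∃ ε : ℝ, 0 < ε ∧ ∀ z, Nice A N' (Metric.ball (E z) ε) := by
  let U : (Fin n → ℤ) → Set (Pr n) := fun δ => {p | Pos A p.1 p.2 ∧
    ∀ δ' ∈ ({δ' | δ' ∈ N' ∨ (δ' ≠ δ ∧ δ' ≠ -δ)} : Set (Fin n → ℤ)), Root A δ' → ¬ Mir A δ' p}
  have hU : ∀ δ, IsOpen (U δ) := fun δ => isOpen_goodSet hA hs _
  have hcov : Set.range E ⊆ ⋃ δ, U δ := by
    rintro _ ⟨z, rfl⟩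
    by_cases hz : ∃ δ, Root A δ ∧ Mir A δ (E z)
    · obtain ⟨δ, hδ, hm⟩ := hz
      refine Set.mem_iUnion.2 ⟨δ, (hO z).1, fun δ' hδ' hr hm' => ?_⟩
      rcases hδ' with h | ⟨h, h'⟩
      · exact (hO z).2 δ' h hr hm'
      · exact h2 z δ δ' hδ hr h h' ⟨hm, hm'⟩
    · push Not at hz
      exact Set.mem_iUnion.2 ⟨0, (hO z).1, fun δ' _ hr => hz δ' hr⟩
  obtain ⟨ε, hε, h3⟩ := lebesgue_number_lemma_of_metric (isCompact_range hE) hU hcov
  refine ⟨ε, hε, fun z => ?_⟩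
  obtain ⟨δ, hδ⟩ := h3 (E z) ⟨z, rfl⟩
  refine ⟨fun p hp => ⟨(hδ hp).1, fun δ' hδ' => (hδ hp).2 δ' (Or.inl hδ')⟩, δ, ?_⟩
  intro δ' hr h h' p hp
  exact (hδ hp).2 δ' (Or.inr ⟨h, h'⟩) hr

end Pool.Agent.MPa8252b
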